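import Pool.Agent.Lib.MP_0db9b2_pr.Defs

/-
The notion of solution used in the statement.
-/

set_option autoImplicit false

namespace Pool.Agent.Lib.MP_0db9b2_pr

open MeasureTheory Filter
open scoped NNReal

/-- u is an adapted, continuous, nonnegative field with moments bounded uniformly in space and
locally in time, with u(t,x) = 1 + int_0^t (k lap u + a u - eps u^gamma) ds + int_0^t u dw(x),
the stochastic integral being the limit in probability of left-point Riemann sums. -/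
def IsSolution {d : ℕ} {Ω : Type*} {mΩ : MeasurableSpace Ω} (P : Measure Ω)
    (F : Filtration ℝ≥0 mΩ) (w : (Fin d → ℤ) → ℝ≥0 → Ω → ℝ) (γ : ℕ) (ε k a : ℝ)
    (u : ℝ≥0 → (Fin d → ℤ) → Ω → ℝ) : Prop :=
  (∀ x, Adapted F fun t => u t x) ∧
  (∀ x, ∀ᵐ ω ∂P, Continuous fun t => u t x ω) ∧
  (∀ t x, ∀ᵐ ω ∂P, 0 ≤ u t x ω) ∧
  (∀ (p : ℕ) (T : ℝ≥0), ∃ C : ℝ, ∀ t ≤ T, ∀ x,
    Integrable (fun ω => |u t x ω| ^ p) P ∧ ∫ ω, |u t x ω| ^ p ∂P ≤ C) ∧
  ∀ t x, TendstoInMeasure P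
    (fun n ω => itoSum (fun s => u s x ω) (fun s => w x s ω) t n) atTop
    (fun ω => u t x ω - 1 - ∫ r in (0 : ℝ)..t,
      (k * lap (fun y => u r.toNNReal y ω) x + a * u r.toNNReal x ω
        - ε * u r.toNNReal x ω ^ γ))

end Pool.Agent.Lib.MP_0db9b2_pr
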