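import Mathlib

/-
Definitions used in the statement.
-/

set_option autoImplicit false

namespace Pool.Agent.Lib.MP_0db9b2_pr

open scoped NNReal

/-- The lattice Laplacian: the sum over the 2d nearest neighbours y of x of f y - f x. -/
def lap {d : ℕ} (f : (Fin d → ℤ) → ℝ) (x : Fin d → ℤ) : ℝ :=
  ∑ i : Fin d, ((f (x + Pi.single i 1) - f x) + (f (x - Pi.single i 1) - f x))

/-- The left-point Riemann sum of H against B on the partition of [0,t] into n equal pieces. -/
noncomputable def itoSum (H B : ℝ≥0 → ℝ) (t : ℝ≥0) (n : ℕ) : ℝ :=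
  ∑ i ∈ Finset.range n, H (t * i / n) * (B (t * (i + 1) / n) - B (t * i / n))

end Pool.Agent.Lib.MP_0db9b2_pr
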