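import Pool.Agent.Lib.MP_0db9b2_pr.Expect

/-
Two-sided Brownian paths on a canonical product space, and ergodicity of lattice shifts.
-/

set_option autoImplicit false

namespace Pool.Agent.Lib.MP_0db9b2_pr

open MeasureTheory ProbabilityTheory Real
open scoped NNReal ENNReal symmDiff

abbrev E2 : Type := (ℝ≥0 → ℝ) × (ℝ≥0 → ℝ)

/-- the two-sided path built from a future and a past one-sided path -/
noncomputable def twoS (t : ℝ) (e : E2) : ℝ := e.1 t.toNNReal + e.2 (-t).toNNReal

/-- the increments of the two-sided path after time -r -/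
noncomputable def sig (r : ℝ≥0) (e : E2) (t : ℝ≥0) : ℝ := twoS (t - r) e - twoS (-r) e

theorem measurable_twoS (t : ℝ) : Measurable (twoS t) := by unfold twoS; fun_prop

theorem measurable_sig (r : ℝ≥0) : Measurable (sig r) :=
  measurable_pi_lambda _ fun _ => (measurable_twoS _).sub (measurable_twoS _)

section

variable {μ : Measure (ℝ≥0 → ℝ)} [IsProbabilityMeasure μ]

theorem preB_fst (h : IsPreBrownianReal (fun (t : ℝ≥0) (p : ℝ≥0 → ℝ) => p t) μ) :
    IsPreBrownianReal (fun (t : ℝ≥0) (e : E2) => e.1 t) (μ.prod μ) :=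
  ⟨fun I => (h.hasLaw I).fun_comp (measurePreserving_fst (μ := μ) (ν := μ)).hasLaw⟩

theorem preB_snd (h : IsPreBrownianReal (fun (t : ℝ≥0) (p : ℝ≥0 → ℝ) => p t) μ) :
    IsPreBrownianReal (fun (t : ℝ≥0) (e : E2) => e.2 t) (μ.prod μ) :=
  ⟨fun I => (h.hasLaw I).fun_comp (measurePreserving_snd (μ := μ) (ν := μ)).hasLaw⟩

theorem gauss_pair (h : IsPreBrownianReal (fun (t : ℝ≥0) (p : ℝ≥0 → ℝ) => p t) μ) :
    IsGaussianProcess (fun (p : Bool × ℝ≥0) (e : E2) => cond p.1 (e.1 p.2) (e.2 p.2))
      (μ.prod μ) := by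
  classical
  refine ⟨fun I => ?_⟩
  let J : Finset ℝ≥0 := I.image Prod.snd
  have h1 := (preB_fst h).isGaussianProcess.hasGaussianLaw J
  have h2 := (preB_snd h).isGaussianProcess.hasGaussianLaw J
  have hi : IndepFun (fun e : E2 => J.restrict e.1) (fun e : E2 => J.restrict e.2) (μ.prod μ) :=
    indepFun_prod (Finset.measurable_restrict J) (Finset.measurable_restrict J)
  have h3 := IndepFun.hasGaussianLaw h1 h2 hi
  let L : ((J → ℝ) × (J → ℝ)) →L[ℝ] (I → ℝ) := ContinuousLinearMap.pi fun i =>
    cond i.1.1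
      ((ContinuousLinearMap.proj (⟨i.1.2, Finset.mem_image_of_mem _ i.2⟩ : J)).comp
        (ContinuousLinearMap.fst ℝ _ _))
      ((ContinuousLinearMap.proj (⟨i.1.2, Finset.mem_image_of_mem _ i.2⟩ : J)).comp
        (ContinuousLinearMap.snd ℝ _ _))
  refine (h3.map_fun L).congr (ae_of_all _ fun e => ?_)
  funext i
  obtain ⟨⟨b, t⟩, hi⟩ := i
  cases b <;> rfl

theorem cov_twoS (h : IsPreBrownianReal (fun (t : ℝ≥0) (p : ℝ≥0 → ℝ) => p t) μ) (s t : ℝ) :
    cov[twoS s, twoS t; μ.prod μ] =
      min (max s 0) (max t 0) + min (max (-s) 0) (max (-t) 0) := by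
  have m1 := fun t => ((preB_fst h).isGaussianProcess.hasGaussianLaw_eval t).memLp_two
  have m2 := fun t => ((preB_snd h).isGaussianProcess.hasGaussianLaw_eval t).memLp_two
  have e : ∀ t : ℝ, twoS t = (fun e : E2 => e.1 t.toNNReal) + fun e : E2 => e.2 (-t).toNNReal :=
    fun t => rfl
  have hi : ∀ a b : ℝ≥0, IndepFun (fun e : E2 => e.1 a) (fun e : E2 => e.2 b) (μ.prod μ) :=
    fun a b => indepFun_prod (measurable_pi_apply a) (measurable_pi_apply b)
  rw [e, e, covariance_add_left (m1 _) (m2 _) ((m1 _).add (m2 _)),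
    covariance_add_right (m1 _) (m1 _) (m2 _), covariance_add_right (m2 _) (m1 _) (m2 _),
    (preB_fst h).covariance_eval, (preB_snd h).covariance_eval,
    (hi _ _).covariance_eq_zero (m1 _) (m2 _), (hi _ _).symm.covariance_eq_zero (m2 _) (m1 _)]
  simp [Real.coe_toNNReal']

theorem cov_arith {s t r : ℝ} (hst : s ≤ t) (hs : 0 ≤ s) (hr : 0 ≤ r) :
    min (max (s - r) 0) (max (t - r) 0) + min (max (-(s - r)) 0) (max (-(t - r)) 0) -
      (min (max (s - r) 0) (max (-r) 0) + min (max (-(s - r)) 0) (max (- -r) 0)) -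
      (min (max (-r) 0) (max (t - r) 0) + min (max (- -r) 0) (max (-(t - r)) 0)) +
      (min (max (-r) 0) (max (-r) 0) + min (max (- -r) 0) (max (- -r) 0)) = s := by
  have e1 : max (-r) 0 = 0 := max_eq_right (by linarith)
  have e2 : max (- -r) 0 = r := by rw [neg_neg]; exact max_eq_left hr
  have e3 : min (max (s - r) 0) (max (t - r) 0) = max (s - r) 0 :=
    min_eq_left (max_le_max (by linarith) le_rfl)
  have e4 : min (max (-(s - r)) 0) (max (-(t - r)) 0) = max (-(t - r)) 0 :=
    min_eq_right (max_le_max (by linarith) le_rfl)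
  have e5 : min (max (s - r) 0) 0 = 0 := min_eq_right (le_max_right _ _)
  have e6 : min (max (-(s - r)) 0) r = max (-(s - r)) 0 := min_eq_left (max_le (by linarith) hr)
  have e7 : min 0 (max (t - r) 0) = 0 := min_eq_left (le_max_right _ _)
  have e8 : min r (max (-(t - r)) 0) = max (-(t - r)) 0 := min_eq_right (max_le (by linarith) hr)
  rw [e1, e2, e3, e4, e5, e6, e7, e8, min_self, min_self]
  rcases le_total s r with h | h
  · rw [max_eq_right (show s - r ≤ 0 by linarith), max_eq_left (show 0 ≤ -(s - r) by linarith)]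
    ring
  · rw [max_eq_left (show 0 ≤ s - r by linarith), max_eq_right (show -(s - r) ≤ 0 by linarith)]
    ring

theorem preB_sig (h : IsPreBrownianReal (fun (t : ℝ≥0) (p : ℝ≥0 → ℝ) => p t) μ) (r : ℝ≥0) :
    IsPreBrownianReal (fun (t : ℝ≥0) (e : E2) => sig r e t) (μ.prod μ) := by
  classical
  have m1 := fun t => ((preB_fst h).isGaussianProcess.hasGaussianLaw_eval t).memLp_two
  have m2 := fun t => ((preB_snd h).isGaussianProcess.hasGaussianLaw_eval t).memLp_two
  have m3 : ∀ t : ℝ, MemLp (twoS t) 2 (μ.prod μ) := fun t => (m1 _).add (m2 _)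
  have i3 : ∀ t : ℝ, ∫ e, twoS t e ∂(μ.prod μ) = 0 := by
    intro t
    unfold twoS
    rw [integral_add ((preB_fst h).integrable_eval _) ((preB_snd h).integrable_eval _),
      (preB_fst h).integral_eval, (preB_snd h).integral_eval, add_zero]
  refine IsGaussianProcess.isPreBrownianReal_of_covariance ?_ (fun t => ?_) (fun s t hst => ?_)
  · refine (gauss_pair h).of_isGaussianProcess fun t => ?_
    let I : Finset (Bool × ℝ≥0) := {(true, ((t : ℝ) - r).toNNReal),
      (false, (-((t : ℝ) - r)).toNNReal), (true, (-(r : ℝ)).toNNReal),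
      (false, (-(-(r : ℝ))).toNNReal)}
    refine ⟨I, (ContinuousLinearMap.proj ⟨(true, ((t : ℝ) - r).toNNReal), by simp [I]⟩ +
      ContinuousLinearMap.proj ⟨(false, (-((t : ℝ) - r)).toNNReal), by simp [I]⟩) -
      (ContinuousLinearMap.proj ⟨(true, (-(r : ℝ)).toNNReal), by simp [I]⟩ +
      ContinuousLinearMap.proj ⟨(false, (-(-(r : ℝ))).toNNReal), by simp [I]⟩), fun e => rfl⟩
  · unfold sig
    rw [integral_sub ((m3 _).integrable one_le_two) ((m3 _).integrable one_le_two), i3, i3,
      sub_zero]
  · unfold sig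
    rw [covariance_fun_sub_fun_sub (m3 _) (m3 _) (m3 _) (m3 _), cov_twoS h, cov_twoS h,
      cov_twoS h, cov_twoS h]
    exact cov_arith hst s.coe_nonneg r.coe_nonneg

theorem law_sig (h : IsPreBrownianReal (fun (t : ℝ≥0) (p : ℝ≥0 → ℝ) => p t) μ) (r : ℝ≥0) :
    (μ.prod μ).map (sig r) = μ := by
  have := law_eq_of_preBrownian (preB_sig h r) h
    (fun t => (measurable_pi_apply t).comp (measurable_sig r)) (fun t => measurable_pi_apply t)
  simpa using this

end

variable {d : ℕ}

abbrev Om (d : ℕ) : Type := Site d → E2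

noncomputable def Sig (r : ℝ≥0) (ω : Om d) : Path d := fun x => sig r (ω x)

def theta {E : Type*} (y : Site d) (ω : Site d → E) : Site d → E := fun x => ω (x + y)

theorem measurable_Sig (r : ℝ≥0) : Measurable (Sig (d := d) r) :=
  measurable_pi_lambda _ fun x => (measurable_sig r).comp (measurable_pi_apply x)

theorem measurable_theta {E : Type*} [MeasurableSpace E] (y : Site d) :
    Measurable (theta (E := E) y) :=
  measurable_pi_lambda _ fun _ => measurable_pi_apply _

theorem shiftP_Sig (r s : ℝ≥0) (ω : Om d) : shiftP s (Sig (r + s) ω) = Sig r ω := by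
  funext x t
  simp only [shiftP, Sig, sig]
  push_cast
  have e1 : (s : ℝ) + t - (r + s) = t - r := by ring
  have e2 : (s : ℝ) - (r + s) = -r := by ring
  rw [e1, e2]; ring

theorem law_Sig {μ : Measure (ℝ≥0 → ℝ)} [IsProbabilityMeasure μ]
    (h : IsPreBrownianReal (fun (t : ℝ≥0) (p : ℝ≥0 → ℝ) => p t) μ) (r : ℝ≥0) :
    (Measure.infinitePi fun _ : Site d => μ.prod μ).map (Sig r) =
      Measure.infinitePi fun _ : Site d => μ := by
  have := Measure.infinitePi_map_pi (fun _ : Site d => μ.prod μ) (f := fun _ => sig r)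
    (fun _ => measurable_sig r)
  simp_rw [law_sig h r] at this
  exact this

theorem measurePreserving_theta {E : Type*} [MeasurableSpace E] (κ : Measure E)
    [IsProbabilityMeasure κ] (y : Site d) :
    MeasurePreserving (theta y) (Measure.infinitePi fun _ : Site d => κ)
      (Measure.infinitePi fun _ : Site d => κ) :=
  ⟨measurable_theta y, Measure.map_infinitePi_infinitePi_of_inj (P := fun _ : Site d => κ)
    (f := fun x => x + y) (add_left_injective y)⟩

theorem exists_far (hd : 1 ≤ d) (I : Finset (Site d)) :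
    ∃ y : Site d, ∀ x ∈ I, x + y ∉ I := by
  classical
  have : Nonempty (Fin d) := ⟨⟨0, hd⟩⟩
  obtain ⟨y, hy⟩ := Infinite.exists_notMem_finset (Finset.image₂ (fun a b => a - b) I I)
  refine ⟨y, fun x hx hxy => hy ?_⟩
  exact Finset.mem_image₂.2 ⟨x + y, hxy, x, hx, by simp⟩

theorem cylinder_indep {E : Type*} [MeasurableSpace E] (κ : Measure E) [IsProbabilityMeasure κ]
    (I : Finset (Site d)) {S : Set (I → E)} (hS : MeasurableSet S) {y : Site d}
    (hy : ∀ x ∈ I, x + y ∉ I) :
    (Measure.infinitePi fun _ : Site d => κ) (cylinder I S ∩ theta y ⁻¹' cylinder I S) =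
      (Measure.infinitePi fun _ : Site d => κ) (cylinder I S) *
        (Measure.infinitePi fun _ : Site d => κ) (cylinder I S) := by
  classical
  have h0 := iIndepFun_infinitePi (P := fun _ : Site d => κ) (X := fun _ (e : E) => e)
    (fun _ => measurable_id)
  have hdisj : Disjoint I (I.image (· + y)) := by
    rw [Finset.disjoint_right]
    intro z hz
    obtain ⟨x, hx, rfl⟩ := Finset.mem_image.1 hz
    exact hy x hx
  have h1 := h0.indepFun_finset I (I.image (· + y)) hdisj fun _ => measurable_pi_apply _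
  have h2 := h1.comp (φ := id) (ψ := fun (f : I.image (· + y) → E) (i : I) =>
    f ⟨i.1 + y, Finset.mem_image_of_mem _ i.2⟩) measurable_id (by fun_prop)
  have h3 := h2.measure_inter_preimage_eq_mul S S hS hS
  have h4 := (measurePreserving_theta κ y).measure_preimage
    (MeasurableSet.cylinder I hS).nullMeasurableSet
  rw [← h4]
  nth_rewrite 1 [h4]
  exact h3

theorem ergodic_theta (hd : 1 ≤ d) {E : Type*} [MeasurableSpace E] (κ : Measure E)
    [IsProbabilityMeasure κ] {B : Set (Site d → E)} (hB : MeasurableSet B)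
    (hinv : ∀ y, theta y ⁻¹' B =ᵐ[Measure.infinitePi fun _ : Site d => κ] B) :
    (Measure.infinitePi fun _ : Site d => κ) B = 0 ∨
      (Measure.infinitePi fun _ : Site d => κ) B = 1 := by
  set Q := Measure.infinitePi fun _ : Site d => κ with hQ
  have hdense : Q.MeasureDense (measurableCylinders fun _ : Site d => E) :=
    Measure.MeasureDense.of_generateFrom_isSetAlgebra_finite Q isSetAlgebra_measurableCylinders
      generateFrom_measurableCylinders.symm
  have key : ∀ ε : ℝ, 0 < ε → |Q.real B - Q.real B * Q.real B| ≤ 4 * ε := by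
    intro ε hε
    obtain ⟨C, hC, hBC⟩ := hdense.approx B hB (measure_ne_top _ _) ε hε
    obtain ⟨I, S, hS, rfl⟩ := (mem_measurableCylinders C).1 hC
    obtain ⟨y, hy⟩ := exists_far hd I
    have hCm : MeasurableSet (cylinder (α := fun _ : Site d => E) I S) :=
      MeasurableSet.cylinder (α := fun _ : Site d => E) I hS
    set C := cylinder (α := fun _ : Site d => E) I S with hCdef
    have h1 : Q.real (B ∆ C) ≤ ε := by
      rw [measureReal_def]
      exact ENNReal.toReal_le_of_le_ofReal hε.le hBC.le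
    have h2 : Q.real (C ∩ theta y ⁻¹' C) = Q.real C * Q.real C := by
      rw [measureReal_def, hCdef, cylinder_indep κ I hS hy, ENNReal.toReal_mul]; rfl
    have h3 : Q.real (B ∩ theta y ⁻¹' B) = Q.real B := by
      apply measureReal_congr
      have := (ae_eq_refl B).inter (hinv y)
      rwa [Set.inter_self] at this
    have hmp := measurePreserving_theta κ y
    have h4 : |Q.real B - Q.real C| ≤ ε :=
      (abs_measureReal_sub_le_measureReal_symmDiff hB.nullMeasurableSet
        hCm.nullMeasurableSet).trans h1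
    have h5 : |Q.real (B ∩ theta y ⁻¹' B) - Q.real (C ∩ theta y ⁻¹' C)| ≤ 2 * ε := by
      refine (abs_measureReal_sub_le_measureReal_symmDiff
        (hB.inter (hmp.measurable hB)).nullMeasurableSet
        (hCm.inter (hmp.measurable hCm)).nullMeasurableSet).trans ?_
      have hsub : (B ∩ theta y ⁻¹' B) ∆ (C ∩ theta y ⁻¹' C) ⊆ (B ∆ C) ∪ theta y ⁻¹' (B ∆ C) := by
        intro z
        simp only [Set.mem_symmDiff, Set.mem_inter_iff, Set.mem_preimage, Set.mem_union]
        tauto
      refine (measureReal_mono hsub).trans ((measureReal_union_le _ _).trans ?_)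
      rw [hmp.measureReal_preimage (hB.symmDiff hCm).nullMeasurableSet]
      linarith
    rw [h2, h3] at h5
    have b1 : 0 ≤ Q.real B := measureReal_nonneg
    have b2 : Q.real B ≤ 1 := measureReal_le_one
    have c1 : 0 ≤ Q.real C := measureReal_nonneg
    have c2 : Q.real C ≤ 1 := measureReal_le_one
    rw [abs_le] at h4 h5 ⊢
    constructor <;> nlinarith
  have h0 : Q.real B - Q.real B * Q.real B = 0 := by
    rw [← abs_nonpos_iff]
    refine le_of_forall_pos_le_add fun ε hε => ?_
    have := key (ε / 4) (by positivity)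
    linarith
  have h1 : Q.real B * (1 - Q.real B) = 0 := by linarith
  rcases mul_eq_zero.1 h1 with h | h
  · left; exact (measureReal_eq_zero_iff (measure_ne_top _ _)).1 h
  · right
    have : Q.real B = 1 := by linarith
    rw [measureReal_def] at this
    exact (ENNReal.toReal_eq_one_iff _).1 this

end Pool.Agent.Lib.MP_0db9b2_pr
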