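import Pool.Agent.Lib.MP_0db9b2_pr.ExMom
import Pool.Agent.Lib.MP_0db9b2_pr.TwoSided

-- part Pool.Agent.Lib.MP_0db9b2_pr.Limit
section

/-
Construction of the limit by pulling the initial time back to minus infinity.
-/

set_option autoImplicit false

namespace Pool.Agent.Lib.MP_0db9b2_pr

open MeasureTheory ProbabilityTheory Real Filter
open scoped NNReal ENNReal Topology

variable {d : ℕ} {Ω : Type*} {mΩ : MeasurableSpace Ω}

theorem cauchy_G {g : ℕ → ℕ → ℝ} {M : ℝ} (𝒰 : Ultrafilter ℕ)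
    (h : ∀ L, ∀ᶠ n in (𝒰 : Filter ℕ), g n L ∈ Set.Icc 0 M) {η : ℝ} (hη : 0 < η) :
    ∃ L, ∀ L', ∀ᶠ n in (𝒰 : Filter ℕ), g n L - g n L' ≤ η := by
  have h1 : ∀ L, ∃ Γ ∈ Set.Icc (0 : ℝ) M, Tendsto (fun n => g n L) 𝒰 (𝓝 Γ) := fun L =>
    isCompact_Icc.ultrafilter_le_nhds (𝒰.map fun n => g n L) (le_principal_iff.2 (h L))
  choose Γ hΓ hT using h1
  have hb : BddBelow (Set.range Γ) := ⟨0, by rintro _ ⟨L, rfl⟩; exact (hΓ L).1⟩
  obtain ⟨L, hL⟩ := exists_lt_of_ciInf_lt (lt_add_of_pos_right (⨅ L, Γ L) hη)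
  refine ⟨L, fun L' => ((hT L).sub (hT L')).eventually_le_const ?_⟩
  have := ciInf_le hb L'
  linarith

theorem L1_limit {Q : Measure Ω} {f : ℕ → ℕ → Ω → ℝ} {𝒰 : Filter ℕ} [𝒰.NeBot] (hU : 𝒰 ≤ atTop)
    (hi : ∀ᶠ n in atTop, ∀ N, Integrable (f N n) Q)
    (h1 : ∀ N η, 0 < η → ∃ n0, ∀ n ≥ n0, ∀ n' ≥ n0, ∫ ω, |f N n ω - f N n' ω| ∂Q ≤ η)
    (h2 : ∀ η, 0 < η → ∃ N0, ∀ N ≥ N0, ∀ N' ≥ N, ∀ᶠ n in 𝒰,
      ∫ ω, |f N' n ω - f N n ω| ∂Q ≤ η) :
    ∃ G : Ω → ℝ, Measurable G ∧ Integrable G Q ∧ ∀ η, 0 < η → ∃ N0, ∀ N ≥ N0, ∀ᶠ n in 𝒰,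
      ∫ ω, |f N n ω - G ω| ∂Q ≤ η := by
  classical
  obtain ⟨n1, hn1⟩ := eventually_atTop.1 hi
  let A : ℕ → ℕ → Lp ℝ 1 Q := fun N n => if h : Integrable (f N n) Q then h.toL1 _ else 0
  have hA : ∀ n ≥ n1, ∀ N, A N n =ᵐ[Q] f N n := fun n hn N => by
    simp only [A, dif_pos (hn1 n hn N)]
    exact Integrable.coeFn_toL1 _
  have hd : ∀ n ≥ n1, ∀ n' ≥ n1, ∀ N N', dist (A N n) (A N' n') =
      ∫ ω, |f N n ω - f N' n' ω| ∂Q := fun n hn n' hn' N N' => by
    rw [L1.dist_eq_integral_dist]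
    refine integral_congr_ae ?_
    filter_upwards [hA n hn N, hA n' hn' N'] with ω e1 e2
    rw [e1, e2, Real.dist_eq]
  have c1 : ∀ N, ∃ B, Tendsto (A N) atTop (𝓝 B) := fun N => by
    refine cauchySeq_tendsto_of_complete (Metric.cauchySeq_iff.2 fun η hη => ?_)
    obtain ⟨n0, hn0⟩ := h1 N (η / 2) (half_pos hη)
    refine ⟨max n0 n1, fun n hn n' hn' => ?_⟩
    rw [hd n (le_of_max_le_right hn) n' (le_of_max_le_right hn')]
    exact (hn0 n (le_of_max_le_left hn) n' (le_of_max_le_left hn')).trans_lt (half_lt_self hη)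
  choose B hB using c1
  have c2 : CauchySeq B := by
    refine Metric.cauchySeq_iff'.2 fun η hη => ?_
    obtain ⟨N0, hN0⟩ := h2 (η / 2) (half_pos hη)
    refine ⟨N0, fun N hN => lt_of_le_of_lt ?_ (half_lt_self hη)⟩
    refine le_of_tendsto (((hB N).dist (hB N0)).mono_left hU) ?_
    filter_upwards [hN0 N0 le_rfl N hN, (eventually_ge_atTop n1).filter_mono hU] with n e1 e2
    rwa [hd n e2 n e2]
  obtain ⟨G, hG⟩ := cauchySeq_tendsto_of_complete c2
  refine ⟨G, (Lp.stronglyMeasurable G).measurable, L1.integrable_coeFn G, fun η hη => ?_⟩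
  obtain ⟨N0, hN0⟩ := Metric.tendsto_atTop.1 hG (η / 2) (half_pos hη)
  refine ⟨N0, fun N hN => ?_⟩
  filter_upwards [(eventually_ge_atTop n1).filter_mono hU,
    (Metric.tendsto_nhds.1 (hB N) (η / 2) (half_pos hη)).filter_mono hU] with n e1 e2
  have e3 : dist (A N n) G = ∫ ω, |f N n ω - G ω| ∂Q := by
    rw [L1.dist_eq_integral_dist]
    refine integral_congr_ae ?_
    filter_upwards [hA n e1 N] with ω e1
    rw [e1, Real.dist_eq]
  have := dist_triangle (A N n) (B N) G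
  linarith [hN0 N hN]

theorem int_tri {Q : Measure Ω} {f g h : Ω → ℝ} (hf : Integrable f Q) (hg : Integrable g Q)
    (hh : Integrable h Q) :
    ∫ ω, |f ω - h ω| ∂Q ≤ ∫ ω, |f ω - g ω| ∂Q + ∫ ω, |g ω - h ω| ∂Q := by
  refine le_trans (integral_mono (hf.sub hh).abs ((hf.sub hg).abs.add (hg.sub hh).abs)
    fun ω => abs_sub_le _ _ _) (le_of_eq ?_)
  exact integral_add (hf.sub hg).abs (hg.sub hh).abs

theorem lip_bound {ι : Type*} [Fintype ι] {Q : Measure Ω} [IsProbabilityMeasure Q]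
    {X Y : ι → Ω → ℝ} (mX : ∀ i, Measurable (X i)) (mY : ∀ i, Measurable (Y i))
    (hX : ∀ i, Integrable (X i) Q) (hY : ∀ i, Integrable (Y i) Q) {f : (ι → ℝ) → ℝ} {C : ℝ}
    (hC : ∀ x y, dist (f x) (f y) ≤ C) {L : ℝ≥0} (hf : LipschitzWith L f) {η : ℝ}
    (h : ∀ i, ∫ ω, |X i ω - Y i ω| ∂Q ≤ η) :
    |∫ ω, f (fun i => X i ω) ∂Q - ∫ ω, f (fun i => Y i ω) ∂Q| ≤ L * (Fintype.card ι * η) := by
  have hi : ∀ Z : ι → Ω → ℝ, (∀ i, Measurable (Z i)) →
      Integrable (fun ω => f (fun i => Z i ω)) Q := fun Z hZ =>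
    (integrable_const (|f 0| + C)).mono'
      (hf.continuous.measurable.comp (measurable_pi_lambda _ hZ)).aestronglyMeasurable
      (ae_of_all _ fun ω => by
        have h1 := hC (fun i => Z i ω) 0
        rw [Real.dist_eq] at h1
        have h2 := abs_sub_abs_le_abs_sub (f fun i => Z i ω) (f 0)
        rw [Real.norm_eq_abs]; linarith)
  have k1 := (HI.sum (P := Q) Finset.univ (f := fun i ω => |X i ω - Y i ω|)
    fun i _ => ⟨((hX i).sub (hY i)).abs, rfl⟩).const_mul L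
  rw [← integral_sub (hi X mX) (hi Y mY)]
  refine (abs_integral_le_integral_abs.trans
    (integral_mono ((hi X mX).sub (hi Y mY)).abs k1.1 fun ω => ?_)).trans ?_
  · refine (hf.dist_le_mul _ _).trans (mul_le_mul_of_nonneg_left ?_ L.coe_nonneg)
    refine (dist_pi_le_iff (Finset.sum_nonneg fun _ _ => abs_nonneg _)).2 fun i => ?_
    exact Finset.single_le_sum (f := fun i => |X i ω - Y i ω|) (fun _ _ => abs_nonneg _)
      (Finset.mem_univ i)
  · rw [k1.2]
    refine mul_le_mul_of_nonneg_left ((Finset.sum_le_sum fun i _ => h i).trans (le_of_eq ?_))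
      L.coe_nonneg
    simp

noncomputable def fl (t : ℝ≥0) (n : ℕ) : ℕ := ⌊(t : ℝ) * n⌋₊

theorem fl_nat (N n : ℕ) : fl N n = N * n := by
  unfold fl
  rw [NNReal.coe_natCast, ← Nat.cast_mul, Nat.floor_natCast]

theorem fl_mono {s t : ℝ≥0} (h : s ≤ t) (n : ℕ) : fl s n ≤ fl t n :=
  Nat.floor_mono (mul_le_mul_of_nonneg_right h (Nat.cast_nonneg n))

theorem fl_le (t : ℝ≥0) (n : ℕ) : fl t n ≤ ⌈t⌉₊ * n := by
  rw [← fl_nat]; exact fl_mono (Nat.le_ceil t) n

theorem tendsto_tm_fl (t : ℝ≥0) : Tendsto (fun n => tm n (fl t n)) atTop (𝓝 t) := by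
  rw [← NNReal.tendsto_coe]
  simp_rw [coe_tm]
  exact (tendsto_nat_floor_mul_div_atTop t.coe_nonneg).comp tendsto_natCast_atTop_atTop

variable {P : Measure Ω} {F : Filtration ℝ≥0 mΩ} {w : Site d → ℝ≥0 → Ω → ℝ} {k a ε : ℝ} {b : ℕ}
  {u : ℝ≥0 → Site d → Ω → ℝ}

noncomputable def Vn (k a ε : ℝ) (b n l : ℕ) (x : Site d) (ϖ : Path d) : ℝ :=
  flow (par d k a ε b n) (noise n ϖ) (fun _ => 1) l x

theorem measurable_Vn (n l : ℕ) (x : Site d) : Measurable (Vn k a ε b n l x) :=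
  measurable_flow_path n l 1 x

theorem Vn_theta (n l : ℕ) (x : Site d) (r : ℝ≥0) (ω : Om d) :
    Vn k a ε b n l 0 (Sig r (theta x ω)) = Vn k a ε b n l x (Sig r ω) := by
  have := flow_shift (q := par d k a ε b n) (noise n (Sig r ω)) 1 x l 0
  rw [zero_add] at this
  exact this

theorem Sol.convT (h : Noise P F w) (hu : Sol P F w k a ε b u) (hk : 0 ≤ k) (hε : 0 < ε)
    (hb : b ≠ 0) (t τ : ℝ≥0) (x : Site d) {η : ℝ} (hη : 0 < η) : ∀ᶠ n in atTop,
      ∫ ω, |Vn k a ε b n (fl t n + fl τ n) x (pathOf w ω) - u (t + τ) x ω| ∂P ≤ η := by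
  have h1 : Tendsto (fun n => tm n (fl t n + fl τ n)) atTop (𝓝 (t + τ)) := by
    simp_rw [tm_add]
    exact (tendsto_tm_fl t).add (tendsto_tm_fl τ)
  filter_upwards [hu.time_cont h x h1 (half_pos hη),
    hu.conv h hk hε hb (⌈t⌉₊ + ⌈τ⌉₊) x (half_pos hη), par_good (d := d) (a := a) hk hε hb]
    with n e1 e2 ⟨_, hq⟩
  have e3 := e2 (fl t n + fl τ n) (by rw [add_mul]; exact add_le_add (fl_le t n) (fl_le τ n))
  simp_rw [abs_sub_comm (u _ x _)] at e3
  refine (int_tri (h.flow_int hq n _ zero_le_one x) (hu.int_u h (tm n (fl t n + fl τ n)) x)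
    (hu.int_u h _ x)).trans ?_
  linarith

namespace Noise

noncomputable def QQ (P : Measure Ω) (w : Site d → ℝ≥0 → Ω → ℝ) : Measure (Om d) :=
  Measure.infinitePi fun _ : Site d => (wiener P w).prod (wiener P w)

theorem QQ_prob (h : Noise P F w) : IsProbabilityMeasure (QQ P w) := by
  have := h.wiener_prob
  unfold QQ; infer_instance

theorem law_QQ (h : Noise P F w) (r : ℝ≥0) : (QQ P w).map (Sig r) = P.map (pathOf w) := by
  have := h.wiener_prob
  rw [h.law_path]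
  exact law_Sig h.wiener_preBrownian r

theorem integral_Sig (h : Noise P F w) (r : ℝ≥0) {φ : Path d → ℝ} (hφ : Measurable φ) :
    ∫ ω, φ (Sig r ω) ∂QQ P w = ∫ ω, φ (pathOf w ω) ∂P := by
  rw [← integral_map (measurable_Sig r).aemeasurable hφ.aestronglyMeasurable, h.law_QQ,
    integral_map h.meas_path.aemeasurable hφ.aestronglyMeasurable]

theorem integrable_Sig (h : Noise P F w) (r : ℝ≥0) {φ : Path d → ℝ} (hφ : Measurable φ)
    (hi : Integrable (fun ω => φ (pathOf w ω)) P) :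
    Integrable (fun ω => φ (Sig r ω)) (QQ P w) := by
  have h1 := (integrable_map_measure hφ.aestronglyMeasurable h.meas_path.aemeasurable).2 hi
  rw [← h.law_QQ r] at h1
  exact (integrable_map_measure hφ.aestronglyMeasurable (measurable_Sig r).aemeasurable).1 h1

theorem theta_QQ (h : Noise P F w) (y : Site d) :
    MeasurePreserving (theta y) (QQ P w) (QQ P w) := by
  have := h.wiener_prob
  exact measurePreserving_theta _ y

theorem Gm_bound (h : Noise P F w) (hk : 0 ≤ k) (hε : 0 < ε) (hb : b ≠ 0) :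
    ∃ M : ℝ, 1 ≤ M ∧ ∀ᶠ n in atTop, ∀ y, Gm (par d k a ε b n) P w n y (n - 1) ≤ M := by
  have hb' : (0 : ℝ) < b := by exact_mod_cast Nat.pos_of_ne_zero hb
  obtain ⟨M, hM, hMe⟩ := exists_mean hb (S := b * ε / exp (|a| * b)) (by positivity)
  refine ⟨max M 1, le_max_right _ _, ?_⟩
  filter_upwards [par_good (d := d) (a := a) hk hε hb] with n ⟨hn, hq⟩ y
  refine ((h.ubar_int hq n (n - 1) y).2.trans ?_).trans (le_max_left _ _)
  set q := par d k a ε b n with hqd
  have hδ := (tm n 1).coe_nonneg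
  have hl : 0 < q.al + 2 * d * q.ka := by
    have := hq.al_pos; have := hq.ka_nonneg; positivity
  have h1 := Mseq_bound hq hl (L := 1 + |a| * tm n 1)
    (by
      have := mul_le_mul_of_nonneg_right (le_abs_self a) hδ
      simp only [hqd, par]; linarith)
    (le_add_of_nonneg_right (by positivity)) (n - 1)
  have hp := Mseq_pos hq hl (n - 1)
  refine le_of_inv_pow_le hb hM hp ?_
  have h2 := count_mul_mesh n n
  have h3 := tm_nat hn 1
  rw [one_mul] at h3
  rw [h3, NNReal.coe_natCast, Nat.cast_one] at h2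
  have h4 : ((n - 1 : ℕ) : ℝ) + 1 = n := by
    rw [Nat.cast_sub hn]; simp
  have h5 : (n : ℝ) * q.c = b * ε := by
    simp only [hqd, par]
    rw [mul_left_comm, h2, mul_one]
  have h6 : ((1 + |a| * tm n 1) ^ q.b) ^ (n - 1) ≤ exp (|a| * b) := by
    rw [← pow_mul]
    refine (pow_le_pow_left₀ (by positivity) (by linarith [add_one_le_exp (|a| * tm n 1)] :
      1 + |a| * (tm n 1 : ℝ) ≤ exp (|a| * tm n 1)) _).trans ?_
    rw [← exp_nat_mul]
    refine exp_le_exp.2 ?_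
    have h7 : ((n - 1 : ℕ) : ℝ) * tm n 1 ≤ 1 := by nlinarith
    have h8 := mul_le_mul_of_nonneg_left h7 (show 0 ≤ |a| * b by positivity)
    simp only [hqd, par]
    push_cast
    linarith
  rw [h4, h5] at h1
  rw [hMe, div_le_iff₀ (exp_pos _)]
  have h9 := mul_le_mul_of_nonneg_right h6
    (show 0 ≤ 1 / Mseq q (q.al + 2 * d * q.ka) (n - 1) ^ q.b by positivity)
  have h10 : q.b = b := rfl
  rw [h10] at h1 h9
  linarith

theorem pull (h : Noise P F w) (hk : 0 ≤ k) (hε : 0 < ε) (hb : b ≠ 0) (𝒰 : Ultrafilter ℕ)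
    (hU : (𝒰 : Filter ℕ) ≤ atTop) (τ : ℝ≥0) {η : ℝ} (hη : 0 < η) :
    ∃ t0 : ℕ, ∀ t : ℝ≥0, (t0 : ℝ≥0) ≤ t → ∀ t' ≥ t, ∀ᶠ n in (𝒰 : Filter ℕ),
      ∫ ω, |Vn k a ε b n (fl t' n + fl τ n) 0 (Sig (tm n (fl t' n)) ω) -
        Vn k a ε b n (fl t n + fl τ n) 0 (Sig (tm n (fl t n)) ω)| ∂QQ P w ≤ η := by
  obtain ⟨M, hM, hG⟩ := h.Gm_bound (a := a) hk hε hb
  set K : ℝ := 2 * (b * 2 ^ b * M ^ b) + 1 with hK
  have hK0 : 0 < K := by positivity
  have hg := (hG.and (par_good (d := d) (a := a) hk hε hb)).filter_mono hU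
  obtain ⟨L, hL⟩ := cauchy_G (g := fun n L => Gm (par d k a ε b n) P w n 0 ((L + 1) * n))
    (M := M) 𝒰 (fun L => by
      filter_upwards [hg] with n ⟨e1, hn, hq⟩
      exact ⟨Gm_nonneg hq n 0 _, (h.Gm_anti hq n 0 (by
        rw [add_mul, one_mul]; omega)).trans (e1 0)⟩) (η := η / K) (by positivity)
  refine ⟨L + 2, fun t ht t' ht' => ?_⟩
  filter_upwards [hg, hL (⌈t'⌉₊ + ⌈τ⌉₊)] with n ⟨e1, hn, hq⟩ e2
  obtain ⟨r, hr⟩ := Nat.exists_eq_add_of_le (fl_mono ht' n)
  have e3 := fl_mono ht n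
  rw [fl_nat, add_mul] at e3
  obtain ⟨l, hl⟩ : ∃ l, fl t n + fl τ n = l + 1 := ⟨fl t n + fl τ n - 1, by omega⟩
  have e4 := fl_le t' n
  have e5 := fl_le τ n
  have e6 := h.coupling hq n (n - 1) hM e1 0 r l ((L + 1) * n) ((⌈t'⌉₊ + ⌈τ⌉₊ + 1) * n)
    (by rw [add_mul]; omega) (by rw [add_mul, add_mul]; omega)
  have e7 : fl t' n + fl τ n = r + l + 1 := by omega
  have e8 := h.integral_Sig (tm n (fl t' n))
    (φ := fun ϖ => |Vn k a ε b n (r + l + 1) 0 ϖ - Vn k a ε b n (l + 1) 0 (shiftP (tm n r) ϖ)|)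
    ((measurable_Vn _ _ _).sub ((measurable_Vn _ _ _).comp (measurable_shiftP _))).abs
  have e9 : ∀ ω : Om d, shiftP (tm n r) (Sig (tm n (fl t' n)) ω) = Sig (tm n (fl t n)) ω := by
    intro ω
    rw [hr, tm_add, shiftP_Sig]
  simp only [e9] at e8
  rw [e7, hl, e8]
  refine e6.trans ?_
  rw [le_div_iff₀ hK0, mul_comm] at e2
  exact e2

end Noise

theorem Sol.limit (h : Noise P F w) (hu : Sol P F w k a ε b u) (hk : 0 ≤ k) (hε : 0 < ε)
    (hb : b ≠ 0) (𝒰 : Ultrafilter ℕ) (hU : (𝒰 : Filter ℕ) ≤ atTop) (τ : ℝ≥0) :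
    ∃ G : Om d → ℝ, Measurable G ∧ Integrable G (Noise.QQ P w) ∧ ∀ η, 0 < η →
      ∀ᶠ t : ℝ≥0 in atTop, ∀ᶠ n in (𝒰 : Filter ℕ),
        ∫ ω, |Vn k a ε b n (fl t n + fl τ n) 0 (Sig (tm n (fl t n)) ω) - G ω| ∂Noise.QQ P w
          ≤ η := by
  have hi : ∀ᶠ n in atTop, ∀ t : ℝ≥0, Integrable
      (fun ω => Vn k a ε b n (fl t n + fl τ n) 0 (Sig (tm n (fl t n)) ω)) (Noise.QQ P w) := by
    filter_upwards [par_good (d := d) (a := a) hk hε hb] with n ⟨_, hq⟩ t
    exact h.integrable_Sig _ (measurable_Vn _ _ _) (h.flow_int hq n _ zero_le_one 0)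
  obtain ⟨G, mG, iG, hG⟩ := L1_limit (Q := Noise.QQ P w)
    (f := fun N n ω => Vn k a ε b n (fl N n + fl τ n) 0 (Sig (tm n (fl N n)) ω)) hU
    (hi.mono fun n hn N => hn N)
    (fun N η hη => by
      obtain ⟨n0, hn0⟩ := eventually_atTop.1 ((hu.convT h hk hε hb N τ 0 (half_pos hη)).and
        (par_good (d := d) (a := a) hk hε hb))
      refine ⟨n0, fun n hn n' hn' => ?_⟩
      obtain ⟨c1, p1, q1⟩ := hn0 n hn
      obtain ⟨c2, p2, q2⟩ := hn0 n' hn'
      have e1 : tm n (fl N n) = N := by rw [fl_nat, tm_nat p1]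
      have e2 : tm n' (fl N n') = N := by rw [fl_nat, tm_nat p2]
      rw [e1, e2, h.integral_Sig N (φ := fun ϖ => |Vn k a ε b n (fl N n + fl τ n) 0 ϖ -
        Vn k a ε b n' (fl N n' + fl τ n') 0 ϖ|)
        ((measurable_Vn _ _ _).sub (measurable_Vn _ _ _)).abs]
      refine (int_tri (h.flow_int q1 n _ zero_le_one 0) (hu.int_u h (N + τ) 0)
        (h.flow_int q2 n' _ zero_le_one 0)).trans ?_
      simp_rw [abs_sub_comm (u _ 0 _)]
      unfold Vn at c1 c2
      linarith)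
    (fun η hη => by
      obtain ⟨t0, ht0⟩ := h.pull (a := a) hk hε hb 𝒰 hU τ hη
      exact ⟨t0, fun N hN N' hN' => ht0 N (by exact_mod_cast hN) N' (by exact_mod_cast hN')⟩)
  refine ⟨G, mG, iG, fun η hη => ?_⟩
  obtain ⟨t0, ht0⟩ := h.pull (a := a) hk hε hb 𝒰 hU τ (half_pos hη)
  obtain ⟨N0, hN0⟩ := hG _ (half_pos hη)
  filter_upwards [eventually_ge_atTop (t0 : ℝ≥0), eventually_ge_atTop (N0 : ℝ≥0)] with t h1 h2
  filter_upwards [ht0 t h1 ⌈t⌉₊ (Nat.le_ceil t),
    hN0 ⌈t⌉₊ (by exact_mod_cast h2.trans (Nat.le_ceil t)), hi.filter_mono hU] with n e1 e2 e3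
  refine (int_tri (e3 t) (e3 ⌈t⌉₊) iG).trans ?_
  simp_rw [abs_sub_comm (Vn k a ε b n (fl t n + fl τ n) 0 _)]
  linarith

end Pool.Agent.Lib.MP_0db9b2_pr
end

-- part Pool.Agent.Lib.MP_0db9b2_pr.Final
section

/-
The limiting field: convergence of finite-dimensional laws, homogeneity and ergodicity.
-/

set_option autoImplicit false

namespace Pool.Agent.Lib.MP_0db9b2_pr

open MeasureTheory ProbabilityTheory Real Filter
open scoped NNReal ENNReal Topology

variable {d : ℕ} {Ω : Type*} {mΩ : MeasurableSpace Ω}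
variable {P : Measure Ω} {F : Filtration ℝ≥0 mΩ} {w : Site d → ℝ≥0 → Ω → ℝ} {k a ε : ℝ} {b : ℕ}
  {u : ℝ≥0 → Site d → Ω → ℝ}

theorem Sol.field [IsProbabilityMeasure P] [IsProbabilityMeasure (Noise.QQ P w)]
    (h : Noise P F w) (hu : Sol P F w k a ε b u) (hk : 0 ≤ k) (hε : 0 < ε) (hb : b ≠ 0) :
    ∃ G : ℝ≥0 → Om d → ℝ, (∀ τ, Measurable (G τ)) ∧
      ∀ (ι : Type) [Fintype ι] (p : ι → ℝ≥0 × Site d),
        TendstoInDistribution (fun (t : ℝ≥0) ω i => u (t + (p i).1) (p i).2 ω) atTop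
          (fun ω i => G (p i).1 (theta (p i).2 ω)) (fun _ => P) (Noise.QQ P w) := by
  choose G mG iG hG using hu.limit h hk hε hb (hyperfilter ℕ) Nat.hyperfilter_le_atTop
  refine ⟨G, mG, fun ι _ p => ?_⟩
  have m1 : ∀ t : ℝ≥0, Measurable fun ω i => u (t + (p i).1) (p i).2 ω :=
    fun t => measurable_pi_lambda _ fun i => hu.meas _ _
  have m0 : ∀ i, Measurable fun ω => G (p i).1 (theta (p i).2 ω) :=
    fun i => (mG _).comp (measurable_theta _)
  have m2 : Measurable fun ω i => G (p i).1 (theta (p i).2 ω) := measurable_pi_lambda _ m0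
  refine ⟨fun t => (m1 t).aemeasurable, m2.aemeasurable, ?_⟩
  rw [tendsto_iff_forall_lipschitz_integral_tendsto]
  rintro f ⟨C, hC⟩ ⟨L, hL⟩
  have mf := hL.continuous.measurable
  simp only [ProbabilityMeasure.coe_mk]
  simp_rw [integral_map (m1 _).aemeasurable mf.aestronglyMeasurable,
    integral_map m2.aemeasurable mf.aestronglyMeasurable]
  refine Metric.tendsto_nhds.2 fun η hη => ?_
  set η' : ℝ := η / (2 * (L * Fintype.card ι) + 1) with hη'
  have p' : 0 < η' := by positivity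
  filter_upwards [eventually_all.2 fun i => hG (p i).1 η' p'] with t ht
  obtain ⟨n, e1, e2, hn, hq⟩ := ((eventually_all.2 ht).and
    (((eventually_all.2 fun i => hu.convT h hk hε hb t (p i).1 (p i).2 p').and
      (par_good (d := d) (a := a) hk hε hb)).filter_mono Nat.hyperfilter_le_atTop)).exists
  have i1 : ∀ i, Integrable (fun ω => Vn k a ε b n (fl t n + fl (p i).1 n) (p i).2 (pathOf w ω))
      P := fun i => h.flow_int hq n _ zero_le_one _
  have c1 := lip_bound (Q := P)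
    (X := fun i ω => Vn k a ε b n (fl t n + fl (p i).1 n) (p i).2 (pathOf w ω))
    (Y := fun i ω => u (t + (p i).1) (p i).2 ω)
    (fun i => (measurable_Vn _ _ _).comp h.meas_path) (fun i => hu.meas _ _) i1
    (fun i => hu.int_u h _ _) hC hL e2
  have c2 := lip_bound (Q := Noise.QQ P w)
    (X := fun i ω => Vn k a ε b n (fl t n + fl (p i).1 n) (p i).2 (Sig (tm n (fl t n)) ω))
    (Y := fun i ω => G (p i).1 (theta (p i).2 ω))
    (fun i => (measurable_Vn _ _ _).comp (measurable_Sig _)) m0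
    (fun i => h.integrable_Sig _ (measurable_Vn _ _ _) (i1 i))
    (fun i => (h.theta_QQ _).integrable_comp_of_integrable (iG _)) hC hL (η := η') (fun i => by
      refine le_trans (le_of_eq ?_) (e1 i)
      have c3 := integral_map (μ := Noise.QQ P w) (measurable_theta (p i).2).aemeasurable
        (f := fun ω => |Vn k a ε b n (fl t n + fl (p i).1 n) 0 (Sig (tm n (fl t n)) ω) -
          G (p i).1 ω|) (((measurable_Vn _ _ _).comp (measurable_Sig _)).sub
          (mG _)).abs.aestronglyMeasurable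
      rw [(h.theta_QQ _).map_eq] at c3
      rw [c3]
      simp only [Vn_theta])
  have c3 := h.integral_Sig (tm n (fl t n))
    (φ := fun ϖ => f fun i => Vn k a ε b n (fl t n + fl (p i).1 n) (p i).2 ϖ)
    (mf.comp (measurable_pi_lambda _ fun i => measurable_Vn _ _ _))
  rw [c3] at c2
  rw [Real.dist_eq]
  have c4 : (2 * (L * Fintype.card ι) + 1) * η' = η := by rw [hη']; field_simp
  rw [abs_le] at c1 c2
  rw [abs_lt]
  constructor <;> linarith [c1.1, c1.2, c2.1, c2.2]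

theorem Sol.main [IsProbabilityMeasure P] (hd : 1 ≤ d) (h : Noise P F w)
    (hu : Sol P F w k a ε b u) (hk : 0 ≤ k) (hε : 0 < ε) (hb : b ≠ 0) :
    ∃ (ν : Measure (ℝ≥0 × Site d → ℝ)) (_ : IsProbabilityMeasure ν),
      (∀ (s : ℝ≥0) (y : Site d),
        MeasurePreserving (fun f (p : ℝ≥0 × Site d) => f (p.1 + s, p.2 + y)) ν ν) ∧
      (∀ A, MeasurableSet A → (∀ y : Site d,
        (fun f (p : ℝ≥0 × Site d) => f (p.1, p.2 + y)) ⁻¹' A =ᵐ[ν] A) → ν A = 0 ∨ ν A = 1) ∧
      ∀ I : Finset (ℝ≥0 × Site d),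
        TendstoInDistribution (fun (t : ℝ≥0) ω (p : I) => u (t + p.1.1) p.1.2 ω) atTop
          (fun f (p : I) => f p) (fun _ => P) ν := by
  have := h.QQ_prob
  obtain ⟨G, mG, hG⟩ := hu.field h hk hε hb
  let Φ : Om d → ℝ≥0 × Site d → ℝ := fun ω p => G p.1 (theta p.2 ω)
  have mΦ : Measurable Φ := measurable_pi_lambda _ fun p => (mG _).comp (measurable_theta _)
  have mS : ∀ (s : ℝ≥0) (y : Site d),
      Measurable fun (f : ℝ≥0 × Site d → ℝ) (p : ℝ≥0 × Site d) => f (p.1 + s, p.2 + y) :=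
    fun s y => measurable_pi_lambda _ fun p => measurable_pi_apply _
  have eθ : ∀ (y x : Site d) (ω : Om d), theta x (theta y ω) = theta (x + y) ω := by
    intro y x ω; funext z; simp only [theta, add_assoc]
  have pν := Measure.isProbabilityMeasure_map (μ := Noise.QQ P w) mΦ.aemeasurable
  refine ⟨(Noise.QQ P w).map Φ, pν, fun s y => ⟨mS s y, ?_⟩, fun A hA hinv => ?_, fun I => ?_⟩
  · have m3 : Measurable fun ω (p : ℝ≥0 × Site d) => G (p.1 + s) (theta p.2 ω) :=
      measurable_pi_lambda _ fun p => (mG _).comp (measurable_theta _)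
    have h1 : (Noise.QQ P w).map (fun ω (p : ℝ≥0 × Site d) => G (p.1 + s) (theta p.2 ω)) =
        (Noise.QQ P w).map Φ := by
      refine (map_eq_iff_forall_finset_map_restrict_eq
        (X := fun (p : ℝ≥0 × Site d) ω => G (p.1 + s) (theta p.2 ω))
        (Y := fun (p : ℝ≥0 × Site d) ω => G p.1 (theta p.2 ω))
        m3.aemeasurable mΦ.aemeasurable).2 fun I => ?_
      have c1 := hG I fun p => (p.1.1 + s, p.1.2)
      have c2 := hG I fun p => p.1
      refine tendstoInDistribution_unique _ c1 ⟨c1.1, c2.2, ?_⟩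
      have c3 := c2.3.comp (tendsto_atTop_mono (fun t => (le_self_add : t ≤ t + s)) tendsto_id)
      refine c3.congr fun t => ?_
      simp only [Function.comp, id, add_assoc, add_comm s]
    rw [Measure.map_map (mS s y) mΦ, ← h1, ← (h.theta_QQ y).map_eq,
      Measure.map_map m3 (measurable_theta y), (h.theta_QQ y).map_eq]
    congr 1
    funext ω p
    simp only [Function.comp, Φ, eθ]
  · rw [Measure.map_apply mΦ hA]
    have := h.wiener_prob
    refine ergodic_theta hd _ (mΦ hA) fun y => ?_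
    have c1 := (⟨mΦ, rfl⟩ : MeasurePreserving Φ (Noise.QQ P w) _).quasiMeasurePreserving
      |>.preimage_ae_eq (hinv y)
    have c2 : theta y ⁻¹' (Φ ⁻¹' A) =
        Φ ⁻¹' ((fun f (p : ℝ≥0 × Site d) => f (p.1, p.2 + y)) ⁻¹' A) := by
      ext ω
      simp only [Set.mem_preimage, Φ, eθ]
    rw [c2]
    exact c1
  · have c2 := hG I fun p => p.1
    have m3 : Measurable fun (f : ℝ≥0 × Site d → ℝ) (p : I) => f p :=
      measurable_pi_lambda _ fun p => measurable_pi_apply _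
    refine ⟨c2.1, m3.aemeasurable, ?_⟩
    have c3 := c2.3
    simp only [Measure.map_map m3 mΦ]
    exact c3

end Pool.Agent.Lib.MP_0db9b2_pr
end

-- part Pool.Agent.Lib.MP_0db9b2_pr.ExIto
section

/-
The constructed field solves the stochastic equation; uniqueness; the full theorem.
-/

set_option autoImplicit false

namespace Pool.Agent.Lib.MP_0db9b2_pr

open MeasureTheory ProbabilityTheory Real Filter
open scoped NNReal ENNReal Topology

variable {d : ℕ} {Ω : Type*} {mΩ : MeasurableSpace Ω}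
variable {P : Measure Ω} {F : Filtration ℝ≥0 mΩ} {w : Site d → ℝ≥0 → Ω → ℝ} {k a ε : ℝ} {b : ℕ}

noncomputable def gfun (v : ℝ≥0) (y : ℝ) : ℝ := exp (y - v / 2) - 1 - y

theorem gauss_g (v : ℝ≥0) (hv : v ≤ 1) :
    Integrable (fun y => gfun v y ^ 2) (gaussianReal 0 v) ∧
      ∫ y, gfun v y ∂(gaussianReal 0 v) = 0 ∧
      ∫ y, gfun v y ^ 2 ∂(gaussianReal 0 v) ≤ (v : ℝ) ^ 2 := by
  have e1 : ∀ y : ℝ, exp (y - v / 2) = exp (-(v / 2)) * exp (1 * y) := fun y => by
    rw [← exp_add]; congr 1; ring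
  have e2 : ∀ y : ℝ, exp (y - v / 2) ^ 2 = exp (-v) * exp (2 * y) := fun y => by
    rw [← exp_add, ← exp_nat_mul]; congr 1; push_cast; ring
  have e3 : exp (-((v : ℝ) / 2)) * exp (v * 1 ^ 2 / 2) = 1 := by
    rw [← exp_add]; simp
  have e4 : exp (-(v : ℝ)) * exp (v * 2 ^ 2 / 2) = exp v := by
    rw [← exp_add]; congr 1; ring
  have h1 : HI (gaussianReal 0 v) (gfun v) 0 :=
    ((((HI_exp v 1).const_mul (exp (-(v / 2)))).sub (HI.const 1)).sub (HI_id_exp v 0)).congr
      (fun y => by rw [gfun, e1]; simp) (by rw [e3]; simp)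
  have h2 : HI (gaussianReal 0 v) (fun y => gfun v y ^ 2) (exp v - 1 - v) :=
    (((((((HI_exp v 2).const_mul (exp (-v))).add (HI.const 1)).add (HI_sq_exp v 0)).sub
      ((HI_exp v 1).const_mul (2 * exp (-(v / 2))))).sub
      ((HI_id_exp v 1).const_mul (2 * exp (-(v / 2))))).add
      ((HI_id_exp v 0).const_mul 2)).congr
      (fun y => by
        have := e2 y
        rw [gfun]
        simp only [zero_mul, exp_zero, mul_one]
        rw [← this, mul_assoc, ← e1, mul_assoc, mul_left_comm (exp _) y, ← e1]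
        ring)
      (by
        rw [e4, mul_assoc, e3, mul_assoc, mul_left_comm (exp _), e3]
        simp; ring)
  refine ⟨h2.1, h1.2, h2.2.le.trans ((le_abs_self _).trans (abs_exp_sub_one_sub_id_le ?_))⟩
  rw [abs_of_nonneg v.coe_nonneg]; exact_mod_cast hv

namespace Noise

theorem mart_mesh (h : Noise P F w) (x : Site d) (t : ℝ≥0) (n : ℕ) {H : ℕ → Ω → ℝ} {R : ℝ}
    (hH : ∀ i, Measurable[F (tg t n i)] (H i)) {g : ℝ → ℝ}
    (hg : Measurable g) (hg2 : Integrable (fun y => g y ^ 2) (gaussianReal 0 (t / n)))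
    (hg0 : ∫ y, g y ∂(gaussianReal 0 (t / n)) = 0) {v : ℝ}
    (hv : ∫ y, g y ^ 2 ∂(gaussianReal 0 (t / n)) ≤ v) (c : ℕ)
    (hR : ∀ i < c, Integrable (fun ω => H i ω ^ 2) P ∧ ∫ ω, H i ω ^ 2 ∂P ≤ R) :
    Integrable (fun ω => (∑ i ∈ Finset.range c,
      H i ω * g (w x (tg t n (i + 1)) ω - w x (tg t n i) ω)) ^ 2) P ∧
      ∫ ω, (∑ i ∈ Finset.range c, H i ω * g (w x (tg t n (i + 1)) ω - w x (tg t n i) ω)) ^ 2 ∂P
        ≤ c * R * v := by
  have := h.prob
  have hg1 : Integrable g (gaussianReal 0 (t / n)) := integrable_of_sq hg hg2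
  induction c with
  | zero => simp
  | succ c ih =>
    have ih := ih fun i hi => hR i (by omega)
    have mS : Measurable[F (tg t n c)] fun ω =>
        ∑ i ∈ Finset.range c, H i ω * g (w x (tg t n (i + 1)) ω - w x (tg t n i) ω) :=
      Finset.measurable_sum _ fun i hi => by
        have hi' := Finset.mem_range.1 hi
        exact ((hH i).mono (F.mono (tg_mono t n hi'.le)) le_rfl).mul
          (hg.comp (((h.ad x).measurable_le (tg_mono t n hi')).sub
            ((h.ad x).measurable_le (tg_mono t n hi'.le))))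
    have mH := (hH c).mono (F.le _) le_rfl
    obtain ⟨iHH, b1⟩ := hR c (by omega)
    have iSH : Integrable (fun ω => (∑ i ∈ Finset.range c,
        H i ω * g (w x (tg t n (i + 1)) ω - w x (tg t n i) ω)) * H c ω) P :=
      (ih.1.add iHH).mono' ((mS.mono (F.le _) le_rfl).mul mH).aestronglyMeasurable
        (ae_of_all _ fun ω => by
          rw [Real.norm_eq_abs, abs_le, Pi.add_apply]
          generalize (∑ i ∈ Finset.range c,
            H i ω * g (w x (tg t n (i + 1)) ω - w x (tg t n i) ω)) = S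
          constructor <;> nlinarith [sq_nonneg (S + H c ω), sq_nonneg (S - H c ω)])
    have a1 := h.HI_incr_mul x (tg t n c) (t / n) hg hg1 (mS.mul (hH c)) iSH
    have a2 := h.HI_incr_mul x (tg t n c) (t / n) (g := fun y => g y ^ 2) (hg.pow_const 2) hg2
      ((hH c).pow_const 2) iHH
    have a0 : HI P _ _ := ⟨ih.1, rfl⟩
    have a3 := ((a0.add (a1.const_mul 2)).add a2).congr
      (g := fun ω => (∑ i ∈ Finset.range (c + 1),
        H i ω * g (w x (tg t n (i + 1)) ω - w x (tg t n i) ω)) ^ 2)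
      (fun ω => by rw [Finset.sum_range_succ, tg_succ t n c]; simp only [Pi.mul_apply]; ring) rfl
    refine ⟨a3.1, ?_⟩
    rw [a3.2, hg0]
    have b2 : 0 ≤ ∫ y, g y ^ 2 ∂(gaussianReal 0 (t / n)) := integral_nonneg fun _ => sq_nonneg _
    have b3 : 0 ≤ ∫ ω, H c ω ^ 2 ∂P := integral_nonneg fun _ => sq_nonneg _
    have b4 := mul_le_mul hv b1 b3 (b2.trans hv)
    have b5 := ih.2
    push_cast
    linarith

theorem ito_of_product (h : Noise P F w) (x : Site d) {U G : ℝ≥0 → Ω → ℝ} (hU : Adapted F U)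
    (hGc : ∀ᵐ ω ∂P, Continuous fun t => G t ω) (t : ℝ≥0) {R : ℝ}
    (hR : ∀ r ≤ t, Integrable (fun ω => U r ω ^ 2) P ∧ ∫ ω, U r ω ^ 2 ∂P ≤ R)
    (hp : ∀ᵐ ω ∂P, ∀ r, Zf (fun s => w x s ω) r * U r ω =
      1 + In (fun s => Zf (fun s => w x s ω) s * G s ω) r) :
    TendstoInMeasure P (fun n ω => itoSum (fun s => U s ω) (fun s => w x s ω) t n)
      atTop fun ω => Iof (fun s => U s ω) (fun s => G s ω) t := by
  have := h.prob
  have eS : ∀ n ω, itoSum (fun s => U s ω) (fun s => w x s ω) t n = ∑ i ∈ Finset.range n,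
      U (tg t n i) ω * (w x (tg t n (i + 1)) ω - w x (tg t n i) ω) := fun n ω => by
    simp only [itoSum, tg, Nat.cast_add, Nat.cast_one]
  let S : ℕ → Ω → ℝ := fun n ω => ∑ i ∈ Finset.range n,
    U (tg t n i) ω * gfun (t / n) (w x (tg t n (i + 1)) ω - w x (tg t n i) ω)
  have mg : ∀ v, Measurable (gfun v) := fun v => by unfold gfun; fun_prop
  have h1 : TP P S := by
    intro η hη
    have c1 : Tendsto (fun n : ℕ => t * R / η ^ 2 * ((t / n : ℝ≥0) : ℝ)) atTop (𝓝 0) := by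
      simpa using (tendsto_tg_mesh t).const_mul (t * R / η ^ 2)
    filter_upwards [c1.eventually_le_const hη, (tendsto_tg_mesh t).eventually_le_const one_pos,
      eventually_gt_atTop 0] with n c2 c3 hn
    obtain ⟨g1, g2, g3⟩ := gauss_g (t / n) (by exact_mod_cast c3)
    have c4 := h.mart_mesh x t n (H := fun i => U (tg t n i)) (fun i => hU _) (mg _) g1 g2 g3 n
      fun i hi => hR _ (tg_le t hi.le)
    refine ((cheb_sq c4.1 hη).trans (div_le_div_of_nonneg_right c4.2 (by positivity))).trans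
      (le_trans (le_of_eq ?_) c2)
    have hn' : (n : ℝ) ≠ 0 := by exact_mod_cast hn.ne'
    push_cast; field_simp
  have h2 : TendstoInMeasure P
      (fun n ω => itoSum (fun s => U s ω) (fun s => w x s ω) t n + S n ω) atTop
      fun ω => Iof (fun s => U s ω) (fun s => G s ω) t := by
    refine tendstoInMeasure_of_tendsto_ae (fun n => Measurable.aestronglyMeasurable ?_) ?_
    · simp_rw [eS]
      exact (Finset.measurable_sum _ fun i _ =>
        hU.measurable.mul ((h.meas _ _).sub (h.meas _ _))).add (Finset.measurable_sum _ fun i _ =>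
        hU.measurable.mul ((mg _).comp ((h.meas _ _).sub (h.meas _ _))))
    filter_upwards [hGc, hp, (h.br x).cont, (h.br x).eval_zero_ae_eq_zero] with ω c1 c2 c3 c4
    have hZ := continuous_Zf c3
    have c5 := cells_small t (φ := fun _ s' r => G r ω -
        Zf (fun s => w x s ω) r / Zf (fun s => w x s ω) s' * G r ω) fun η hη => by
      obtain ⟨K1, p1, b1⟩ := exists_bound c1 t
      obtain ⟨K2, p2, b2⟩ := exists_bound (hZ.inv₀ fun t => (Zf_pos _ t).ne') t
      obtain ⟨δ, hδ, hu⟩ := unif_cont hZ t (η := η / (K1 * K2)) (by positivity)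
      refine ⟨δ, hδ, fun s s' r _ r2 r3 _ r5 => ?_⟩
      have z := Zf_pos (fun s => w x s ω) s'
      have e : G r ω - Zf (fun s => w x s ω) r / Zf (fun s => w x s ω) s' * G r ω =
          (Zf (fun s => w x s ω) s' - Zf (fun s => w x s ω) r) *
            ((Zf (fun s => w x s ω) s')⁻¹ * G r ω) := by field_simp
      rw [e, abs_mul, abs_mul]
      refine (mul_le_mul (hu _ _ r2 r3 r5) (mul_le_mul (b2 _ r2) (b1 _ r3) (abs_nonneg _) p2.le)
        (by positivity) (by positivity)).trans (le_of_eq ?_)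
      field_simp
    have c6 := c5.add_const (Iof (fun s => U s ω) (fun s => G s ω) t)
    rw [zero_add] at c6
    refine c6.congr' ?_
    filter_upwards [eventually_gt_atTop 0] with n hn
    have u0 : U 0 ω = 1 := by simpa [Zf, c4, In] using c2 0
    have c7 := Finset.sum_range_sub (fun i => U (tg t n i) ω) n
    rw [tg_self t hn, tg_zero, u0] at c7
    have c8 := sum_cells c1 t hn
    unfold Iof
    unfold In at c8
    rw [eS, ← c7, ← c8, ← Finset.sum_sub_distrib, ← Finset.sum_add_distrib,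
      ← Finset.sum_add_distrib]
    refine Finset.sum_congr rfl fun i _ => ?_
    have c9 := cell_eq (U := fun s => U s ω) (G := fun s => G s ω) c3 c1 (c2 (tg t n i))
      (c2 (tg t n (i + 1)))
    have c10 : Zf (fun s => w x s ω) (tg t n i) / Zf (fun s => w x s ω) (tg t n (i + 1)) =
        exp (w x (tg t n (i + 1)) ω - w x (tg t n i) ω - ((t / n : ℝ≥0) : ℝ) / 2) := by
      unfold Zf
      rw [← exp_sub]; congr 1; rw [tg_succ t n i, NNReal.coe_add]; ring
    rw [intervalIntegral.integral_sub (intInt c1 _ _) (intInt (G := fun r =>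
      Zf (fun s => w x s ω) r / Zf (fun s => w x s ω) (tg t n (i + 1)) * G r ω)
      ((hZ.div_const _).mul c1) _ _), ← c9, c10]
    unfold gfun
    ring
  refine TP_iff.2 ?_
  have h3 := (TP_iff.1 h2).sub h1
  simpa only [add_sub_right_comm, sub_add_cancel] using h3

theorem exists_sol (h : Noise P F w) (hk : 0 ≤ k) (hε : 0 ≤ ε) :
    Sol P F w k a ε b fun t x ω => uu k a ε b (pathOf w ω) t x := by
  have hg := h.good_ae (a := a) hk
  refine ⟨h.uu_ad, fun x => hg.mono fun ω g => (g.uu_fix hε x).1,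
    fun t x => hg.mono fun ω g => g.uu_nonneg hε t x, h.uu_mom hk hε, fun t x => ?_⟩
  obtain ⟨R, hR⟩ := h.uu_mom (a := a) (b := b) hk hε 2 t
  refine h.ito_of_product x (U := fun t ω => uu k a ε b (pathOf w ω) t x)
    (G := fun s ω => Lf k a (fun t x ω => uu k a ε b (pathOf w ω) t x) x s ω -
      ε * uu k a ε b (pathOf w ω) s x ^ (b + 1)) (h.uu_ad x) ?_ t (R := R)
    (fun r hr => by simpa [MB] using hR r hr x) (hg.mono fun ω g r => g.uu_eq hε x r)
  filter_upwards [hg] with ω g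
  have := fun y => (g.uu_fix (b := b) hε y).1
  unfold Lf lap
  fun_prop

end Noise

theorem Sol.unique {u u' : ℝ≥0 → Site d → Ω → ℝ} (h : Noise P F w) (hu : Sol P F w k a ε b u)
    (hu' : Sol P F w k a ε b u') (hk : 0 ≤ k) (hε : 0 < ε) (hb : b ≠ 0) :
    ∀ᵐ ω ∂P, ∀ t x, u' t x ω = u t x ω := by
  have h1 : ∀ t x, ∀ᵐ ω ∂P, u' t x ω = u t x ω := by
    intro t x
    have i1 := hu.int_u h t x
    have i2 := hu'.int_u h t x
    have h2 : ∫ ω, |u' t x ω - u t x ω| ∂P ≤ 0 := by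
      refine le_of_forall_pos_le_add fun η hη => ?_
      obtain ⟨n, e1, e2, -, hq⟩ := ((hu.convT h hk hε hb t 0 x (half_pos hη)).and
        ((hu'.convT h hk hε hb t 0 x (half_pos hη)).and
          (par_good (d := d) (a := a) hk hε hb))).exists
      rw [add_zero] at e1 e2
      refine (int_tri i2 (h.flow_int hq n (fl t n + fl 0 n) zero_le_one x) i1).trans ?_
      simp_rw [abs_sub_comm (u' t x _)]
      unfold Vn at e1 e2
      linarith
    have h3 := (integral_eq_zero_iff_of_nonneg (fun ω => abs_nonneg _) (i2.sub i1).abs).1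
      (le_antisymm h2 (integral_nonneg fun ω => abs_nonneg _))
    filter_upwards [h3] with ω hω
    exact sub_eq_zero.1 (abs_eq_zero.1 hω)
  obtain ⟨D, hD1, hD2⟩ := TopologicalSpace.exists_countable_dense ℝ≥0
  filter_upwards [(ae_ball_iff hD1).2 fun t _ => ae_all_iff.2 (h1 t), ae_all_iff.2 hu.cont,
    ae_all_iff.2 hu'.cont] with ω c1 c2 c3 t x
  exact congrFun (Continuous.ext_on hD2 (c3 x) (c2 x) fun s hs => c1 s hs x) t

end Pool.Agent.Lib.MP_0db9b2_pr
end
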