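import Mathlib

-- part Pool.Agent.Lib.MP_0db9b2_pr.Alg
section

/-
Elementary inequalities: the logistic flow map and power means with a negative exponent.
-/

set_option autoImplicit false

namespace Pool.Agent.Lib.MP_0db9b2_pr

/-- time-one map of the logistic flow: (v^(-b) + c)^(-1/b) -/
noncomputable def rho (c : ℝ) (b : ℕ) (v : ℝ) : ℝ := v / (1 + c * v ^ b) ^ ((b : ℝ)⁻¹)

/-- the value of the logistic map at infinity -/
noncomputable def rtop (c : ℝ) (b : ℕ) : ℝ := (c ^ ((b : ℝ)⁻¹))⁻¹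

/-- q lies below the weighted power mean of exponent -b of p and r -/
def PM (b : ℕ) (m1 m2 p q r : ℝ) : Prop := m1 / p ^ b + m2 / r ^ b ≤ 1 / q ^ b

section

variable {c : ℝ} {b : ℕ}

theorem measurable_rho (c : ℝ) (b : ℕ) : Measurable (rho c b) := by
  unfold rho; fun_prop

theorem one_le_root (hc : 0 ≤ c) {v : ℝ} (hv : 0 ≤ v) : 1 ≤ (1 + c * v ^ b) ^ ((b : ℝ)⁻¹) :=
  Real.one_le_rpow (by have := mul_nonneg hc (pow_nonneg hv b); linarith) (by positivity)

theorem rho_nonneg (hc : 0 ≤ c) {v : ℝ} (hv : 0 ≤ v) : 0 ≤ rho c b v :=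
  div_nonneg hv (le_trans zero_le_one (one_le_root hc hv))

theorem rho_pos (hc : 0 ≤ c) {v : ℝ} (hv : 0 < v) : 0 < rho c b v :=
  div_pos hv (lt_of_lt_of_le zero_lt_one (one_le_root hc hv.le))

theorem rho_le_self (hc : 0 ≤ c) {v : ℝ} (hv : 0 ≤ v) : rho c b v ≤ v :=
  div_le_self hv (one_le_root hc hv)

theorem rho_zero : rho c b 0 = 0 := by simp [rho]

theorem rho_pow (hc : 0 ≤ c) (hb : b ≠ 0) {v : ℝ} (hv : 0 ≤ v) :
    rho c b v ^ b = v ^ b / (1 + c * v ^ b) := by
  unfold rho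
  rw [div_pow, Real.rpow_inv_natCast_pow (by positivity) hb]

theorem rho_inv_pow (hc : 0 ≤ c) (hb : b ≠ 0) {v : ℝ} (hv : 0 < v) :
    1 / rho c b v ^ b = 1 / v ^ b + c := by
  rw [rho_pow hc hb hv.le]
  have : 0 < v ^ b := pow_pos hv b
  field_simp

theorem rtop_pos (hc : 0 < c) : 0 < rtop c b := by unfold rtop; positivity

theorem rtop_inv_pow (hc : 0 < c) (hb : b ≠ 0) : 1 / rtop c b ^ b = c := by
  unfold rtop
  rw [inv_pow, Real.rpow_inv_natCast_pow hc.le hb]
  simp

theorem le_of_inv_pow_le (hb : b ≠ 0) {p q : ℝ} (hp : 0 < p) (hq : 0 < q)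
    (h : 1 / p ^ b ≤ 1 / q ^ b) : q ≤ p := by
  have h1 : q ^ b ≤ p ^ b := by
    rwa [one_div_le_one_div (pow_pos hp b) (pow_pos hq b)] at h
  exact (pow_le_pow_iff_left₀ hq.le hp.le hb).1 h1

theorem inv_pow_le_of_le {p q : ℝ} (hq : 0 < q) (h : q ≤ p) : 1 / p ^ b ≤ 1 / q ^ b :=
  one_div_le_one_div_of_le (pow_pos hq b) (pow_le_pow_left₀ hq.le h b)

theorem rho_le_rtop (hc : 0 < c) (hb : b ≠ 0) {v : ℝ} (hv : 0 ≤ v) : rho c b v ≤ rtop c b := by
  rcases hv.eq_or_lt with h | h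
  · rw [← h, rho_zero]; exact (rtop_pos hc).le
  · refine le_of_inv_pow_le hb (rtop_pos hc) (rho_pos hc.le h) ?_
    rw [rtop_inv_pow hc hb, rho_inv_pow hc.le hb h]
    have : 0 < 1 / v ^ b := by positivity
    linarith

theorem rho_mono (hc : 0 ≤ c) (hb : b ≠ 0) {v v' : ℝ} (hv : 0 ≤ v) (h : v ≤ v') :
    rho c b v ≤ rho c b v' := by
  rcases hv.eq_or_lt with h0 | h0
  · rw [← h0, rho_zero]; exact rho_nonneg hc (hv.trans h)
  · have h1 : 0 < v' := h0.trans_le h
    refine le_of_inv_pow_le hb (rho_pos hc h1) (rho_pos hc h0) ?_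
    rw [rho_inv_pow hc hb h1, rho_inv_pow hc hb h0]
    have := inv_pow_le_of_le (b := b) h0 h
    linarith

/-- tangent planes of the power mean -/
theorem PM_tangent (hb : b ≠ 0) {m1 m2 p0 r0 M p q r : ℝ} (h1 : 0 ≤ m1) (h2 : 0 ≤ m2)
    (hp0 : 0 < p0) (hr0 : 0 < r0) (hM : 0 < M) (hMe : 1 / M ^ b = m1 / p0 ^ b + m2 / r0 ^ b)
    (hp : 0 < p) (hq : 0 < q) (hr : 0 < r) (h : PM b m1 m2 p q r) :
    q ≤ m1 * (M / p0) ^ (b + 1) * p + m2 * (M / r0) ^ (b + 1) * r := by
  set l1 := m1 * (M / p0) ^ b with hl1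
  set l2 := m2 * (M / r0) ^ b with hl2
  have hMb : 0 < M ^ b := pow_pos hM b
  have hl : l1 + l2 = 1 := by
    have : l1 + l2 = M ^ b * (m1 / p0 ^ b + m2 / r0 ^ b) := by
      rw [hl1, hl2, div_pow, div_pow]; ring
    rw [this, ← hMe]; field_simp
  have hl1n : 0 ≤ l1 := by positivity
  have hl2n : 0 ≤ l2 := by positivity
  set s1 := p * (M / p0) with hs1
  set s2 := r * (M / r0) with hs2
  have hs1p : 0 < s1 := by positivity
  have hs2p : 0 < s2 := by positivity
  have hconv := (convexOn_zpow (𝕜 := ℝ) (-(b : ℤ))).2 (Set.mem_Ioi.2 hs1p) (Set.mem_Ioi.2 hs2p)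
    hl1n hl2n hl
  simp only [smul_eq_mul, zpow_neg, zpow_natCast] at hconv
  have hs : 0 < l1 * s1 + l2 * s2 := by
    rcases hl1n.eq_or_lt with h0 | h0
    · have : l2 = 1 := by linarith
      rw [← h0, this]; linarith
    · positivity
  have e1 : l1 * (s1 ^ b)⁻¹ = m1 / p ^ b := by
    rw [hl1, hs1, mul_pow]
    have : 0 < (M / p0) ^ b := by positivity
    have : 0 < p ^ b := by positivity
    field_simp
  have e2 : l2 * (s2 ^ b)⁻¹ = m2 / r ^ b := by
    rw [hl2, hs2, mul_pow]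
    have : 0 < (M / r0) ^ b := by positivity
    have : 0 < r ^ b := by positivity
    field_simp
  have e3 : m1 * (M / p0) ^ (b + 1) * p + m2 * (M / r0) ^ (b + 1) * r = l1 * s1 + l2 * s2 := by
    rw [hl1, hl2, hs1, hs2]; ring
  rw [e3]
  refine le_of_inv_pow_le hb hs hq ?_
  rw [e1, e2] at hconv
  unfold PM at h
  rw [one_div]
  linarith

theorem PM_tangent_eq {m1 m2 p0 r0 M : ℝ}
    (hp0 : 0 < p0) (hr0 : 0 < r0) (hM : 0 < M) (hMe : 1 / M ^ b = m1 / p0 ^ b + m2 / r0 ^ b) :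
    m1 * (M / p0) ^ (b + 1) * p0 + m2 * (M / r0) ^ (b + 1) * r0 = M := by
  have hMb : 0 < M ^ b := pow_pos hM b
  have : m1 * (M / p0) ^ (b + 1) * p0 + m2 * (M / r0) ^ (b + 1) * r0 =
      M * (M ^ b * (m1 / p0 ^ b + m2 / r0 ^ b)) := by
    have : 0 < p0 ^ b := by positivity
    have : 0 < r0 ^ b := by positivity
    rw [div_pow, div_pow, pow_succ p0, pow_succ r0, pow_succ M]
    field_simp
  rw [this, ← hMe]; field_simp

theorem exists_mean (hb : b ≠ 0) {S : ℝ} (hS : 0 < S) : ∃ M : ℝ, 0 < M ∧ 1 / M ^ b = S :=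
  ⟨rtop S b, rtop_pos hS, rtop_inv_pow hS hb⟩

/-- tangent lines of the concave map rho -/
theorem rho_tangent (hc : 0 ≤ c) (hb : b ≠ 0) {v0 : ℝ} (hv0 : 0 < v0) :
    ∃ A B : ℝ, 0 ≤ A ∧ A ≤ 1 ∧ 0 ≤ B ∧ A * v0 + B = rho c b v0 ∧
      ∀ v, 0 ≤ v → rho c b v ≤ A * v + B := by
  have hM := rho_pos (b := b) hc hv0
  have hMe : 1 / rho c b v0 ^ b = 1 / v0 ^ b + c / (1 : ℝ) ^ b := by
    rw [rho_inv_pow hc hb hv0]; simp
  refine ⟨(rho c b v0 / v0) ^ (b + 1), c * (rho c b v0 / 1) ^ (b + 1), by positivity,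
    pow_le_one₀ (by positivity) ((div_le_one hv0).2 (rho_le_self hc hv0.le)), by positivity,
    ?_, fun v hv => ?_⟩
  · have := PM_tangent_eq hv0 one_pos hM hMe
    simpa using this
  · rcases hv.eq_or_lt with h | h
    · rw [← h, rho_zero]; positivity
    · have := PM_tangent hb zero_le_one hc hv0 one_pos hM hMe h (rho_pos hc h) one_pos
        (by unfold PM; rw [rho_inv_pow hc hb h]; simp)
      simpa using this

theorem rho_sub_le (hc : 0 ≤ c) (hb : b ≠ 0) {v v' : ℝ} (hv : 0 ≤ v) (h : v ≤ v') :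
    rho c b v' - rho c b v ≤ v' - v := by
  rcases hv.eq_or_lt with h0 | h0
  · rw [← h0, rho_zero]; simpa using rho_le_self hc (hv.trans h)
  · obtain ⟨A, B, hA, hA1, hB, he, hle⟩ := rho_tangent hc hb h0
    have := hle v' (hv.trans h)
    nlinarith

theorem rho_lipschitz (hc : 0 ≤ c) (hb : b ≠ 0) {v v' : ℝ} (hv : 0 ≤ v) (hv' : 0 ≤ v') :
    |rho c b v - rho c b v'| ≤ |v - v'| := by
  rcases le_total v v' with h | h
  · have h1 := rho_sub_le hc hb hv h
    have h2 := rho_mono hc hb hv h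
    rw [abs_sub_comm, abs_of_nonneg (by linarith), abs_sub_comm, abs_of_nonneg (by linarith)]
    exact h1
  · have h1 := rho_sub_le hc hb hv' h
    have h2 := rho_mono hc hb hv' h
    rw [abs_of_nonneg (by linarith), abs_of_nonneg (by linarith)]
    exact h1

theorem rho_taylor (hc : 0 ≤ c) (hb : b ≠ 0) {v : ℝ} (hv : 0 ≤ v) :
    |rho c b v - v + c / b * v ^ (b + 1)| ≤ c ^ 2 * v ^ (2 * b + 1) := by
  set y := c * v ^ b with hy
  have hy0 : 0 ≤ y := by positivity
  have hb1 : (1 : ℝ) ≤ b := by exact_mod_cast Nat.one_le_iff_ne_zero.2 hb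
  have hb0 : (0 : ℝ) < b := by linarith
  set s := (1 + y) ^ ((b : ℝ)⁻¹) with hs
  have hs1 : 1 ≤ s := one_le_root hc hv
  have hsu : s ≤ 1 + (b : ℝ)⁻¹ * y :=
    rpow_one_add_le_one_add_mul_self (by linarith) (by positivity)
      (inv_le_one_of_one_le₀ hb1)
  have hsb : s ^ b = 1 + y := Real.rpow_inv_natCast_pow (by linarith) hb
  have hz1 : 1 - y / b ≤ 1 / s := by
    rw [le_div_iff₀ (by linarith)]
    have h1 : y / b = (b : ℝ)⁻¹ * y := by field_simp
    rw [h1]
    have h2 : 0 ≤ (b : ℝ)⁻¹ * y := by positivity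
    by_cases h3 : 0 ≤ 1 - (b : ℝ)⁻¹ * y
    · nlinarith [mul_le_mul_of_nonneg_left hsu h3]
    · nlinarith
  have hz2 : 1 / s ≤ 1 - y / b + y ^ 2 := by
    have h0 : 0 < 1 / s := by positivity
    have h1 := one_add_mul_le_pow (a := 1 / s - 1) (by linarith) b
    have h2 : (1 + (1 / s - 1)) ^ b = 1 / (1 + y) := by
      rw [add_sub_cancel, div_pow, one_pow, hsb]
    rw [h2] at h1
    have h3 : 1 / (1 + y) ≤ 1 - y + y ^ 2 := by
      rw [div_le_iff₀ (by linarith)]
      nlinarith [pow_nonneg hy0 3]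
    have h4 : (b : ℝ) * (1 / s - 1) ≤ -y + y ^ 2 := by linarith
    have h5 : 1 / s - 1 ≤ (-y + y ^ 2) / b := by
      rw [le_div_iff₀ hb0]; linarith
    have h6 : y ^ 2 / b ≤ y ^ 2 := div_le_self (by positivity) hb1
    have h7 : (-y + y ^ 2) / b = -(y / b) + y ^ 2 / b := by ring
    linarith
  have e1 : rho c b v - v + c / b * v ^ (b + 1) = v * (1 / s - 1 + y / b) := by
    unfold rho; rw [← hy, ← hs, hy]; field_simp; ring
  have e2 : c ^ 2 * v ^ (2 * b + 1) = v * y ^ 2 := by rw [hy]; ring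
  rw [e1, e2, abs_of_nonneg (mul_nonneg hv (by linarith))]
  exact mul_le_mul_of_nonneg_left (by linarith) hv

/-- the power mean relation survives the logistic step and a common positive factor -/
theorem PM_rho (hc : 0 ≤ c) (hb : b ≠ 0) {m p q r e : ℝ} (hp : 0 < p) (hq : 0 < q) (hr : 0 < r)
    (he : 0 < e) (h : PM b m (1 - m) p q r) :
    PM b m (1 - m) (e * rho c b p) (e * rho c b q) (e * rho c b r) := by
  unfold PM at *
  have h1 := rho_inv_pow hc hb hp
  have h2 := rho_inv_pow hc hb hq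
  have h3 := rho_inv_pow hc hb hr
  have e1 : m / (e * rho c b p) ^ b = 1 / e ^ b * (m * (1 / rho c b p ^ b)) := by
    rw [mul_pow]; field_simp
  have e2 : (1 - m) / (e * rho c b r) ^ b = 1 / e ^ b * ((1 - m) * (1 / rho c b r ^ b)) := by
    rw [mul_pow]; field_simp
  have e3 : 1 / (e * rho c b q) ^ b = 1 / e ^ b * (1 / rho c b q ^ b) := by
    rw [mul_pow]; field_simp
  rw [e1, e2, e3, ← mul_add, h1, h2, h3]
  refine mul_le_mul_of_nonneg_left ?_ (by positivity)
  have e4 : m * (1 / p ^ b + c) + (1 - m) * (1 / r ^ b + c) = m / p ^ b + (1 - m) / r ^ b + c := by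
    ring
  rw [e4]; linarith

theorem PM_gap (hb : b ≠ 0) {m p q r : ℝ} (hm : 0 < m) (hm1 : m ≤ 1) (hp : 0 < p) (hq : 0 < q)
    (hpr : p ≤ r) (hqr : q ≤ r) (h : PM b m (1 - m) p q r) :
    r - p ≤ b * 2 ^ b / m * (r - q) := by
  have hr : 0 < r := hp.trans_le hpr
  have hb1 : (1 : ℝ) ≤ b := by exact_mod_cast Nat.one_le_iff_ne_zero.2 hb
  obtain ⟨a, rfl⟩ : ∃ a, b = a + 1 := Nat.exists_eq_succ_of_ne_zero hb
  have h2 : (2 : ℝ) ≤ 2 ^ (a + 1) := by
    rw [pow_succ]; have : (1 : ℝ) ≤ 2 ^ a := one_le_pow₀ (by norm_num); linarith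
  by_cases hq2 : r ≤ 2 * q
  · unfold PM at h
    have hpa : p ^ a ≤ r ^ a := pow_le_pow_left₀ hp.le hpr a
    have hL : (r - p) / r ^ (a + 2) ≤ 1 / p ^ (a + 1) - 1 / r ^ (a + 1) := by
      have h3 : 1 / (p * r ^ a) ≤ 1 / p ^ (a + 1) := by
        apply one_div_le_one_div_of_le (by positivity)
        rw [pow_succ']; exact mul_le_mul_of_nonneg_left hpa hp.le
      have h4 : 1 / (p * r ^ a) - 1 / r ^ (a + 1) = (r - p) / (p * r ^ (a + 1)) := by
        field_simp; ring
      have h5 : (r - p) / r ^ (a + 2) ≤ (r - p) / (p * r ^ (a + 1)) := by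
        apply div_le_div_of_nonneg_left (by linarith) (by positivity)
        rw [pow_succ' r (a + 1)]; exact mul_le_mul_of_nonneg_right hpr (by positivity)
      linarith
    have hU : 1 / q ^ (a + 1) - 1 / r ^ (a + 1) ≤
        ((a + 1 : ℕ) : ℝ) * 2 ^ (a + 1) * (r - q) / r ^ (a + 2) := by
      have h3 := abs_pow_sub_pow_le r q (a + 1)
      rw [abs_of_nonneg (sub_nonneg.2 (pow_le_pow_left₀ hq.le hqr _)),
        abs_of_nonneg (sub_nonneg.2 hqr), abs_of_pos hr, abs_of_pos hq, max_eq_left hqr,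
        Nat.add_sub_cancel] at h3
      have h4 : 1 / q ^ (a + 1) - 1 / r ^ (a + 1) =
          (r ^ (a + 1) - q ^ (a + 1)) / (q ^ (a + 1) * r ^ (a + 1)) := by field_simp
      have h5 : r ^ (a + 1) ≤ 2 ^ (a + 1) * q ^ (a + 1) := by
        rw [← mul_pow]; exact pow_le_pow_left₀ hr.le hq2 _
      rw [h4, div_le_div_iff₀ (by positivity) (by positivity)]
      have h6 : 0 ≤ (r - q) * ((a + 1 : ℕ) : ℝ) := mul_nonneg (by linarith) (by positivity)
      calc (r ^ (a + 1) - q ^ (a + 1)) * r ^ (a + 2)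
          ≤ ((r - q) * ((a + 1 : ℕ) : ℝ) * r ^ a) * r ^ (a + 2) :=
            mul_le_mul_of_nonneg_right h3 (by positivity)
        _ = ((r - q) * ((a + 1 : ℕ) : ℝ)) * r ^ (a + 1) * r ^ (a + 1) := by ring
        _ ≤ ((r - q) * ((a + 1 : ℕ) : ℝ)) * (2 ^ (a + 1) * q ^ (a + 1)) * r ^ (a + 1) :=
            mul_le_mul_of_nonneg_right (mul_le_mul_of_nonneg_left h5 h6) (by positivity)
        _ = _ := by ring
    have h7 : m * (1 / p ^ (a + 1) - 1 / r ^ (a + 1)) ≤ 1 / q ^ (a + 1) - 1 / r ^ (a + 1) := by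
      have : m * (1 / p ^ (a + 1) - 1 / r ^ (a + 1)) =
        m / p ^ (a + 1) + (1 - m) / r ^ (a + 1) - 1 / r ^ (a + 1) := by ring
      linarith
    have h8 : m * ((r - p) / r ^ (a + 2)) ≤
        ((a + 1 : ℕ) : ℝ) * 2 ^ (a + 1) * (r - q) / r ^ (a + 2) :=
      (mul_le_mul_of_nonneg_left hL hm.le).trans (h7.trans hU)
    rw [← mul_div_assoc, div_le_div_iff_of_pos_right (by positivity)] at h8
    rw [div_mul_eq_mul_div, le_div_iff₀ hm]
    linarith
  · have hK : (2 : ℝ) ≤ ((a + 1 : ℕ) : ℝ) * 2 ^ (a + 1) / m := by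
      rw [le_div_iff₀ hm]; nlinarith
    have : 0 ≤ r - q := by linarith
    nlinarith

end

end Pool.Agent.Lib.MP_0db9b2_pr
end

-- part Pool.Agent.Lib.MP_0db9b2_pr.Scheme
section

/-
The splitting scheme on the lattice: a positive linear step, a logistic step, a positive factor.
-/

set_option autoImplicit false

namespace Pool.Agent.Lib.MP_0db9b2_pr

abbrev Site (d : ℕ) : Type := Fin d → ℤ

/-- parameters of the scheme -/
structure Par where
  al : ℝ
  ka : ℝ
  c : ℝ
  b : ℕ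

structure Par.Good (q : Par) : Prop where
  al_pos : 0 < q.al
  ka_nonneg : 0 ≤ q.ka
  c_pos : 0 < q.c
  b_ne : q.b ≠ 0

variable {d : ℕ}

noncomputable def lin (q : Par) (f : Site d → ℝ) (x : Site d) : ℝ :=
  q.al * f x + q.ka * ∑ i : Fin d, (f (x + Pi.single i 1) + f (x - Pi.single i 1))

noncomputable def step (q : Par) (e f : Site d → ℝ) (x : Site d) : ℝ :=
  e x * rho q.c q.b (lin q f x)

noncomputable def flow (q : Par) (E : ℕ → Site d → ℝ) (f : Site d → ℝ) : ℕ → Site d → ℝ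
  | 0 => f
  | j + 1 => step q (E j) (flow q E f j)

/-- the scheme started from infinity; index l is the value after l + 1 steps -/
noncomputable def ubar (q : Par) (E : ℕ → Site d → ℝ) (l : ℕ) : Site d → ℝ :=
  flow q (fun j => E (1 + j)) (fun x => E 0 x * rtop q.c q.b) l

section

variable {q : Par}

theorem lin_nonneg (hq : q.Good) {f : Site d → ℝ} (hf : ∀ x, 0 ≤ f x) (x : Site d) :
    0 ≤ lin q f x :=
  add_nonneg (mul_nonneg hq.al_pos.le (hf x)) (mul_nonneg hq.ka_nonneg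
    (Finset.sum_nonneg fun _ _ => add_nonneg (hf _) (hf _)))

theorem lin_pos (hq : q.Good) {f : Site d → ℝ} (hf : ∀ x, 0 < f x) (x : Site d) :
    0 < lin q f x :=
  add_pos_of_pos_of_nonneg (mul_pos hq.al_pos (hf x)) (mul_nonneg hq.ka_nonneg
    (Finset.sum_nonneg fun _ _ => add_nonneg (hf _).le (hf _).le))

theorem lin_mono (hq : q.Good) {f g : Site d → ℝ} (h : ∀ x, f x ≤ g x) (x : Site d) :
    lin q f x ≤ lin q g x :=
  add_le_add (mul_le_mul_of_nonneg_left (h x) hq.al_pos.le)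
    (mul_le_mul_of_nonneg_left (Finset.sum_le_sum fun _ _ => add_le_add (h _) (h _)) hq.ka_nonneg)

theorem lin_comb (A B : ℝ) (f g : Site d → ℝ) (x : Site d) :
    lin q (fun y => A * f y + B * g y) x = A * lin q f x + B * lin q g x := by
  unfold lin
  have : ∑ i : Fin d, ((A * f (x + Pi.single i 1) + B * g (x + Pi.single i 1)) +
      (A * f (x - Pi.single i 1) + B * g (x - Pi.single i 1))) =
      A * ∑ i : Fin d, (f (x + Pi.single i 1) + f (x - Pi.single i 1)) +
      B * ∑ i : Fin d, (g (x + Pi.single i 1) + g (x - Pi.single i 1)) := by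
    rw [Finset.mul_sum, Finset.mul_sum, ← Finset.sum_add_distrib]
    exact Finset.sum_congr rfl fun i _ => by ring
  rw [this]; ring

theorem lin_const (m : ℝ) (x : Site d) :
    lin q (fun _ => m) x = (q.al + 2 * d * q.ka) * m := by
  unfold lin
  simp only [Finset.sum_const, Finset.card_univ, Fintype.card_fin, nsmul_eq_mul]
  ring

theorem lin_abs_sub (hq : q.Good) (f g : Site d → ℝ) (x : Site d) :
    |lin q f x - lin q g x| ≤ lin q (fun y => |f y - g y|) x := by
  have h1 : lin q f x - lin q g x = lin q (fun y => 1 * f y + (-1) * g y) x := by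
    rw [lin_comb]; ring
  have h2 : lin q g x - lin q f x = lin q (fun y => 1 * g y + (-1) * f y) x := by
    rw [lin_comb]; ring
  rw [abs_sub_le_iff, h1, h2]
  constructor
  · exact lin_mono hq (fun y => by have := le_abs_self (f y - g y); linarith) x
  · exact lin_mono hq (fun y => by have := neg_abs_le (f y - g y); linarith) x

theorem step_pos (hq : q.Good) {e f : Site d → ℝ} (he : ∀ x, 0 < e x) (hf : ∀ x, 0 < f x)
    (x : Site d) : 0 < step q e f x :=
  mul_pos (he x) (rho_pos hq.c_pos.le (lin_pos hq hf x))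

theorem step_nonneg (hq : q.Good) {e f : Site d → ℝ} (he : ∀ x, 0 < e x) (hf : ∀ x, 0 ≤ f x)
    (x : Site d) : 0 ≤ step q e f x :=
  mul_nonneg (he x).le (rho_nonneg hq.c_pos.le (lin_nonneg hq hf x))

theorem step_mono (hq : q.Good) {e f g : Site d → ℝ} (he : ∀ x, 0 < e x) (hf : ∀ x, 0 ≤ f x)
    (h : ∀ x, f x ≤ g x) (x : Site d) : step q e f x ≤ step q e g x :=
  mul_le_mul_of_nonneg_left
    (rho_mono hq.c_pos.le hq.b_ne (lin_nonneg hq hf x) (lin_mono hq h x)) (he x).le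

theorem flow_pos (hq : q.Good) {E : ℕ → Site d → ℝ} (hE : ∀ j x, 0 < E j x) {f : Site d → ℝ}
    (hf : ∀ x, 0 < f x) (j : ℕ) : ∀ x, 0 < flow q E f j x := by
  induction j with
  | zero => exact hf
  | succ j ih => exact step_pos hq (hE j) ih

theorem flow_nonneg (hq : q.Good) {E : ℕ → Site d → ℝ} (hE : ∀ j x, 0 < E j x) {f : Site d → ℝ}
    (hf : ∀ x, 0 ≤ f x) (j : ℕ) : ∀ x, 0 ≤ flow q E f j x := by
  induction j with
  | zero => exact hf
  | succ j ih => exact step_nonneg hq (hE j) ih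

theorem flow_mono (hq : q.Good) {E : ℕ → Site d → ℝ} (hE : ∀ j x, 0 < E j x) {f g : Site d → ℝ}
    (hf : ∀ x, 0 ≤ f x) (h : ∀ x, f x ≤ g x) (j : ℕ) : ∀ x, flow q E f j x ≤ flow q E g j x := by
  induction j with
  | zero => exact h
  | succ j ih => exact step_mono hq (hE j) (flow_nonneg hq hE hf j) ih

theorem flow_add (E : ℕ → Site d → ℝ) (f : Site d → ℝ) (s l : ℕ) :
    flow q E f (s + l) = flow q (fun j => E (s + j)) (flow q E f s) l := by
  induction l with
  | zero => rfl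
  | succ l ih => rw [← add_assoc]; simp only [flow, ih]

theorem ubar_pos (hq : q.Good) {E : ℕ → Site d → ℝ} (hE : ∀ j x, 0 < E j x) (l : ℕ) :
    ∀ x, 0 < ubar q E l x :=
  flow_pos hq (fun _ => hE _) (fun x => mul_pos (hE 0 x) (rtop_pos hq.c_pos)) l

theorem ubar_succ (E : ℕ → Site d → ℝ) (l : ℕ) :
    ubar q E (l + 1) = step q (E (l + 1)) (ubar q E l) := by
  simp only [ubar, flow, add_comm 1 l]

theorem flow_le_ubar (hq : q.Good) {E : ℕ → Site d → ℝ} (hE : ∀ j x, 0 < E j x)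
    {f : Site d → ℝ} (hf : ∀ x, 0 ≤ f x) (l : ℕ) : ∀ x, flow q E f (l + 1) x ≤ ubar q E l x := by
  induction l with
  | zero =>
    intro x
    exact mul_le_mul_of_nonneg_left (rho_le_rtop hq.c_pos hq.b_ne (lin_nonneg hq hf x))
      (hE 0 x).le
  | succ l ih =>
    rw [ubar_succ]
    exact step_mono hq (hE _) (flow_nonneg hq hE hf _) ih

theorem ubar_add (E : ℕ → Site d → ℝ) (s l : ℕ) :
    ubar q E (s + 1 + l) = flow q (fun j => E (s + 1 + j)) (ubar q E s) (l + 1) := by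
  induction l with
  | zero => rw [add_zero, ubar_succ]; rfl
  | succ l ih => rw [← add_assoc, ubar_succ, ih]; simp only [flow, add_assoc]

theorem ubar_add_le (hq : q.Good) {E : ℕ → Site d → ℝ} (hE : ∀ j x, 0 < E j x) (s l : ℕ)
    (x : Site d) : ubar q E (s + l) x ≤ ubar q (fun j => E (s + j)) l x := by
  rcases s with _ | s
  · simp
  · rw [ubar_add]
    exact flow_le_ubar hq (fun _ => hE _) (fun y => (ubar_pos hq hE s y).le) l x

theorem PM_lin (hq : q.Good) {m : ℝ} (hm : 0 < m) (hm1 : m ≤ 1) {p u r : Site d → ℝ}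
    (hp : ∀ x, 0 < p x) (hu : ∀ x, 0 < u x) (hr : ∀ x, 0 < r x)
    (h : ∀ x, PM q.b m (1 - m) (p x) (u x) (r x)) (x : Site d) :
    PM q.b m (1 - m) (lin q p x) (lin q u x) (lin q r x) := by
  have hp0 := lin_pos hq hp x
  have hr0 := lin_pos hq hr x
  have h1m : 0 ≤ 1 - m := by linarith
  obtain ⟨M, hM, hMe⟩ := exists_mean hq.b_ne
    (S := m / lin q p x ^ q.b + (1 - m) / lin q r x ^ q.b) (by positivity)
  have h1 : lin q u x ≤ M := by
    rw [← PM_tangent_eq hp0 hr0 hM hMe, ← lin_comb]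
    exact lin_mono hq (fun y => PM_tangent hq.b_ne hm.le h1m hp0 hr0 hM hMe (hp y) (hu y) (hr y)
      (h y)) x
  unfold PM
  rw [← hMe]
  exact inv_pow_le_of_le (lin_pos hq hu x) h1

theorem PM_flow (hq : q.Good) {E : ℕ → Site d → ℝ} (hE : ∀ j x, 0 < E j x) {M : ℝ} (hM : 1 ≤ M)
    (l : ℕ) : ∀ x, PM q.b (1 / M ^ q.b) (1 - 1 / M ^ q.b) (flow q E (fun _ => 1) (l + 1) x)
      (flow q E (fun _ => M) (l + 1) x) (ubar q E l x) := by
  have hM0 : 0 < M := by linarith
  have hm : 0 < 1 / M ^ q.b := by positivity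
  have hm1 : 1 / M ^ q.b ≤ 1 := (div_le_one (by positivity)).2 (one_le_pow₀ hM)
  induction l with
  | zero =>
    intro x
    have hl : 0 < q.al + 2 * d * q.ka := by
      have := hq.al_pos; have := hq.ka_nonneg; positivity
    have he := hE 0 x
    simp only [flow, ubar, step, lin_const, zero_add]
    set lam := q.al + 2 * d * q.ka
    unfold PM
    have h1 := rho_inv_pow hq.c_pos.le hq.b_ne (v := lam * 1) (by positivity)
    have h2 := rho_inv_pow hq.c_pos.le hq.b_ne (v := lam * M) (by positivity)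
    have h3 := rtop_inv_pow hq.c_pos hq.b_ne
    have hp1 := rho_pos (b := q.b) hq.c_pos.le (v := lam * 1) (by positivity)
    have hp2 := rho_pos (b := q.b) hq.c_pos.le (v := lam * M) (by positivity)
    have hp3 := rtop_pos (b := q.b) hq.c_pos
    have e1 : 1 / M ^ q.b / (E 0 x * rho q.c q.b (lam * 1)) ^ q.b =
        1 / E 0 x ^ q.b * (1 / M ^ q.b * (1 / rho q.c q.b (lam * 1) ^ q.b)) := by
      rw [mul_pow]; field_simp
    have e2 : (1 - 1 / M ^ q.b) / (E 0 x * rtop q.c q.b) ^ q.b =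
        1 / E 0 x ^ q.b * ((1 - 1 / M ^ q.b) * (1 / rtop q.c q.b ^ q.b)) := by
      rw [mul_pow]; field_simp
    have e3 : 1 / (E 0 x * rho q.c q.b (lam * M)) ^ q.b =
        1 / E 0 x ^ q.b * (1 / rho q.c q.b (lam * M) ^ q.b) := by
      rw [mul_pow]; field_simp
    rw [e1, e2, e3, ← mul_add, h1, h2, h3]
    refine mul_le_mul_of_nonneg_left (le_of_eq ?_) (by positivity)
    rw [mul_one, mul_pow]; field_simp; ring
  | succ l ih =>
    intro x
    rw [ubar_succ]
    exact PM_rho hq.c_pos.le hq.b_ne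
      (lin_pos hq (flow_pos hq hE (fun _ => one_pos) _) x)
      (lin_pos hq (flow_pos hq hE (fun _ => hM0) _) x)
      (lin_pos hq (ubar_pos hq hE _) x) (hE _ x)
      (PM_lin hq hm hm1 (flow_pos hq hE (fun _ => one_pos) _) (flow_pos hq hE (fun _ => hM0) _)
        (ubar_pos hq hE _) ih x)

theorem gap_flow (hq : q.Good) {E : ℕ → Site d → ℝ} (hE : ∀ j x, 0 < E j x) {M : ℝ} (hM : 1 ≤ M)
    (l : ℕ) (x : Site d) : ubar q E l x - flow q E (fun _ => 1) (l + 1) x ≤
      (q.b * 2 ^ q.b * M ^ q.b) * (ubar q E l x - flow q E (fun _ => M) (l + 1) x) := by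
  have hM0 : 0 < M := by linarith
  have hm : 0 < 1 / M ^ q.b := by positivity
  have hm1 : 1 / M ^ q.b ≤ 1 := (div_le_one (by positivity)).2 (one_le_pow₀ hM)
  have := PM_gap hq.b_ne hm hm1 (flow_pos hq hE (fun _ => one_pos) _ x)
    (flow_pos hq hE (fun _ => hM0) _ x) (flow_le_ubar hq hE (fun _ => zero_le_one) l x)
    (flow_le_ubar hq hE (fun _ => hM0.le) l x) (PM_flow hq hE hM l x)
  rwa [div_div_eq_mul_div, div_one] at this

/- measurability -/

theorem measurable_lin {Ω : Type*} [MeasurableSpace Ω] {f : Ω → Site d → ℝ}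
    (hf : ∀ x, Measurable fun ω => f ω x) (x : Site d) : Measurable fun ω => lin q (f ω) x := by
  unfold lin
  exact ((hf x).const_mul _).add
    ((Finset.measurable_sum _ fun i _ => (hf _).add (hf _)).const_mul _)

theorem measurable_step {Ω : Type*} [MeasurableSpace Ω] {e f : Ω → Site d → ℝ}
    (he : ∀ x, Measurable fun ω => e ω x) (hf : ∀ x, Measurable fun ω => f ω x) (x : Site d) :
    Measurable fun ω => step q (e ω) (f ω) x :=
  (he x).mul ((measurable_rho _ _).comp (measurable_lin hf x))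

theorem measurable_flow {Ω : Type*} [MeasurableSpace Ω] {E : Ω → ℕ → Site d → ℝ}
    {f : Ω → Site d → ℝ} (hf : ∀ x, Measurable fun ω => f ω x) (l : ℕ)
    (hE : ∀ j, j < l → ∀ x, Measurable fun ω => E ω j x) :
    ∀ x, Measurable fun ω => flow q (E ω) (f ω) l x := by
  induction l with
  | zero => exact hf
  | succ l ih =>
    exact measurable_step (hE l (Nat.lt_succ_self l)) (ih fun j hj => hE j (hj.trans (by omega)))

theorem measurable_ubar {Ω : Type*} [MeasurableSpace Ω] {E : Ω → ℕ → Site d → ℝ} (l : ℕ)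
    (hE : ∀ j, j ≤ l → ∀ x, Measurable fun ω => E ω j x) :
    ∀ x, Measurable fun ω => ubar q (E ω) l x :=
  measurable_flow (E := fun ω j => E ω (1 + j)) (fun x => (hE 0 (Nat.zero_le _) x).mul_const _) l
    fun j hj => hE (1 + j) (by omega)

/- spatial shifts -/

theorem flow_shift (E : ℕ → Site d → ℝ) (m : ℝ) (y : Site d) (l : ℕ) :
    ∀ x, flow q (fun j z => E j (z + y)) (fun _ => m) l x = flow q E (fun _ => m) l (x + y) := by
  induction l with
  | zero => intro x; rfl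
  | succ l ih =>
    intro x
    simp only [flow, step, lin, ih, add_right_comm x _ y, sub_add_eq_add_sub]

end

end Pool.Agent.Lib.MP_0db9b2_pr
end

-- part Pool.Agent.Lib.MP_0db9b2_pr.Gauss
section

/-
Exponential moments of centred Gaussian laws.
-/

set_option autoImplicit false

namespace Pool.Agent.Lib.MP_0db9b2_pr

open MeasureTheory ProbabilityTheory Real
open scoped NNReal

theorem gauss_integrable (v : ℝ≥0) (t : ℝ) (n : ℕ) :
    Integrable (fun x : ℝ => x ^ n * exp (t * x)) (gaussianReal 0 v) :=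
  integrable_pow_mul_exp_of_mem_interior_integrableExpSet (X := id) (by simp) n

theorem gauss_exp (v : ℝ≥0) (t : ℝ) :
    ∫ x, exp (t * x) ∂(gaussianReal 0 v) = exp (v * t ^ 2 / 2) := by
  have := congrFun (mgf_id_gaussianReal (μ := 0) (v := v)) t
  simpa [mgf] using this

theorem gauss_hasDerivAt (v : ℝ≥0) (t : ℝ) :
    HasDerivAt (fun t : ℝ => exp (v * t ^ 2 / 2)) (v * t * exp (v * t ^ 2 / 2)) t := by
  have h : HasDerivAt (fun t : ℝ => (v : ℝ) * t ^ 2 / 2) (v * t) t := by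
    have := ((hasDerivAt_pow 2 t).const_mul (v : ℝ)).div_const 2
    refine this.congr_deriv ?_
    simp; ring
  refine h.exp.congr_deriv ?_
  ring

theorem gauss_mgf (v : ℝ≥0) : mgf id (gaussianReal 0 v) = fun t : ℝ => exp (v * t ^ 2 / 2) := by
  rw [mgf_id_gaussianReal]; simp

theorem gauss_id_exp (v : ℝ≥0) (t : ℝ) :
    ∫ x, x * exp (t * x) ∂(gaussianReal 0 v) = v * t * exp (v * t ^ 2 / 2) := by
  have h := iteratedDeriv_mgf (X := id) (μ := gaussianReal 0 v) (t := t) (by simp) 1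
  rw [gauss_mgf, iteratedDeriv_one, (gauss_hasDerivAt v t).deriv] at h
  simpa using h.symm

theorem gauss_sq_exp (v : ℝ≥0) (t : ℝ) :
    ∫ x, x ^ 2 * exp (t * x) ∂(gaussianReal 0 v) = (v + (v * t) ^ 2) * exp (v * t ^ 2 / 2) := by
  have h := iteratedDeriv_mgf (X := id) (μ := gaussianReal 0 v) (t := t) (by simp) 2
  have h1 : deriv (fun t : ℝ => exp (v * t ^ 2 / 2)) = fun t => v * t * exp (v * t ^ 2 / 2) :=
    funext fun t => (gauss_hasDerivAt v t).deriv
  have h2 : HasDerivAt (fun t : ℝ => v * t * exp (v * t ^ 2 / 2))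
      ((v + (v * t) ^ 2) * exp (v * t ^ 2 / 2)) t := by
    have := ((hasDerivAt_id t).const_mul (v : ℝ)).mul (gauss_hasDerivAt v t)
    refine this.congr_deriv ?_
    simp only [id]; ring
  rw [gauss_mgf, iteratedDeriv_succ, iteratedDeriv_one, h1, h2.deriv] at h
  simpa using h.symm

theorem gauss_integrable_exp (v : ℝ≥0) (t : ℝ) :
    Integrable (fun x : ℝ => exp (t * x)) (gaussianReal 0 v) := by
  simpa using gauss_integrable v t 0

theorem gauss_integrable_id_exp (v : ℝ≥0) (t : ℝ) :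
    Integrable (fun x : ℝ => x * exp (t * x)) (gaussianReal 0 v) := by
  simpa using gauss_integrable v t 1

theorem gauss_mart (v : ℝ≥0) :
    Integrable (fun x : ℝ => exp (x - v / 2)) (gaussianReal 0 v) ∧
      ∫ x, exp (x - v / 2) ∂(gaussianReal 0 v) = 1 := by
  have e : (fun x : ℝ => exp (x - v / 2)) = fun x => exp (-(v / 2)) * exp (1 * x) := by
    funext x; rw [← exp_add]; congr 1; ring
  rw [e]
  refine ⟨(gauss_integrable_exp v 1).const_mul _, ?_⟩
  rw [integral_const_mul, gauss_exp, ← exp_add]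
  simp

theorem gauss_id (v : ℝ≥0) :
    Integrable (fun x : ℝ => x ^ 2) (gaussianReal 0 v) ∧ ∫ x, x ∂(gaussianReal 0 v) = 0 ∧
      ∫ x, x ^ 2 ∂(gaussianReal 0 v) = v := by
  refine ⟨by simpa using gauss_integrable v 0 2, by simp, by simpa using gauss_sq_exp v 0⟩

theorem exp_three_le {v : ℝ} (h0 : 0 ≤ v) (h1 : v ≤ 1) : exp (3 * v) ≤ 1 + 63 * v := by
  have h27 : exp (3 * v) ≤ 21 := by
    have : exp (3 * v) ≤ exp 1 ^ 3 := by
      rw [← exp_nat_mul]; exact exp_le_exp.2 (by push_cast; linarith)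
    have h2 := exp_one_lt_d9
    have h3 : exp 1 ^ 3 ≤ 2.7182818286 ^ 3 := pow_le_pow_left₀ (exp_pos 1).le h2.le 3
    have h4 : (2.7182818286 : ℝ) ^ 3 ≤ 21 := by norm_num
    linarith
  have h4 := add_one_le_exp (-(3 * v))
  have h5 : exp (-(3 * v)) * exp (3 * v) = 1 := by rw [← exp_add]; simp
  have h6 := exp_pos (3 * v)
  nlinarith

/-- integrable with a given integral -/
def HI {α : Type*} [MeasurableSpace α] (μ : Measure α) (f : α → ℝ) (a : ℝ) : Prop :=
  Integrable f μ ∧ ∫ x, f x ∂μ = a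

theorem HI.add {α : Type*} [MeasurableSpace α] {μ : Measure α} {f g : α → ℝ} {a b : ℝ}
    (hf : HI μ f a) (hg : HI μ g b) : HI μ (fun x => f x + g x) (a + b) :=
  ⟨hf.1.add hg.1, by rw [integral_add hf.1 hg.1, hf.2, hg.2]⟩

theorem HI.sub {α : Type*} [MeasurableSpace α] {μ : Measure α} {f g : α → ℝ} {a b : ℝ}
    (hf : HI μ f a) (hg : HI μ g b) : HI μ (fun x => f x - g x) (a - b) :=
  ⟨hf.1.sub hg.1, by rw [integral_sub hf.1 hg.1, hf.2, hg.2]⟩

theorem HI.const_mul {α : Type*} [MeasurableSpace α] {μ : Measure α} {f : α → ℝ} {a : ℝ}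
    (hf : HI μ f a) (c : ℝ) : HI μ (fun x => c * f x) (c * a) :=
  ⟨hf.1.const_mul c, by rw [integral_const_mul, hf.2]⟩

theorem HI.const {α : Type*} [MeasurableSpace α] {μ : Measure α} [IsProbabilityMeasure μ]
    (c : ℝ) : HI μ (fun _ => c) c :=
  ⟨integrable_const c, by simp⟩

theorem HI.congr {α : Type*} [MeasurableSpace α] {μ : Measure α} {f g : α → ℝ} {a b : ℝ}
    (hf : HI μ f a) (h : ∀ x, g x = f x) (hab : b = a) : HI μ g b := by
  have : g = f := funext h
  rw [this, hab]; exact hf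

theorem HI_exp (v : ℝ≥0) (t : ℝ) :
    HI (gaussianReal 0 v) (fun x => exp (t * x)) (exp (v * t ^ 2 / 2)) :=
  ⟨gauss_integrable_exp v t, gauss_exp v t⟩

theorem HI_id_exp (v : ℝ≥0) (t : ℝ) :
    HI (gaussianReal 0 v) (fun x => x * exp (t * x)) (v * t * exp (v * t ^ 2 / 2)) :=
  ⟨gauss_integrable_id_exp v t, gauss_id_exp v t⟩

theorem HI_sq_exp (v : ℝ≥0) (t : ℝ) :
    HI (gaussianReal 0 v) (fun x => x ^ 2 * exp (t * x))
      ((v + (v * t) ^ 2) * exp (v * t ^ 2 / 2)) :=
  ⟨gauss_integrable v t 2, gauss_sq_exp v t⟩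

theorem gauss_kappa (v : ℝ≥0) (hv : v ≤ 1) :
    Integrable (fun x : ℝ => (exp (-x + v / 2) - 1) ^ 2) (gaussianReal 0 v) ∧
      ∫ x, (exp (-x + v / 2) - 1) ^ 2 ∂(gaussianReal 0 v) ≤ 63 * (v : ℝ) := by
  have h : HI (gaussianReal 0 v) (fun x : ℝ => (exp (-x + v / 2) - 1) ^ 2)
      (exp (3 * v) - 2 * exp v + 1) := by
    refine ((((HI_exp v (-2)).const_mul (exp v)).sub
      ((HI_exp v (-1)).const_mul (2 * exp (v / 2)))).add (HI.const 1)).congr (fun x => ?_) ?_
    · have h1 : exp (-x + v / 2) ^ 2 = exp v * exp ((-2) * x) := by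
        rw [← exp_nat_mul, ← exp_add]; congr 1; push_cast; ring
      have h2 : exp (-x + v / 2) = exp (v / 2) * exp ((-1) * x) := by
        rw [← exp_add]; congr 1; ring
      rw [sub_sq, h1, h2]; ring
    · have h1 : exp v * exp (v * (-2) ^ 2 / 2) = exp (3 * v) := by
        rw [← exp_add]; congr 1; ring
      have h2 : exp (v / 2) * exp (v * (-1) ^ 2 / 2) = exp v := by
        rw [← exp_add]; congr 1; ring
      rw [h1, mul_assoc, h2]
  refine ⟨h.1, ?_⟩
  rw [h.2]
  have h3 := exp_three_le v.coe_nonneg (by exact_mod_cast hv)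
  have h4 : 1 ≤ exp (v : ℝ) := one_le_exp v.coe_nonneg
  linarith

theorem gauss_h (v : ℝ≥0) (hv : v ≤ 1) :
    Integrable (fun x : ℝ => exp (-x + v / 2) * (1 + x) - 1) (gaussianReal 0 v) ∧
    Integrable (fun x : ℝ => (exp (-x + v / 2) * (1 + x) - 1) ^ 2) (gaussianReal 0 v) ∧
      |∫ x, (exp (-x + v / 2) * (1 + x) - 1) ∂(gaussianReal 0 v)| ≤ (v : ℝ) ^ 2 ∧
      ∫ x, (exp (-x + v / 2) * (1 + x) - 1) ^ 2 ∂(gaussianReal 0 v) ≤ 258 * (v : ℝ) ^ 2 := by
  have hv0 := v.coe_nonneg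
  have hv1 : (v : ℝ) ≤ 1 := by exact_mod_cast hv
  have h2 : ∀ x : ℝ, exp (-x + v / 2) = exp (v / 2) * exp ((-1) * x) := by
    intro x; rw [← exp_add]; congr 1; ring
  have hh : exp (v / 2) * exp (v / 2) = exp (v : ℝ) := by rw [← exp_add]; congr 1; ring
  have k1 : HI (gaussianReal 0 v) (fun x => exp ((-1) * x) + x * exp ((-1) * x))
      ((1 - v) * exp (v / 2)) := by
    refine ((HI_exp v (-1)).add (HI_id_exp v (-1))).congr (fun _ => rfl) ?_
    have : (v : ℝ) * (-1) ^ 2 / 2 = v / 2 := by ring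
    rw [this]; ring
  have k2 : HI (gaussianReal 0 v)
      (fun x => exp ((-2) * x) + 2 * (x * exp ((-2) * x)) + x ^ 2 * exp ((-2) * x))
      ((1 - 3 * v + 4 * v ^ 2) * exp (2 * v)) := by
    refine (((HI_exp v (-2)).add ((HI_id_exp v (-2)).const_mul 2)).add
      (HI_sq_exp v (-2))).congr (fun _ => rfl) ?_
    have : (v : ℝ) * (-2) ^ 2 / 2 = 2 * v := by ring
    rw [this]; ring
  have g1 : HI (gaussianReal 0 v) (fun x : ℝ => exp (-x + v / 2) * (1 + x) - 1)
      (exp v * (1 - v) - 1) := by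
    refine ((k1.const_mul (exp (v / 2))).sub (HI.const 1)).congr (fun x => ?_) ?_
    · rw [h2]; ring
    · rw [← hh]; ring
  have g2 : HI (gaussianReal 0 v) (fun x : ℝ => (exp (-x + v / 2) * (1 + x) - 1) ^ 2)
      (exp (3 * v) * (1 - 3 * v) + 4 * v ^ 2 * exp (3 * v) - 2 * (exp v * (1 - v)) + 1) := by
    refine (((k2.const_mul (exp v)).sub (k1.const_mul (2 * exp (v / 2)))).add
      (HI.const 1)).congr (fun x => ?_) ?_
    · have h1 : exp (-x + v / 2) ^ 2 = exp v * exp ((-2) * x) := by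
        rw [← exp_nat_mul, ← exp_add]; congr 1; push_cast; ring
      rw [sub_sq, mul_pow, h1, h2]; ring
    · have : exp (3 * (v : ℝ)) = exp v * exp (2 * v) := by rw [← exp_add]; congr 1; ring
      rw [this, ← hh]; ring
  have hu : exp (v : ℝ) * (1 - v) ≤ 1 := by
    have h4 := add_one_le_exp (-(v : ℝ))
    have h5 : exp (-(v : ℝ)) * exp v = 1 := by rw [← exp_add]; simp
    nlinarith [exp_pos (v : ℝ)]
  have hl : 1 - (v : ℝ) ^ 2 ≤ exp v * (1 - v) := by
    have h4 := add_one_le_exp (v : ℝ)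
    nlinarith
  refine ⟨g1.1, g2.1, ?_, ?_⟩
  · rw [g1.2, abs_le]
    constructor <;> nlinarith [sq_nonneg (v : ℝ)]
  · rw [g2.2]
    have hu3 : exp (3 * (v : ℝ)) * (1 - 3 * v) ≤ 1 := by
      have h4 := add_one_le_exp (-(3 * (v : ℝ)))
      have h5 : exp (-(3 * (v : ℝ))) * exp (3 * v) = 1 := by rw [← exp_add]; simp
      nlinarith [exp_pos (3 * (v : ℝ))]
    have h3 := exp_three_le hv0 hv1
    have h6 : exp (3 * (v : ℝ)) ≤ 64 := by linarith
    have h7 : 4 * (v : ℝ) ^ 2 * exp (3 * v) ≤ 4 * v ^ 2 * 64 :=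
      mul_le_mul_of_nonneg_left h6 (by positivity)
    linarith

end Pool.Agent.Lib.MP_0db9b2_pr
end

-- part Pool.Agent.Lib.MP_0db9b2_pr.Noise
section

/-
A family of independent Brownian motions with respect to a filtration.
-/

set_option autoImplicit false

namespace Pool.Agent.Lib.MP_0db9b2_pr

open MeasureTheory ProbabilityTheory Real
open scoped NNReal ENNReal

abbrev Path (d : ℕ) : Type := Site d → ℝ≥0 → ℝ

variable {d : ℕ} {Ω : Type*} {mΩ : MeasurableSpace Ω}

structure Noise (P : Measure Ω) (F : Filtration ℝ≥0 mΩ) (w : Site d → ℝ≥0 → Ω → ℝ) : Prop where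
  br : ∀ x, IsBrownianReal (w x) P
  ind : iIndepFun (fun x ω t => w x t ω) P
  ad : ∀ x, Adapted F (w x)
  fut : ∀ s, Indep (MeasurableSpace.comap (fun ω (x : Site d) (t : ℝ≥0) =>
    w x (s + t) ω - w x s ω) inferInstance) (F s) P

def pathOf (w : Site d → ℝ≥0 → Ω → ℝ) (ω : Ω) : Path d := fun x t => w x t ω

def shiftP (s : ℝ≥0) (ϖ : Path d) : Path d := fun x t => ϖ x (s + t) - ϖ x s

noncomputable def tm (n j : ℕ) : ℝ≥0 := (j : ℝ≥0) / (n : ℝ≥0)

noncomputable def noise (n : ℕ) (ϖ : Path d) (j : ℕ) (x : Site d) : ℝ :=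
  exp (ϖ x (tm n j + tm n 1) - ϖ x (tm n j) - (tm n 1 : ℝ) / 2)

theorem tm_add (n i j : ℕ) : tm n (i + j) = tm n i + tm n j := by
  unfold tm; push_cast; rw [add_div]

theorem tm_succ (n j : ℕ) : tm n (j + 1) = tm n j + tm n 1 := tm_add n j 1

theorem tm_mono (n : ℕ) {i j : ℕ} (h : i ≤ j) : tm n i ≤ tm n j := by
  obtain ⟨k, rfl⟩ := Nat.exists_eq_add_of_le h
  rw [tm_add]; exact le_self_add

theorem tm_zero (n : ℕ) : tm n 0 = 0 := by simp [tm]

theorem coe_tm (n j : ℕ) : (tm n j : ℝ) = j / n := by simp [tm]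

theorem noise_pos (n : ℕ) (ϖ : Path d) (j : ℕ) (x : Site d) : 0 < noise n ϖ j x := exp_pos _

theorem noise_shift (n i : ℕ) (ϖ : Path d) :
    noise n (shiftP (tm n i) ϖ) = fun j => noise n ϖ (i + j) := by
  funext j x
  unfold noise shiftP
  rw [tm_add, add_assoc]
  congr 1; ring

theorem measurable_shiftP (s : ℝ≥0) : Measurable (shiftP (d := d) s) := by
  unfold shiftP; fun_prop

theorem measurable_noise (n j : ℕ) (x : Site d) : Measurable fun ϖ : Path d => noise n ϖ j x := by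
  unfold noise; fun_prop

theorem law_eq_of_preBrownian {Ω' : Type*} {mΩ' : MeasurableSpace Ω'} {P : Measure Ω}
    {P' : Measure Ω'} {B : ℝ≥0 → Ω → ℝ} {B' : ℝ≥0 → Ω' → ℝ} (h : IsPreBrownianReal B P)
    (h' : IsPreBrownianReal B' P') (m : ∀ t, Measurable (B t)) (m' : ∀ t, Measurable (B' t)) :
    P.map (fun ω t => B t ω) = P'.map (fun ω t => B' t ω) := by
  have h1 := isProjectiveLimit_map (X := B) (P := P) (measurable_pi_lambda _ m).aemeasurable
  have h2 := isProjectiveLimit_map (X := B') (P := P') (measurable_pi_lambda _ m').aemeasurable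
  simp_rw [fun I => (h.hasLaw I).map_eq] at h1
  simp_rw [fun I => (h'.hasLaw I).map_eq] at h2
  exact h1.unique h2

namespace Noise

variable {P : Measure Ω} {F : Filtration ℝ≥0 mΩ} {w : Site d → ℝ≥0 → Ω → ℝ}

theorem meas (h : Noise P F w) (x : Site d) (t : ℝ≥0) : Measurable (w x t) := (h.ad x).measurable

theorem meas_path (h : Noise P F w) : Measurable (pathOf w) :=
  measurable_pi_lambda _ fun x => measurable_pi_lambda _ fun t => h.meas x t

theorem prob (h : Noise P F w) : IsProbabilityMeasure P := h.ind.isProbabilityMeasure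

theorem indep_fut (h : Noise P F w) (s : ℝ≥0) {β : Type*} [MeasurableSpace β] {Z : Ω → β}
    (hZ : Measurable[F s] Z) : IndepFun (fun ω => shiftP s (pathOf w ω)) Z P :=
  indep_of_indep_of_le_right (h.fut s) hZ.comap_le

theorem indep_incr (h : Noise P F w) (x : Site d) (s t : ℝ≥0) {g : ℝ → ℝ} (hg : Measurable g)
    {Z : Ω → ℝ} (hZ : Measurable[F s] Z) :
    IndepFun (fun ω => g (w x (s + t) ω - w x s ω)) Z P :=
  (h.indep_fut s hZ).comp (φ := fun ϖ : Path d => g (ϖ x t)) (ψ := id) (by fun_prop) measurable_id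

theorem hasLaw_incr (h : Noise P F w) (x : Site d) (s t : ℝ≥0) :
    HasLaw (fun ω => w x (s + t) ω - w x s ω) (gaussianReal 0 t) P :=
  ((h.br x).toIsPreBrownianReal.shift s).hasLaw_eval t

theorem HI_incr (h : Noise P F w) (x : Site d) (s t : ℝ≥0) {g : ℝ → ℝ} (hg : Measurable g)
    (hi : Integrable g (gaussianReal 0 t)) :
    HI P (fun ω => g (w x (s + t) ω - w x s ω)) (∫ y, g y ∂(gaussianReal 0 t)) := by
  have hl := h.hasLaw_incr x s t
  refine ⟨?_, hl.integral_comp hg.aestronglyMeasurable⟩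
  rw [← hl.map_eq] at hi
  exact (integrable_map_measure hg.aestronglyMeasurable hl.aemeasurable).1 hi

theorem HI_incr_mul (h : Noise P F w) (x : Site d) (s t : ℝ≥0) {g : ℝ → ℝ} (hg : Measurable g)
    (hi : Integrable g (gaussianReal 0 t)) {Z : Ω → ℝ} (hZ : Measurable[F s] Z)
    (hZi : Integrable Z P) :
    HI P (fun ω => g (w x (s + t) ω - w x s ω) * Z ω)
      ((∫ y, g y ∂(gaussianReal 0 t)) * ∫ ω, Z ω ∂P) := by
  have h1 := h.HI_incr x s t hg hi
  have h2 := h.indep_incr x s t hg hZ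
  refine ⟨h2.integrable_mul h1.1 hZi, ?_⟩
  rw [h2.integral_fun_mul_eq_mul_integral h1.1.aestronglyMeasurable hZi.aestronglyMeasurable,
    h1.2]

theorem HI_noise_mul (h : Noise P F w) (n j : ℕ) (x : Site d) {Z : Ω → ℝ}
    (hZ : Measurable[F (tm n j)] Z) (hZi : Integrable Z P) :
    HI P (fun ω => noise n (pathOf w ω) j x * Z ω) (∫ ω, Z ω ∂P) := by
  have := h.HI_incr_mul x (tm n j) (tm n 1) (g := fun y => exp (y - (tm n 1 : ℝ) / 2))
    (by fun_prop) (gauss_mart _).1 hZ hZi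
  rw [(gauss_mart _).2, one_mul] at this
  exact this

theorem noise_adapted (h : Noise P F w) (n : ℕ) {j l : ℕ} (hj : j < l) (x : Site d) :
    Measurable[F (tm n l)] fun ω => noise n (pathOf w ω) j x := by
  have h1 : Measurable[F (tm n l)] (w x (tm n j + tm n 1)) :=
    (h.ad x).measurable_le (by rw [← tm_succ]; exact tm_mono n hj)
  have h2 : Measurable[F (tm n l)] (w x (tm n j)) := (h.ad x).measurable_le (tm_mono n hj.le)
  exact measurable_exp.comp ((h1.sub h2).sub measurable_const)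

/-- the common law of the paths -/
noncomputable def wiener (P : Measure Ω) (w : Site d → ℝ≥0 → Ω → ℝ) : Measure (ℝ≥0 → ℝ) :=
  P.map (fun ω t => w 0 t ω)

theorem wiener_prob (h : Noise P F w) : IsProbabilityMeasure (wiener P w) :=
  haveI := h.prob
  Measure.isProbabilityMeasure_map (measurable_pi_lambda _ (h.meas 0)).aemeasurable

theorem law_path (h : Noise P F w) :
    P.map (pathOf w) = Measure.infinitePi fun _ : Site d => wiener P w := by
  have := h.ind.map_fun_eq_infinitePi_map fun x => measurable_pi_lambda _ (h.meas x)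
  refine this.trans ?_
  congr 1
  funext x
  exact law_eq_of_preBrownian (h.br x).toIsPreBrownianReal (h.br 0).toIsPreBrownianReal
    (h.meas x) (h.meas 0)

theorem law_shift (h : Noise P F w) (s : ℝ≥0) :
    P.map (fun ω => shiftP s (pathOf w ω)) = P.map (pathOf w) := by
  have hi := h.ind.comp (fun _ (p : ℝ≥0 → ℝ) (t : ℝ≥0) => p (s + t) - p s) (fun _ => by fun_prop)
  have := hi.map_fun_eq_infinitePi_map fun x =>
    measurable_pi_lambda _ fun t => (h.meas x _).sub (h.meas x _)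
  rw [h.law_path]
  refine this.trans ?_
  congr 1
  funext x
  exact law_eq_of_preBrownian ((h.br x).toIsPreBrownianReal.shift s)
    (h.br 0).toIsPreBrownianReal (fun t => (h.meas x _).sub (h.meas x _)) (h.meas 0)

theorem wiener_preBrownian (h : Noise P F w) :
    IsPreBrownianReal (fun (t : ℝ≥0) (p : ℝ≥0 → ℝ) => p t) (wiener P w) := by
  refine ⟨fun I => ⟨(Finset.measurable_restrict I).aemeasurable, ?_⟩⟩
  rw [← ((h.br 0).hasLaw I).map_eq, wiener, Measure.map_map (Finset.measurable_restrict I)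
    (measurable_pi_lambda _ (h.meas 0))]
  rfl

end Noise

end Pool.Agent.Lib.MP_0db9b2_pr
end

-- part Pool.Agent.Lib.MP_0db9b2_pr.Expect
section

/-
Expectation estimates for the scheme: Jensen's inequality and the key coupling bound.
-/

set_option autoImplicit false

namespace Pool.Agent.Lib.MP_0db9b2_pr

open MeasureTheory ProbabilityTheory Real
open scoped NNReal ENNReal

variable {d : ℕ} {Ω : Type*} {mΩ : MeasurableSpace Ω} {q : Par}

theorem HI.sum {P : Measure Ω} {ι : Type*} (s : Finset ι) {f : ι → Ω → ℝ} {a : ι → ℝ}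
    (h : ∀ i ∈ s, HI P (f i) (a i)) : HI P (fun ω => ∑ i ∈ s, f i ω) (∑ i ∈ s, a i) :=
  ⟨integrable_finsetSum _ fun i hi => (h i hi).1, by
    rw [integral_finsetSum _ fun i hi => (h i hi).1]
    exact Finset.sum_congr rfl fun i hi => (h i hi).2⟩

theorem HI_lin {P : Measure Ω} {Z : Ω → Site d → ℝ} (hZ : ∀ y, Integrable (fun ω => Z ω y) P)
    (x : Site d) : HI P (fun ω => lin q (Z ω) x) (lin q (fun y => ∫ ω, Z ω y ∂P) x) := by
  unfold lin
  have h0 : ∀ y, HI P (fun ω => Z ω y) (∫ ω, Z ω y ∂P) := fun y => ⟨hZ y, rfl⟩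
  exact ((h0 x).const_mul _).add (HI.const_mul (HI.sum _ fun i _ => (h0 _).add (h0 _)) _)

theorem jensen_rho (hq : q.Good) {P : Measure Ω} [IsProbabilityMeasure P] {Z : Ω → Site d → ℝ}
    (hm : ∀ y, Measurable fun ω => Z ω y) (h0 : ∀ ω y, 0 ≤ Z ω y)
    (hZ : ∀ y, Integrable (fun ω => Z ω y) P) {g : Site d → ℝ} (hg : ∀ y, 0 < g y)
    (hle : ∀ y, ∫ ω, Z ω y ∂P ≤ g y) (x : Site d) :
    Integrable (fun ω => rho q.c q.b (lin q (Z ω) x)) P ∧
      ∫ ω, rho q.c q.b (lin q (Z ω) x) ∂P ≤ rho q.c q.b (lin q g x) := by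
  have hl := HI_lin (q := q) hZ x
  have hi : Integrable (fun ω => rho q.c q.b (lin q (Z ω) x)) P := by
    refine hl.1.mono' ((measurable_rho _ _).comp (measurable_lin hm x)).aestronglyMeasurable
      (ae_of_all _ fun ω => ?_)
    rw [Real.norm_of_nonneg (rho_nonneg hq.c_pos.le (lin_nonneg hq (h0 ω) x))]
    exact rho_le_self hq.c_pos.le (lin_nonneg hq (h0 ω) x)
  refine ⟨hi, ?_⟩
  obtain ⟨A, B, hA, -, -, he, hle'⟩ := rho_tangent hq.c_pos.le hq.b_ne (lin_pos hq hg x)
  have h2 := (hl.const_mul A).add (HI.const B)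
  refine (integral_mono hi h2.1 fun ω => hle' _ (lin_nonneg hq (h0 ω) x)).trans ?_
  rw [h2.2, ← he]
  have := mul_le_mul_of_nonneg_left (lin_mono hq hle x) hA
  linarith

theorem jensen_flow (hq : q.Good) {P : Measure Ω} [IsProbabilityMeasure P] {Z : Ω → Site d → ℝ}
    (hm : ∀ y, Measurable fun ω => Z ω y) (h0 : ∀ ω y, 0 ≤ Z ω y)
    (hZ : ∀ y, Integrable (fun ω => Z ω y) P) {g : Site d → ℝ} (hg : ∀ y, 0 < g y)
    (hle : ∀ y, ∫ ω, Z ω y ∂P ≤ g y) {E : ℕ → Site d → ℝ} (hE : ∀ j x, 0 < E j x) (l : ℕ) :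
    ∀ x, Integrable (fun ω => flow q E (Z ω) l x) P ∧
      ∫ ω, flow q E (Z ω) l x ∂P ≤ flow q E g l x := by
  induction l with
  | zero => exact fun x => ⟨hZ x, hle x⟩
  | succ l ih =>
    intro x
    have := jensen_rho hq (Z := fun ω => flow q E (Z ω) l)
      (measurable_flow (E := fun _ => E) hm l fun _ _ _ => measurable_const)
      (fun ω => flow_nonneg hq hE (h0 ω) l) (fun y => (ih y).1) (flow_pos hq hE hg l)
      (fun y => (ih y).2) x
    simp only [flow, step]
    refine ⟨this.1.const_mul _, ?_⟩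
    rw [integral_const_mul]
    exact mul_le_mul_of_nonneg_left this.2 (hE l x).le

noncomputable def Mseq (q : Par) (lam : ℝ) : ℕ → ℝ
  | 0 => rtop q.c q.b
  | l + 1 => rho q.c q.b (lam * Mseq q lam l)

theorem Mseq_pos (hq : q.Good) {lam : ℝ} (hl : 0 < lam) (l : ℕ) : 0 < Mseq q lam l := by
  induction l with
  | zero => exact rtop_pos hq.c_pos
  | succ l ih => exact rho_pos hq.c_pos.le (mul_pos hl ih)

theorem Mseq_bound (hq : q.Good) {lam L : ℝ} (hl : 0 < lam) (hL : lam ≤ L) (hL1 : 1 ≤ L) (l : ℕ) :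
    (l + 1) * q.c ≤ (L ^ q.b) ^ l * (1 / Mseq q lam l ^ q.b) := by
  induction l with
  | zero => simp only [Mseq, rtop_inv_pow hq.c_pos hq.b_ne]; simp
  | succ l ih =>
    have hM := Mseq_pos hq hl l
    simp only [Mseq]
    rw [rho_inv_pow hq.c_pos.le hq.b_ne (mul_pos hl hM)]
    have h1 : 1 / (L * Mseq q lam l) ^ q.b ≤ 1 / (lam * Mseq q lam l) ^ q.b :=
      inv_pow_le_of_le (mul_pos hl hM) (mul_le_mul_of_nonneg_right hL hM.le)
    have hLb : 1 ≤ L ^ q.b := one_le_pow₀ hL1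
    have h2 : (L ^ q.b) ^ (l + 1) * (1 / (L * Mseq q lam l) ^ q.b) =
        (L ^ q.b) ^ l * (1 / Mseq q lam l ^ q.b) := by
      rw [mul_pow, pow_succ]; field_simp
    have h3 : 1 ≤ (L ^ q.b) ^ (l + 1) := one_le_pow₀ hLb
    have h4 := mul_le_mul_of_nonneg_left h1 (le_trans zero_le_one h3)
    have h5 := mul_le_mul_of_nonneg_right h3 hq.c_pos.le
    push_cast
    rw [mul_add]
    linarith

namespace Noise

variable {P : Measure Ω} {F : Filtration ℝ≥0 mΩ} {w : Site d → ℝ≥0 → Ω → ℝ}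

theorem flow_adapted (h : Noise P F w) (n l : ℕ) (m : ℝ) (x : Site d) :
    Measurable[F (tm n l)] fun ω => flow q (noise n (pathOf w ω)) (fun _ => m) l x :=
  @measurable_flow d q Ω (F (tm n l)) (fun ω => noise n (pathOf w ω)) (fun _ _ => m)
    (fun _ => measurable_const) l (fun _ hj y => h.noise_adapted n hj y) x

theorem ubar_adapted (h : Noise P F w) (n l : ℕ) (x : Site d) :
    Measurable[F (tm n (l + 1))] fun ω => ubar q (noise n (pathOf w ω)) l x :=
  @measurable_ubar d q Ω (F (tm n (l + 1))) (fun ω => noise n (pathOf w ω)) l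
    (fun _ hj y => h.noise_adapted n (Nat.lt_succ_of_le hj) y) x

theorem ubar_int (h : Noise P F w) (hq : q.Good) (n l : ℕ) :
    ∀ x, Integrable (fun ω => ubar q (noise n (pathOf w ω)) l x) P ∧
      ∫ ω, ubar q (noise n (pathOf w ω)) l x ∂P ≤ Mseq q (q.al + 2 * d * q.ka) l := by
  have := h.prob
  have hl : 0 < q.al + 2 * d * q.ka := by
    have := hq.al_pos; have := hq.ka_nonneg; positivity
  induction l with
  | zero =>
    intro x
    have := h.HI_noise_mul n 0 x (Z := fun _ => rtop q.c q.b) measurable_const (integrable_const _)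
    refine ⟨this.1, le_of_eq ?_⟩
    have h2 := this.2
    simp only [integral_const, probReal_univ, smul_eq_mul, one_mul] at h2
    exact h2
  | succ l ih =>
    intro x
    have hj := jensen_rho hq (Z := fun ω => ubar q (noise n (pathOf w ω)) l)
      (fun y => (h.ubar_adapted n l y).mono (F.le _) le_rfl)
      (fun ω y => (ubar_pos hq (noise_pos n _) l y).le) (fun y => (ih y).1)
      (g := fun _ => Mseq q (q.al + 2 * d * q.ka) l) (fun _ => Mseq_pos hq hl l)
      (fun y => (ih y).2) x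
    have hm : Measurable[F (tm n (l + 1))] fun ω =>
        rho q.c q.b (lin q (ubar q (noise n (pathOf w ω)) l) x) :=
      (measurable_rho _ _).comp (@measurable_lin d q Ω (F (tm n (l + 1)))
        (fun ω => ubar q (noise n (pathOf w ω)) l) (h.ubar_adapted n l) x)
    have := h.HI_noise_mul n (l + 1) x hm hj.1
    simp only [ubar_succ, step]
    refine ⟨this.1, ?_⟩
    rw [this.2]
    rw [lin_const] at hj
    exact hj.2

theorem integral_shift (h : Noise P F w) (s : ℝ≥0) {φ : Path d → ℝ} (hφ : Measurable φ) :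
    ∫ ω, φ (shiftP s (pathOf w ω)) ∂P = ∫ ω, φ (pathOf w ω) ∂P := by
  rw [← integral_map (φ := fun ω => shiftP s (pathOf w ω))
    ((measurable_shiftP s).comp h.meas_path).aemeasurable hφ.aestronglyMeasurable,
    h.law_shift, integral_map h.meas_path.aemeasurable hφ.aestronglyMeasurable]

theorem integrable_shift (h : Noise P F w) (s : ℝ≥0) {φ : Path d → ℝ} (hφ : Measurable φ)
    (hi : Integrable (fun ω => φ (pathOf w ω)) P) :
    Integrable (fun ω => φ (shiftP s (pathOf w ω))) P := by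
  have h1 := (integrable_map_measure hφ.aestronglyMeasurable h.meas_path.aemeasurable).2 hi
  rw [← h.law_shift s] at h1
  exact (integrable_map_measure hφ.aestronglyMeasurable
    ((measurable_shiftP s).comp h.meas_path).aemeasurable).1 h1

end Noise

theorem measurable_ubar_path (n l : ℕ) (x : Site d) :
    Measurable fun ϖ : Path d => ubar q (noise n ϖ) l x :=
  measurable_ubar l (fun j _ y => measurable_noise n j y) x

theorem measurable_flow_path (n l : ℕ) (m : ℝ) (x : Site d) :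
    Measurable fun ϖ : Path d => flow q (noise n ϖ) (fun _ => m) l x :=
  measurable_flow (fun _ => measurable_const) l (fun j _ y => measurable_noise n j y) x

/-- mean of the scheme started from infinity -/
noncomputable def Gm (q : Par) (P : Measure Ω) (w : Site d → ℝ≥0 → Ω → ℝ) (n : ℕ) (x : Site d)
    (l : ℕ) : ℝ := ∫ ω, ubar q (noise n (pathOf w ω)) l x ∂P

namespace Noise

variable {P : Measure Ω} {F : Filtration ℝ≥0 mΩ} {w : Site d → ℝ≥0 → Ω → ℝ}

theorem Gm_nonneg (hq : q.Good) (n : ℕ) (x : Site d) (l : ℕ) : 0 ≤ Gm q P w n x l :=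
  integral_nonneg fun _ => (ubar_pos hq (noise_pos n _) l x).le

theorem HI_ubar_shift (h : Noise P F w) (hq : q.Good) (n s l : ℕ) (x : Site d) :
    HI P (fun ω => ubar q (fun j => noise n (pathOf w ω) (s + j)) l x) (Gm q P w n x l) := by
  simp_rw [← noise_shift]
  exact ⟨h.integrable_shift _ (measurable_ubar_path n l x) (h.ubar_int hq n l x).1,
    h.integral_shift _ (measurable_ubar_path n l x)⟩

theorem Gm_anti (h : Noise P F w) (hq : q.Good) (n : ℕ) (x : Site d) :
    Antitone (Gm q P w n x) := by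
  intro l l' hl
  obtain ⟨s, rfl⟩ := Nat.exists_eq_add_of_le' hl
  have h1 := h.HI_ubar_shift hq n s l x
  rw [← h1.2]
  exact integral_mono (h.ubar_int hq n _ x).1 h1.1 fun ω => ubar_add_le hq (noise_pos n _) s l x

theorem flow_int (h : Noise P F w) (hq : q.Good) (n l : ℕ) {m : ℝ} (hm : 0 ≤ m) (x : Site d) :
    Integrable (fun ω => flow q (noise n (pathOf w ω)) (fun _ => m) l x) P := by
  have := h.prob
  rcases l with _ | l
  · exact integrable_const _
  refine (h.ubar_int hq n l x).1.mono'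
    (Measurable.aestronglyMeasurable ((measurable_flow_path (q := q) n (l + 1) m x).comp
      h.meas_path)) (ae_of_all _ fun ω => ?_)
  rw [Real.norm_of_nonneg (flow_nonneg hq (noise_pos n _) (fun _ => hm) _ x)]
  exact flow_le_ubar hq (noise_pos n _) (fun _ => hm) l x

theorem Gm_le_flow (h : Noise P F w) (hq : q.Good) (n s l : ℕ) {M : ℝ} (hM : 0 < M)
    (hs : ∀ y, Gm q P w n y s ≤ M) (x : Site d) :
    Gm q P w n x (s + 1 + l) ≤
      ∫ ω, flow q (noise n (pathOf w ω)) (fun _ => M) (l + 1) x ∂P := by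
  have := h.prob
  let Z : Ω → Site d → ℝ := fun ω => ubar q (noise n (pathOf w ω)) s
  let Y : Ω → Path d := fun ω => shiftP (tm n (s + 1)) (pathOf w ω)
  have hZF : Measurable[F (tm n (s + 1))] Z :=
    @measurable_pi_lambda Ω _ _ (F (tm n (s + 1))) _ _ fun y => h.ubar_adapted n s y
  have hZ : Measurable Z := hZF.mono (F.le _) le_rfl
  have hY : Measurable Y := (measurable_shiftP _).comp h.meas_path
  have hind : IndepFun Y Z P := h.indep_fut _ hZF
  let Φ : Path d × (Site d → ℝ) → ℝ := fun p => flow q (noise n p.1) p.2 (l + 1) x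
  have hΦ : Measurable Φ :=
    measurable_flow (E := fun p : Path d × (Site d → ℝ) => noise n p.1) (f := fun p => p.2)
      (fun y => (measurable_pi_apply y).comp measurable_snd) _
      (fun j _ y => (measurable_noise n j y).comp measurable_fst) x
  have e1 : ∀ ω, ubar q (noise n (pathOf w ω)) (s + 1 + l) x = Φ (Y ω, Z ω) := by
    intro ω
    simp only [Φ, Y, Z, noise_shift, ubar_add]
  have hZ0 : ∀ ω y, 0 ≤ Z ω y := fun ω y => (ubar_pos hq (noise_pos n _) s y).le
  have i1 := (h.ubar_int hq n (s + 1 + l) x).1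
  have i2 := h.flow_int hq n (l + 1) hM.le x
  have hmφ := measurable_flow_path (q := q) n (l + 1) M x
  have n1 : ∀ ω, 0 ≤ ubar q (noise n (pathOf w ω)) (s + 1 + l) x :=
    fun ω => (ubar_pos hq (noise_pos n _) _ x).le
  have n2 : ∀ ϖ : Path d, 0 ≤ flow q (noise n ϖ) (fun _ => M) (l + 1) x :=
    fun ϖ => flow_nonneg hq (noise_pos n _) (fun _ => hM.le) _ x
  rw [← ENNReal.ofReal_le_ofReal_iff (integral_nonneg fun ω => n2 _), Gm,
    ofReal_integral_eq_lintegral_ofReal i1 (ae_of_all _ n1),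
    ofReal_integral_eq_lintegral_ofReal i2 (ae_of_all _ fun ω => n2 _)]
  simp_rw [e1]
  have hΦ' : Measurable fun p => ENNReal.ofReal (Φ p) := ENNReal.measurable_ofReal.comp hΦ
  rw [← lintegral_map (f := fun p => ENNReal.ofReal (Φ p)) hΦ' (hY.prodMk hZ),
    hind.map_prod_eq_prod_map_map hY.aemeasurable hZ.aemeasurable,
    lintegral_prod _ hΦ'.aemeasurable, h.law_shift,
    ← lintegral_map (f := fun ϖ => ENNReal.ofReal (flow q (noise n ϖ) (fun _ => M) (l + 1) x))
      (ENNReal.measurable_ofReal.comp hmφ) h.meas_path]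
  refine lintegral_mono fun ϖ => ?_
  rw [lintegral_map (f := fun z => ENNReal.ofReal (Φ (ϖ, z)))
    (hΦ'.comp measurable_prodMk_left) hZ]
  have hj := jensen_flow hq (Z := Z) (fun y => (measurable_pi_apply y).comp hZ) hZ0
    (fun y => (h.ubar_int hq n s y).1) (g := fun _ => M) (fun _ => hM) hs (noise_pos n ϖ) (l + 1) x
  rw [← ofReal_integral_eq_lintegral_ofReal hj.1
    (ae_of_all _ fun ω => flow_nonneg hq (noise_pos n ϖ) (hZ0 ω) _ x)]
  exact ENNReal.ofReal_le_ofReal hj.2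

theorem gap_int (h : Noise P F w) (hq : q.Good) (n s l : ℕ) {M : ℝ} (hM : 1 ≤ M)
    (hs : ∀ y, Gm q P w n y s ≤ M) (x : Site d) :
    Gm q P w n x l - ∫ ω, flow q (noise n (pathOf w ω)) (fun _ => 1) (l + 1) x ∂P ≤
      (q.b * 2 ^ q.b * M ^ q.b) * (Gm q P w n x l - Gm q P w n x (s + 1 + l)) := by
  have hM0 : 0 < M := by linarith
  have i0 := (h.ubar_int hq n l x).1
  have i1 := h.flow_int hq n (l + 1) zero_le_one x
  have i2 := h.flow_int hq n (l + 1) hM0.le x
  have h1 := integral_mono (i0.sub i1) ((i0.sub i2).const_mul (q.b * 2 ^ q.b * M ^ q.b))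
    fun ω => gap_flow hq (noise_pos n _) hM l x
  simp only [Pi.sub_apply] at h1
  rw [integral_const_mul, integral_sub i0 i1, integral_sub i0 i2] at h1
  refine h1.trans (mul_le_mul_of_nonneg_left ?_ (by positivity))
  have := h.Gm_le_flow hq n s l hM0 hs x
  unfold Gm at *
  linarith

theorem coupling (h : Noise P F w) (hq : q.Good) (n s : ℕ) {M : ℝ} (hM : 1 ≤ M)
    (hs : ∀ y, Gm q P w n y s ≤ M) (x : Site d) (r l A B : ℕ) (hA : A ≤ l)
    (hB : s + 1 + r + l ≤ B) :
    ∫ ω, |flow q (noise n (pathOf w ω)) (fun _ => 1) (r + l + 1) x -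
        flow q (noise n (shiftP (tm n r) (pathOf w ω))) (fun _ => 1) (l + 1) x| ∂P ≤
      (2 * (q.b * 2 ^ q.b * M ^ q.b) + 1) * (Gm q P w n x A - Gm q P w n x B) := by
  set K := (q.b : ℝ) * 2 ^ q.b * M ^ q.b with hK
  have hK0 : 0 ≤ K := by positivity
  have g1 := h.gap_int hq n s (r + l) hM hs x
  have g2 := h.gap_int hq n s l hM hs x
  have hmφ := measurable_flow_path (q := q) n (l + 1) 1 x
  have i1 : HI P (fun ω => flow q (noise n (pathOf w ω)) (fun _ => 1) (r + l + 1) x) _ :=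
    ⟨h.flow_int hq n _ zero_le_one x, rfl⟩
  have i2 : HI P (fun ω => flow q (noise n (shiftP (tm n r) (pathOf w ω))) (fun _ => 1) (l + 1) x)
      _ := ⟨h.integrable_shift _ hmφ (h.flow_int hq n _ zero_le_one x), h.integral_shift _ hmφ⟩
  have i3 : HI P (fun ω => ubar q (noise n (pathOf w ω)) (r + l) x) (Gm q P w n x (r + l)) :=
    ⟨(h.ubar_int hq n _ x).1, rfl⟩
  have i4 := h.HI_ubar_shift hq n r l x
  have i5 := ((i3.sub i1).add (i4.sub i2)).add (i4.sub i3)
  refine (integral_mono (i1.1.sub i2.1).abs i5.1 fun ω => ?_).trans ?_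
  · have a1 := flow_le_ubar hq (noise_pos n (pathOf w ω)) (f := fun _ => 1) (fun _ => zero_le_one)
      (r + l) x
    have a2 := flow_le_ubar hq (noise_pos n (shiftP (tm n r) (pathOf w ω))) (f := fun _ => 1)
      (fun _ => zero_le_one) l x
    have a3 := ubar_add_le hq (noise_pos n (pathOf w ω)) r l x
    simp only [noise_shift, Pi.sub_apply] at a2 ⊢
    rw [abs_le]
    constructor <;> linarith
  · rw [i5.2]
    have an := h.Gm_anti hq n x
    have b1 := an hA
    have b2 := an (show A ≤ r + l by omega)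
    have b3 := an (show s + 1 + (r + l) ≤ B by omega)
    have b4 := an (show s + 1 + l ≤ B by omega)
    have b5 := an (show r + l ≤ B by omega)
    rw [← hK] at g1 g2
    have c1 := mul_le_mul_of_nonneg_left (show Gm q P w n x (r + l) - Gm q P w n x (s + 1 + (r + l))
      ≤ Gm q P w n x A - Gm q P w n x B by linarith) hK0
    have c2 := mul_le_mul_of_nonneg_left (show Gm q P w n x l - Gm q P w n x (s + 1 + l)
      ≤ Gm q P w n x A - Gm q P w n x B by linarith) hK0
    linarith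

end Noise

end Pool.Agent.Lib.MP_0db9b2_pr
end
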