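import Pool.Agent.Lib.MP_0db9b2_pr.Mom
import Pool.Agent.Lib.MP_0db9b2_pr.Expect

-- part Pool.Agent.Lib.MP_0db9b2_pr.Conv
section

/-
Convergence in mean of the scheme to the solution.
-/

set_option autoImplicit false

namespace Pool.Agent.Lib.MP_0db9b2_pr

open MeasureTheory ProbabilityTheory Real Filter
open scoped NNReal ENNReal Topology

variable {d : ℕ} {Ω : Type*} {mΩ : MeasurableSpace Ω}

noncomputable def Lf (k a : ℝ) (u : ℝ≥0 → Site d → Ω → ℝ) (x : Site d) (r : ℝ≥0) (ω : Ω) : ℝ :=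
  k * lap (fun y => u r y ω) x + a * u r x ω

structure Sol (P : Measure Ω) (F : Filtration ℝ≥0 mΩ) (w : Site d → ℝ≥0 → Ω → ℝ) (k a ε : ℝ)
    (b : ℕ) (u : ℝ≥0 → Site d → Ω → ℝ) : Prop where
  ad : ∀ x, Adapted F fun t => u t x
  cont : ∀ x, ∀ᵐ ω ∂P, Continuous fun t => u t x ω
  nonneg : ∀ t x, ∀ᵐ ω ∂P, 0 ≤ u t x ω
  mom : ∀ (p : ℕ) (T : ℝ≥0), ∃ C : ℝ, ∀ t ≤ T, ∀ x,
    Integrable (fun ω => |u t x ω| ^ p) P ∧ ∫ ω, |u t x ω| ^ p ∂P ≤ C
  eqn : ∀ t x, TendstoInMeasure P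
    (fun n ω => itoSum (fun s => u s x ω) (fun s => w x s ω) t n) atTop
    fun ω => Iof (fun s => u s x ω) (fun s => Lf k a u x s ω - ε * u s x ω ^ (b + 1)) t

variable {P : Measure Ω} {F : Filtration ℝ≥0 mΩ} {w : Site d → ℝ≥0 → Ω → ℝ} {k a ε : ℝ} {b : ℕ}
  {u : ℝ≥0 → Site d → Ω → ℝ}

theorem Noise.exp_sq (h : Noise P F w) (x : Site d) (s : ℝ≥0) {t : ℝ≥0} (ht : t ≤ 1)
    {Z : Ω → ℝ} (hZ : Measurable[F s] Z) (hZi : Integrable (fun ω => Z ω ^ 2) P) :
    Integrable (fun ω => (exp (w x (s + t) ω - w x s ω - t / 2) * Z ω) ^ 2) P ∧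
      ∫ ω, (exp (w x (s + t) ω - w x s ω - t / 2) * Z ω) ^ 2 ∂P ≤ 3 * ∫ ω, Z ω ^ 2 ∂P := by
  have h1 := ((HI_exp t 2).const_mul (exp (-t))).congr (g := fun y => exp (y - t / 2) ^ 2)
    (b := exp t) (fun y => by rw [← exp_add, ← exp_nat_mul]; congr 1; push_cast; ring)
    (by rw [← exp_add]; congr 1; ring)
  have h2 := h.HI_incr_mul x s t (g := fun y => exp (y - t / 2) ^ 2) (by fun_prop) h1.1
    (hZ.pow_const 2) hZi
  simp only [mul_pow]
  refine ⟨h2.1, ?_⟩
  rw [h2.2, h1.2]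
  refine mul_le_mul_of_nonneg_right ?_ (integral_nonneg fun _ => sq_nonneg _)
  have := exp_one_lt_d9
  have h3 : exp t ≤ exp 1 := exp_le_exp.2 (by exact_mod_cast ht)
  linarith

namespace Sol

theorem Lf_ad (hu : Sol P F w k a ε b u) (x : Site d) (r : ℝ≥0) :
    Measurable[F r] (Lf k a u x r) := by
  unfold Lf lap
  exact ((Finset.measurable_sum _ fun i _ => ((hu.ad _ r).sub (hu.ad _ r)).add
    ((hu.ad _ r).sub (hu.ad _ r))).const_mul _).add ((hu.ad _ r).const_mul _)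

theorem meas (hu : Sol P F w k a ε b u) (t : ℝ≥0) (x : Site d) : Measurable (u t x) :=
  (hu.ad x).measurable

theorem Lf_cont (hu : Sol P F w k a ε b u) (x : Site d) :
    ∀ᵐ ω ∂P, Continuous fun r => Lf k a u x r ω := by
  filter_upwards [ae_all_iff.2 hu.cont] with ω hω
  unfold Lf lap
  fun_prop

theorem mom_u (hu : Sol P F w k a ε b u) (T : ℝ≥0) :
    Mom P fun i : Set.Iic T × Site d => u i.1 i.2 :=
  ⟨fun _ => hu.meas _ _, fun p => (hu.mom p T).imp fun _ h i => h i.1 i.1.2 i.2⟩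

theorem mom_L [IsProbabilityMeasure P] (hu : Sol P F w k a ε b u) (T : ℝ≥0) :
    Mom P fun i : Set.Iic T × Site d => Lf k a u i.2 i.1 := by
  have h := hu.mom_u T
  exact ((Mom.sum Finset.univ fun l : Fin d =>
    ((h.comp fun i : Set.Iic T × Site d => (i.1, i.2 + Pi.single l 1)).sub h).add
    ((h.comp fun i : Set.Iic T × Site d => (i.1, i.2 - Pi.single l 1)).sub h)).const_mul k).add
    (h.const_mul a)

theorem prod_ae (h : Noise P F w) (hu : Sol P F w k a ε b u) (x : Site d) :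
    ∀ᵐ ω ∂P, ∀ n j, 0 < n → Zf (fun s => w x s ω) (tm n j) * u (tm n j) x ω =
      1 + ∫ r in (0 : ℝ)..tm n j, Zf (fun s => w x s ω) r.toNNReal *
        (Lf k a u x r.toNNReal ω - ε * u r.toNNReal x ω ^ (b + 1)) := by
  refine ae_all_iff.2 fun n => ae_all_iff.2 fun j => ?_
  rcases Nat.eq_zero_or_pos n with hn | hn
  · exact ae_of_all _ fun ω h => absurd h (by omega)
  have := h.ito_product x (U := fun s => u s x)
    (G := fun s ω => Lf k a u x s ω - ε * u s x ω ^ (b + 1)) (hu.ad x) (hu.cont x)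
    (by filter_upwards [hu.cont x, hu.Lf_cont x] with ω h1 h2; fun_prop)
    (fun t => hu.eqn t x) hn j
  exact this.mono fun ω hω _ => hω

theorem lin_nonneg_ae (hu : Sol P F w k a ε b u) : ∀ᵐ ω ∂P, ∀ n j y, 0 ≤ u (tm n j) y ω :=
  ae_all_iff.2 fun _ => ae_all_iff.2 fun _ => ae_all_iff.2 fun _ => hu.nonneg _ _

end Sol

noncomputable def ell (w : Site d → ℝ≥0 → Ω → ℝ) (k a ε : ℝ) (b : ℕ)
    (u : ℝ≥0 → Site d → Ω → ℝ) (n j : ℕ) (x : Site d) (ω : Ω) : ℝ :=
  u (tm n (j + 1)) x ω -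
    step (par d k a ε b n) (noise n (pathOf w ω) j) (fun y => u (tm n j) y ω) x

namespace Sol

theorem ell_meas (h : Noise P F w) (hu : Sol P F w k a ε b u) (n j : ℕ) (x : Site d) :
    Measurable (ell w k a ε b u n j x) :=
  (hu.meas _ _).sub (measurable_step (e := fun ω => noise n (pathOf w ω) j)
    (f := fun ω y => u (tm n j) y ω)
    (fun y => (measurable_noise n j y).comp h.meas_path) (fun _ => hu.meas _ _) x)

theorem ell_sq (h : Noise P F w) (hu : Sol P F w k a ε b u) (hk : 0 ≤ k) (hε : 0 < ε)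
    (hb : b ≠ 0) (T : ℕ) : ∃ C : ℝ, 0 ≤ C ∧ ∀ᶠ n in atTop, ∀ j < T * n, ∀ x,
      Integrable (fun ω => ell w k a ε b u n j x ω ^ 2) P ∧
        ∫ ω, ell w k a ε b u n j x ω ^ 2 ∂P ≤ C * (tm n 1 : ℝ) ^ 2 := by
  have := h.prob
  have mu := hu.mom_u T
  have mL := hu.mom_L T
  have mG := mL.sub ((mu.pow (b + 1)).const_mul ε)
  have mW := mu.abs.add mL.abs
  have mY := mG.abs.add (((mW.pow (2 * b + 1)).const_mul (b ^ 2 * ε ^ 2)).add
    ((mW.pow (b + 1)).const_mul (ε * (b + 1))))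
  obtain ⟨C1, hC1⟩ := mG.sq
  obtain ⟨C2, hC2⟩ := mY.sq
  refine ⟨6 * (|C1| + |C2|), by positivity, ?_⟩
  filter_upwards [par_good (d := d) (a := a) hk hε hb] with n ⟨hn, hq⟩ j hj x
  have a1 : tm n (j + 1) ≤ T := tm_nat hn T ▸ tm_mono n hj
  have a0 : tm n j ≤ tm n (j + 1) := tm_mono n (Nat.le_succ j)
  have a2 : tm n j ≤ T := a0.trans a1
  have hd : (tm n (j + 1) : ℝ) - tm n j = tm n 1 := by rw [tm_succ n j]; push_cast; ring
  have hδ := (tm n 1).coe_nonneg
  have hδ1 : (tm n 1 : ℝ) ≤ 1 := by exact_mod_cast tm_one_le hn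
  have mZ : ∀ t, Measurable fun ω => Zf (fun s => w x s ω) t :=
    fun t => (h.Zf_adapted x t).mono (F.le _) le_rfl
  have aG : ∀ r, Measurable[F r] fun ω => Lf k a u x r ω - ε * u r x ω ^ (b + 1) :=
    fun r => (hu.Lf_ad x r).sub (((hu.ad x r).pow_const _).const_mul _)
  have hX := int_sq_le (P := P) (f := fun r ω => Zf (fun s => w x s ω) r /
      Zf (fun s => w x s ω) (tm n (j + 1)) * (Lf k a u x r ω - ε * u r x ω ^ (b + 1)))
    (fun r => ((mZ _).div (mZ _)).mul ((aG r).mono (F.le _) le_rfl))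
    (by
      filter_upwards [hu.cont x, hu.Lf_cont x, (h.br x).cont] with ω h1 h2 h3
      have := continuous_Zf h3
      fun_prop) a0 (C := 3 * C1)
    (fun r r1 r2 => by
      obtain ⟨t, ht⟩ := exists_add_of_le r2
      have ht1 : t ≤ 1 := by
        have c1 : (tm n (j + 1) : ℝ) = r + t := by exact_mod_cast ht
        have c2 : (tm n j : ℝ) ≤ r := r1
        have : (t : ℝ) ≤ 1 := by linarith
        exact_mod_cast this
      have c3 := hC1 (⟨r, r2.trans a1⟩, x)
      have c4 := h.exp_sq x r ht1 (aG r) c3.1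
      have c5 : ∀ ω, Zf (fun s => w x s ω) r / Zf (fun s => w x s ω) (tm n (j + 1)) =
          exp (w x (r + t) ω - w x r ω - t / 2) := fun ω => by
        unfold Zf
        rw [← exp_sub, ht]; congr 1; push_cast; ring
      simp only [c5]
      exact ⟨c4.1, c4.2.trans (by linarith [c3.2])⟩)
    (X := fun ω => u (tm n (j + 1)) x ω - noise n (pathOf w ω) j x * u (tm n j) x ω)
    ((hu.meas _ _).sub (((measurable_noise n j x).comp h.meas_path).mul (hu.meas _ _)))
    (by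
      filter_upwards [hu.cont x, hu.Lf_cont x, (h.br x).cont, hu.prod_ae h x] with ω h1 h2 h3 h4
      rw [noise_eq]
      exact cell_eq (U := fun s => u s x ω)
        (G := fun s => Lf k a u x s ω - ε * u s x ω ^ (b + 1)) h3 (by fun_prop) (h4 n j hn)
        (h4 n (j + 1) hn))
  rw [hd] at hX
  let R : Ω → ℝ := fun ω => u (tm n j) x ω -
    rho (b * ε * (tm n 1 : ℝ)) b (u (tm n j) x ω + (tm n 1 : ℝ) * Lf k a u x (tm n j) ω)
  have aR : Measurable[F (tm n j)] R :=
    (hu.ad x _).sub ((measurable_rho _ _).comp ((hu.ad x _).add ((hu.Lf_ad x _).const_mul _)))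
  have c3 := hC2 (⟨tm n j, a2⟩, x)
  have bR : ∀ᵐ ω ∂P, R ω ^ 2 ≤ (tm n 1 : ℝ) ^ 2 *
      (|Lf k a u x (tm n j) ω - ε * u (tm n j) x ω ^ (b + 1)| +
        Yf ε b (|u (tm n j) x ω| + |Lf k a u x (tm n j) ω|)) ^ 2 := by
    filter_upwards [hu.lin_nonneg_ae] with ω h1
    have v0 := lin_nonneg hq (h1 n j) x
    rw [lin_par] at v0
    have c4 := loc1 hb hε.le hδ hδ1 v0
    have c5 := Yf_nonneg hε.le b (W := |u (tm n j) x ω| + |Lf k a u x (tm n j) ω|) (by positivity)
    rw [← mul_pow, ← sq_abs (R ω)]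
    refine pow_le_pow_left₀ (abs_nonneg _) ?_ 2
    have c6 : R ω = (u (tm n j) x ω + (tm n 1 : ℝ) *
        (Lf k a u x (tm n j) ω - ε * u (tm n j) x ω ^ (b + 1)) -
        rho (b * ε * (tm n 1 : ℝ)) b (u (tm n j) x ω + (tm n 1 : ℝ) * Lf k a u x (tm n j) ω)) -
        (tm n 1 : ℝ) * (Lf k a u x (tm n j) ω - ε * u (tm n j) x ω ^ (b + 1)) := by
      simp only [R]; ring
    rw [c6]
    refine (abs_sub _ _).trans ((add_le_add c4 le_rfl).trans ?_)
    rw [abs_mul, abs_of_nonneg hδ]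
    have c7 := mul_le_mul_of_nonneg_right (mul_le_mul_of_nonneg_left hδ1 hδ) c5
    unfold Lf at *
    linarith
  have iR : Integrable (fun ω => R ω ^ 2) P :=
    (c3.1.const_mul _).mono' ((aR.mono (F.le _) le_rfl).pow_const 2).aestronglyMeasurable
      (bR.mono fun ω hω => by rwa [Real.norm_of_nonneg (sq_nonneg _)])
  have jR : ∫ ω, R ω ^ 2 ∂P ≤ (tm n 1 : ℝ) ^ 2 * C2 := by
    refine (integral_mono_ae iR (c3.1.const_mul _) bR).trans ?_
    rw [integral_const_mul]
    exact mul_le_mul_of_nonneg_left c3.2 (sq_nonneg _)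
  have hE := h.exp_sq x (tm n j) (tm_one_le hn) aR iR
  have k1 : HI P _ _ := ⟨hX.1, rfl⟩
  have k2 : HI P _ _ := ⟨hE.1, rfl⟩
  have k3 := (k1.const_mul 2).add (k2.const_mul 2)
  have k4 : ∀ ω, ell w k a ε b u n j x ω ^ 2 ≤
      2 * (u (tm n (j + 1)) x ω - noise n (pathOf w ω) j x * u (tm n j) x ω) ^ 2 +
      2 * (exp (w x (tm n j + tm n 1) ω - w x (tm n j) ω - (tm n 1 : ℝ) / 2) * R ω) ^ 2 := by
    intro ω
    have : ell w k a ε b u n j x ω =
        (u (tm n (j + 1)) x ω - noise n (pathOf w ω) j x * u (tm n j) x ω) +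
        exp (w x (tm n j + tm n 1) ω - w x (tm n j) ω - (tm n 1 : ℝ) / 2) * R ω := by
      simp only [ell, step, lin_par, R, noise, pathOf, Lf]
      simp only [par]
      ring
    rw [this]
    nlinarith [sq_nonneg ((u (tm n (j + 1)) x ω - noise n (pathOf w ω) j x * u (tm n j) x ω) -
        exp (w x (tm n j + tm n 1) ω - w x (tm n j) ω - (tm n 1 : ℝ) / 2) * R ω)]
  have k5 : Integrable (fun ω => ell w k a ε b u n j x ω ^ 2) P :=
    k3.1.mono' ((hu.ell_meas h n j x).pow_const 2).aestronglyMeasurable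
      (ae_of_all _ fun ω => by rw [Real.norm_of_nonneg (sq_nonneg _)]; exact k4 ω)
  refine ⟨k5, (integral_mono k5 k3.1 k4).trans ?_⟩
  rw [k3.2]
  have k6 := mul_le_mul_of_nonneg_left (le_abs_self C1) (sq_nonneg (tm n 1 : ℝ))
  have k7 := mul_le_mul_of_nonneg_left (le_abs_self C2) (sq_nonneg (tm n 1 : ℝ))
  linarith [hX.2, hE.2]

theorem ell_sum (h : Noise P F w) (hu : Sol P F w k a ε b u) (hk : 0 ≤ k) (hε : 0 < ε)
    (hb : b ≠ 0) (T : ℕ) (x : Site d) {η : ℝ} (hη : 0 < η) : ∀ᶠ n in atTop,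
      ∑ j ∈ Finset.range (T * n), ∫ ω, |ell w k a ε b u n j x ω| ∂P ≤ η := by
  have := h.prob
  obtain ⟨C, hC0, hC⟩ := hu.ell_sq h hk hε hb T
  have h1 := L1_of_ae (P := P)
    (X := fun n ω => ∑ j ∈ Finset.range (T * n), |ell w k a ε b u n j x ω|)
    (fun n => Finset.measurable_sum _ fun j _ => (hu.ell_meas h n j x).abs) (C := T ^ 2 * C)
    (by
      filter_upwards [hC, eventually_gt_atTop 0] with n h2 hn
      have k1 := (HI.sum (P := P) (Finset.range (T * n))
        (f := fun j ω => ell w k a ε b u n j x ω ^ 2)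
        fun j hj => ⟨(h2 j (Finset.mem_range.1 hj) x).1, rfl⟩).const_mul ((T * n : ℕ) : ℝ)
      have k2 : ∀ ω, (∑ j ∈ Finset.range (T * n), |ell w k a ε b u n j x ω|) ^ 2 ≤
          ((T * n : ℕ) : ℝ) * ∑ j ∈ Finset.range (T * n), ell w k a ε b u n j x ω ^ 2 := by
        intro ω
        simpa using sq_sum_le_card_mul_sum_sq (s := Finset.range (T * n))
          (f := fun j => |ell w k a ε b u n j x ω|)
      have k3 : Integrable
          (fun ω => (∑ j ∈ Finset.range (T * n), |ell w k a ε b u n j x ω|) ^ 2) P :=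
        k1.1.mono' ((Finset.measurable_sum _ fun j _ =>
          (hu.ell_meas h n j x).abs).pow_const 2).aestronglyMeasurable
          (ae_of_all _ fun ω => by rw [Real.norm_of_nonneg (sq_nonneg _)]; exact k2 ω)
      refine ⟨k3, (integral_mono k3 k1.1 k2).trans ?_⟩
      rw [k1.2]
      refine (mul_le_mul_of_nonneg_left (Finset.sum_le_sum fun j hj =>
        (h2 j (Finset.mem_range.1 hj) x).2) (Nat.cast_nonneg _)).trans (le_of_eq ?_)
      have k4 := count_mul_mesh n (T * n)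
      rw [tm_nat hn, NNReal.coe_natCast] at k4
      rw [Finset.sum_const, Finset.card_range, nsmul_eq_mul, ← k4]; ring)
    (by
      filter_upwards [hu.cont x, hu.Lf_cont x, (h.br x).cont, hu.prod_ae h x, hu.lin_nonneg_ae]
        with ω h1 h2 h3 h4 h5
      have hv : ∀ᶠ n in atTop, ∀ j,
          0 ≤ u (tm n j) x ω + (tm n 1 : ℝ) * Lf k a u x (tm n j) ω := by
        filter_upwards [par_good (d := d) (a := a) hk hε hb] with n ⟨_, hq⟩ j
        have v0 := lin_nonneg hq (h5 n j) x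
        rwa [lin_par] at v0
      refine Metric.tendsto_nhds.2 fun η hη => ?_
      filter_upwards [loc_small hb hε.le h3 h1 h2 h4 hv T (η := η / 2 / (T + 1)) (by positivity),
        eventually_gt_atTop 0] with n h6 hn
      rw [Real.dist_eq, sub_zero, abs_of_nonneg (Finset.sum_nonneg fun _ _ => abs_nonneg _)]
      refine (Finset.sum_le_sum (g := fun _ => η / 2 / (T + 1) * (tm n 1 : ℝ))
        fun j hj => ?_).trans_lt ?_
      · have := h6 j (Finset.mem_range.1 hj)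
        simp only [ell, step, lin_par, noise_eq]
        exact this
      · have k4 := count_mul_mesh n (T * n)
        rw [tm_nat hn, NNReal.coe_natCast] at k4
        rw [Finset.sum_const, Finset.card_range, nsmul_eq_mul, mul_left_comm, k4]
        have : η / 2 / (T + 1) * (T + 1) = η / 2 := by field_simp
        have : 0 < η / 2 / (T + 1) := by positivity
        linarith) hη
  filter_upwards [h1, hC] with n h2 h3
  have k1 := HI.sum (P := P) (Finset.range (T * n))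
    (f := fun j ω => |ell w k a ε b u n j x ω|) fun j hj =>
      ⟨(integrable_of_sq (hu.ell_meas h n j x) (h3 j (Finset.mem_range.1 hj) x).1).abs, rfl⟩
  rw [← k1.2]
  refine le_trans (le_of_eq ?_) h2
  exact integral_congr_ae (ae_of_all _ fun ω =>
    (abs_of_nonneg (Finset.sum_nonneg fun _ _ => abs_nonneg _)).symm)

theorem int_u (h : Noise P F w) (hu : Sol P F w k a ε b u) (t : ℝ≥0) (x : Site d) :
    Integrable (u t x) P := by
  have := h.prob
  obtain ⟨C, hC⟩ := (hu.mom_u t).sq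
  exact integrable_of_sq (hu.meas t x) (hC (⟨t, Set.mem_Iic.2 le_rfl⟩, x)).1

theorem conv (h : Noise P F w) (hu : Sol P F w k a ε b u) (hk : 0 ≤ k) (hε : 0 < ε)
    (hb : b ≠ 0) (T : ℕ) (x : Site d) {η : ℝ} (hη : 0 < η) : ∀ᶠ n in atTop, ∀ j ≤ T * n,
      ∫ ω, |u (tm n j) x ω - flow (par d k a ε b n) (noise n (pathOf w ω)) (fun _ => 1) j x| ∂P
        ≤ η := by
  have := h.prob
  obtain ⟨C, hC0, hC⟩ := hu.ell_sq h hk hε hb T
  refine gronwall (k := k) (a := a) (ε := ε) (b := b) hk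
    (e := fun n j x => ∫ ω, |u (tm n j) x ω -
      flow (par d k a ε b n) (noise n (pathOf w ω)) (fun _ => 1) j x| ∂P)
    (l := fun n j x => ∫ ω, |ell w k a ε b u n j x ω| ∂P) T (C := 1 + C) (by positivity)
    (fun n x => le_of_eq ?_) (fun n j x => integral_nonneg fun _ => abs_nonneg _)
    (fun n j x => integral_nonneg fun _ => abs_nonneg _) ?_ ?_
    (fun x η hη => hu.ell_sum h hk hε hb T x hη) x hη
  · refine integral_eq_zero_of_ae ?_
    filter_upwards [hu.prod_ae h x, (h.br x).eval_zero_ae_eq_zero] with ω h1 h2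
    have h3 := h1 1 0 one_pos
    simp only [tm_zero, Zf, h2, NNReal.coe_zero, intervalIntegral.integral_same] at h3
    simp only [tm_zero, flow]
    simpa [sub_eq_zero] using h3
  · filter_upwards [hC, par_good (d := d) (a := a) hk hε hb] with n h1 ⟨hn, hq⟩ j hj x
    set q := par d k a ε b n
    let Z : Ω → Site d → ℝ := fun ω y =>
      |u (tm n j) y ω - flow q (noise n (pathOf w ω)) (fun _ => 1) j y|
    have iZ : ∀ y, Integrable (fun ω => Z ω y) P := fun y =>
      ((hu.int_u h _ y).sub (h.flow_int hq n j zero_le_one y)).abs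
    have aZ : ∀ y, Measurable[F (tm n j)] fun ω => Z ω y := fun y =>
      continuous_abs.measurable.comp ((hu.ad y _).sub (h.flow_adapted n j 1 y))
    have k1 := HI_lin (q := q) iZ x
    have k2 := h.HI_noise_mul n j x (@measurable_lin d q Ω (F (tm n j)) Z aZ x) k1.1
    rw [k1.2] at k2
    have k3 : HI P (fun ω => |ell w k a ε b u n j x ω|) _ :=
      ⟨(integrable_of_sq (hu.ell_meas h n j x) (h1 j hj x).1).abs, rfl⟩
    have k4 := k2.add k3
    rw [← k4.2]
    refine integral_mono_ae ((hu.int_u h _ x).sub (h.flow_int hq n _ zero_le_one x)).abs k4.1 ?_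
    filter_upwards [hu.lin_nonneg_ae] with ω h2
    have c1 := rho_lipschitz hq.c_pos.le hq.b_ne (lin_nonneg hq (h2 n j) x)
      (lin_nonneg hq (flow_nonneg hq (noise_pos n (pathOf w ω)) (fun _ => zero_le_one) j) x)
    have c2 := c1.trans (lin_abs_sub hq _ _ x)
    have c3 := mul_le_mul_of_nonneg_left c2 (noise_pos n (pathOf w ω) j x).le
    have c4 : u (tm n (j + 1)) x ω - flow q (noise n (pathOf w ω)) (fun _ => 1) (j + 1) x =
        noise n (pathOf w ω) j x * (rho q.c q.b (lin q (fun y => u (tm n j) y ω) x) -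
          rho q.c q.b (lin q (flow q (noise n (pathOf w ω)) (fun _ => 1) j) x)) +
        ell w k a ε b u n j x ω := by
      simp only [ell, flow, step, q]; ring
    show |_| ≤ _
    rw [c4]
    refine (abs_add_le _ _).trans (add_le_add ?_ le_rfl)
    rw [abs_mul, abs_of_pos (noise_pos n _ j x)]
    exact c3
  · filter_upwards [hC, eventually_gt_atTop 0] with n h1 hn j hj x
    have hδ := tm_one_pos hn
    have k1 : HI P (fun ω => ell w k a ε b u n j x ω ^ 2) _ := ⟨(h1 j hj x).1, rfl⟩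
    have k2 := (HI.const (μ := P) (tm n 1 : ℝ)).add (k1.const_mul (1 / tm n 1))
    refine (integral_mono (integrable_of_sq (hu.ell_meas h n j x) (h1 j hj x).1).abs k2.1
      fun ω => ?_).trans ?_
    · have b2 : (tm n 1 : ℝ) + 1 / tm n 1 * ell w k a ε b u n j x ω ^ 2 -
          2 * |ell w k a ε b u n j x ω| =
          1 / tm n 1 * (tm n 1 - |ell w k a ε b u n j x ω|) ^ 2 := by
        rw [← sq_abs (ell w k a ε b u n j x ω)]; field_simp; ring
      have b3 : 0 ≤ 1 / (tm n 1 : ℝ) * (tm n 1 - |ell w k a ε b u n j x ω|) ^ 2 := by positivity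
      have := abs_nonneg (ell w k a ε b u n j x ω)
      show _ ≤ _
      linarith
    · rw [k2.2]
      have b1 := mul_le_mul_of_nonneg_left (h1 j hj x).2 (show 0 ≤ 1 / (tm n 1 : ℝ) by positivity)
      have b2 : 1 / (tm n 1 : ℝ) * (C * (tm n 1 : ℝ) ^ 2) = C * tm n 1 := by field_simp
      linarith

theorem time_cont (h : Noise P F w) (hu : Sol P F w k a ε b u) (x : Site d) {s : ℕ → ℝ≥0}
    {t : ℝ≥0} (hs : Tendsto s atTop (𝓝 t)) {η : ℝ} (hη : 0 < η) :
    ∀ᶠ n in atTop, ∫ ω, |u (s n) x ω - u t x ω| ∂P ≤ η := by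
  have := h.prob
  have mu := hu.mom_u (t + 1)
  obtain ⟨C, hC⟩ := ((mu.comp fun r : Set.Iic (t + 1) => (r, x)).sub
    (mu.comp fun _ : Set.Iic (t + 1) => (⟨t, Set.mem_Iic.2 le_self_add⟩, x))).sq
  refine L1_of_ae (P := P) (X := fun n ω => u (s n) x ω - u t x ω)
    (fun n => (hu.meas _ _).sub (hu.meas _ _)) (C := C) ?_ ?_ hη
  · filter_upwards [hs.eventually_le_const (lt_add_one t)] with n hn
    exact hC ⟨s n, hn⟩
  · filter_upwards [hu.cont x] with ω hω
    simpa using ((hω.tendsto t).comp hs).sub_const (u t x ω)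

end Sol

end Pool.Agent.Lib.MP_0db9b2_pr
end

-- part Pool.Agent.Lib.MP_0db9b2_pr.ExDet
section

/-
Deterministic tools for the construction of the solution.
-/

set_option autoImplicit false

namespace Pool.Agent.Lib.MP_0db9b2_pr

open MeasureTheory Real Filter
open scoped NNReal ENNReal Topology

noncomputable def In (g : ℝ≥0 → ℝ) (t : ℝ≥0) : ℝ := ∫ r in (0 : ℝ)..t, g r.toNNReal

noncomputable def tg (t : ℝ≥0) (n i : ℕ) : ℝ≥0 := t * i / n

theorem tg_succ (t : ℝ≥0) (n i : ℕ) : tg t n (i + 1) = tg t n i + t / n := by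
  unfold tg; push_cast; ring

theorem tg_mono (t : ℝ≥0) (n : ℕ) {i j : ℕ} (h : i ≤ j) : tg t n i ≤ tg t n j := by
  unfold tg; gcongr

theorem tg_self (t : ℝ≥0) {n : ℕ} (hn : 0 < n) : tg t n n = t := by
  have : (n : ℝ≥0) ≠ 0 := by exact_mod_cast hn.ne'
  unfold tg; field_simp

theorem tg_le (t : ℝ≥0) {n i : ℕ} (h : i ≤ n) : tg t n i ≤ t := by
  rcases Nat.eq_zero_or_pos n with hn | hn
  · simp [tg, hn]
  · exact (tg_mono t n h).trans (tg_self t hn).le

theorem tg_zero (t : ℝ≥0) (n : ℕ) : tg t n 0 = 0 := by simp [tg]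

theorem tendsto_tg_mesh (t : ℝ≥0) : Tendsto (fun n : ℕ => ((t / n : ℝ≥0) : ℝ)) atTop (𝓝 0) := by
  push_cast
  exact tendsto_const_div_atTop_nhds_zero_nat _

theorem sum_cells {g : ℝ≥0 → ℝ} (hg : Continuous g) (t : ℝ≥0) {n : ℕ} (hn : 0 < n) :
    ∑ j ∈ Finset.range n, ∫ r in (tg t n j : ℝ)..tg t n (j + 1), g r.toNNReal = In g t := by
  have h1 := intervalIntegral.sum_integral_adjacent_intervals (μ := volume)
    (f := fun r : ℝ => g r.toNNReal) (a := fun j => (tg t n j : ℝ)) (n := n)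
    fun _ _ => intInt hg _ _
  simpa only [tg_zero, NNReal.coe_zero, tg_self t hn, In] using h1

theorem cells_small (t : ℝ≥0) {φ : ℝ≥0 → ℝ≥0 → ℝ≥0 → ℝ}
    (h : ∀ η : ℝ, 0 < η → ∃ δ : ℝ, 0 < δ ∧ ∀ s s' r : ℝ≥0, s ≤ t → s' ≤ t → r ≤ t →
      |(r : ℝ) - s| ≤ δ → |(s' : ℝ) - r| ≤ δ → |φ s s' r| ≤ η) :
    Tendsto (fun n : ℕ => ∑ j ∈ Finset.range n,
      ∫ r in (tg t n j : ℝ)..tg t n (j + 1), φ (tg t n j) (tg t n (j + 1)) r.toNNReal)
      atTop (𝓝 0) := by
  refine Metric.tendsto_nhds.2 fun η hη => ?_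
  have ht := t.coe_nonneg
  obtain ⟨δ, hδ, hu⟩ := h (η / (t + 1)) (by positivity)
  filter_upwards [(tendsto_tg_mesh t).eventually_le_const hδ, eventually_gt_atTop 0] with n q hn
  rw [Real.dist_eq, sub_zero]
  have h0 := (t / n : ℝ≥0).coe_nonneg
  refine ((Finset.abs_sum_le_sum_abs _ _).trans (Finset.sum_le_sum
    (g := fun _ => η / (t + 1) * ((t / n : ℝ≥0) : ℝ)) fun j hj => ?_)).trans_lt ?_
  · have hj' := Finset.mem_range.1 hj
    have e : (tg t n (j + 1) : ℝ) = tg t n j + ((t / n : ℝ≥0) : ℝ) := by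
      rw [tg_succ, NNReal.coe_add]
    rw [← Real.norm_eq_abs]
    refine (intervalIntegral.norm_integral_le_of_norm_le_const (C := η / (t + 1))
      fun r hr => ?_).trans (by rw [e, add_sub_cancel_left, abs_of_nonneg h0])
    rw [Set.uIoc_of_le (by linarith)] at hr
    have r0 : 0 ≤ r := (tg t n j).coe_nonneg.trans hr.1.le
    have r1 := hr.1
    have r2 := hr.2
    refine hu _ _ _ (tg_le t hj'.le) (tg_le t hj')
      ((Real.toNNReal_le_iff_le_coe.2 r2).trans (tg_le t hj')) ?_ ?_ <;>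
    · rw [Real.coe_toNNReal r r0, abs_le]; constructor <;> linarith
  · rw [Finset.sum_const, Finset.card_range, nsmul_eq_mul]
    have hn' : (0 : ℝ) < n := by exact_mod_cast hn
    have e : (n : ℝ) * (η / (t + 1) * ((t / n : ℝ≥0) : ℝ)) = η * (t / (t + 1)) := by
      push_cast; field_simp
    rw [e]
    exact mul_lt_of_lt_one_right hη ((div_lt_one (by positivity)).2 (by linarith))

/-- lower limit of Riemann sums -/
noncomputable def RI (g : ℝ≥0 → ℝ) (t : ℝ≥0) : ℝ :=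
  liminf (fun n : ℕ => ∑ i ∈ Finset.range n, g (tg t n i) * ((t / n : ℝ≥0) : ℝ)) atTop

theorem RI_eq {g : ℝ≥0 → ℝ} (hg : Continuous g) (t : ℝ≥0) : RI g t = In g t := by
  refine Tendsto.liminf_eq ?_
  have h1 := cells_small t (φ := fun s _ r => g s - g r) fun η hη => by
    obtain ⟨δ, hδ, hu⟩ := unif_cont hg t hη
    exact ⟨δ, hδ, fun s s' r h1 _ h3 h4 _ => hu s r h1 h3 (by rwa [abs_sub_comm])⟩
  have h2 := h1.add_const (In g t)
  rw [zero_add] at h2
  refine h2.congr' ?_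
  filter_upwards [eventually_gt_atTop 0] with n hn
  rw [← sum_cells hg t hn, ← Finset.sum_add_distrib]
  refine Finset.sum_congr rfl fun j _ => ?_
  rw [intervalIntegral.integral_sub intervalIntegrable_const (intInt hg _ _),
    intervalIntegral.integral_const, tg_succ, NNReal.coe_add, smul_eq_mul]
  ring

theorem RI_adapted {Ω : Type*} {mΩ : MeasurableSpace Ω} {F : Filtration ℝ≥0 mΩ}
    {f : ℝ≥0 → Ω → ℝ} (hf : Adapted F f) : Adapted F fun t ω => RI (fun s => f s ω) t :=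
  fun t => Measurable.liminf fun _ => Finset.measurable_sum _ fun _ hi =>
    (hf.measurable_le (tg_le t (Finset.mem_range.1 hi).le)).mul_const _

theorem In_hasDerivAt {g : ℝ≥0 → ℝ} (hg : Continuous g) (r : ℝ) :
    HasDerivAt (fun u => ∫ x in (0 : ℝ)..u, g x.toNNReal) (g r.toNNReal) r :=
  ((hg.comp continuous_real_toNNReal).integral_hasStrictDerivAt 0 r).hasDerivAt

theorem continuous_In {g : ℝ≥0 → ℝ} (hg : Continuous g) : Continuous (In g) :=
  (continuous_iff_continuousAt.2 fun r => (In_hasDerivAt hg r).continuousAt).comp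
    NNReal.continuous_coe

theorem In_mono {g g' : ℝ≥0 → ℝ} (hg : Continuous g) (hg' : Continuous g') {t : ℝ≥0}
    (h : ∀ s ≤ t, g s ≤ g' s) : In g t ≤ In g' t :=
  intervalIntegral.integral_mono_on t.coe_nonneg (intInt hg _ _) (intInt hg' _ _)
    fun _ hr => h _ (Real.toNNReal_le_iff_le_coe.2 hr.2)

theorem In_nonneg {g : ℝ≥0 → ℝ} (h : ∀ s, 0 ≤ g s) (t : ℝ≥0) : 0 ≤ In g t :=
  intervalIntegral.integral_nonneg t.coe_nonneg fun _ _ => h _

theorem In_sub_In {g : ℝ≥0 → ℝ} (hg : Continuous g) (s t : ℝ≥0) :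
    In g t - In g s = ∫ r in (s : ℝ)..t, g r.toNNReal :=
  intervalIntegral.integral_interval_sub_left (intInt hg 0 t) (intInt hg 0 s)

theorem In_mono_time {g : ℝ≥0 → ℝ} (hg : Continuous g) (h : ∀ s, 0 ≤ g s) {s t : ℝ≥0}
    (hst : s ≤ t) : In g s ≤ In g t := by
  have h1 := In_sub_In hg s t
  have h2 : 0 ≤ ∫ r in (s : ℝ)..t, g r.toNNReal :=
    intervalIntegral.integral_nonneg hst fun _ _ => h _
  linarith

theorem exp_prod {V g lam : ℝ≥0 → ℝ} (hg : Continuous g) (hl : Continuous lam)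
    (hV : ∀ t, V t = 1 + In g t) (t : ℝ≥0) :
    exp (In lam t) * V t = 1 + In (fun r => exp (In lam r) * (lam r * V r + g r)) t := by
  have hVc : Continuous V := by
    rw [funext hV]; exact continuous_const.add (continuous_In hg)
  have hIc := continuous_In hl
  have hc : Continuous fun r => exp (In lam r) * (lam r * V r + g r) := by fun_prop
  have h1 := intervalIntegral.integral_eq_sub_of_hasDerivAt (a := 0) (b := t)
    (f := fun u => exp (∫ x in (0 : ℝ)..u, lam x.toNNReal) * (1 + ∫ x in (0 : ℝ)..u, g x.toNNReal))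
    (f' := fun r => exp (In lam r.toNNReal) * (lam r.toNNReal * V r.toNNReal + g r.toNNReal))
    (fun r hr => by
      rw [Set.uIcc_of_le t.coe_nonneg] at hr
      have := ((In_hasDerivAt hl r).exp).mul ((In_hasDerivAt hg r).const_add 1)
      refine this.congr_deriv ?_
      rw [hV]
      simp only [In, Real.coe_toNNReal r hr.1]
      ring) (intInt hc _ _)
  simp only [intervalIntegral.integral_same, exp_zero, add_zero, mul_one] at h1
  rw [hV]
  unfold In at *
  linarith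

theorem fix_limit {V φ : ℕ → ℝ≥0 → ℝ} {W ψ : ℝ≥0 → ℝ} (hφ : ∀ m, Continuous (φ m))
    (hV : ∀ m t, V m t = 1 + In (φ m) t) (hψ : ∀ s, Tendsto (fun m => φ m s) atTop (𝓝 (ψ s)))
    (hb : ∀ T : ℝ≥0, ∃ K : ℝ, ∀ m, ∀ s ≤ T, |φ m s| ≤ K)
    (hW : ∀ t, Tendsto (fun m => V m t) atTop (𝓝 (W t))) :
    Continuous W ∧ ∀ t, W t = 1 + In ψ t := by
  constructor
  · refine continuous_iff_continuousAt.2 fun t => ?_
    obtain ⟨K, hK⟩ := hb (t + 1)
    refine continuousAt_of_locally_lipschitz one_pos K fun s hs => ?_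
    refine le_of_tendsto' ((hW s).dist (hW t)) fun m => ?_
    rw [Real.dist_eq, hV, hV, add_sub_add_left_eq_sub, In_sub_In (hφ m), ← Real.norm_eq_abs,
      NNReal.dist_eq]
    refine intervalIntegral.norm_integral_le_of_norm_le_const fun r hr => hK m _ ?_
    rw [NNReal.dist_eq, abs_lt] at hs
    refine Real.toNNReal_le_iff_le_coe.2 (hr.2.trans (max_le ?_ ?_)) <;> push_cast <;> linarith
  · intro t
    obtain ⟨K, hK⟩ := hb t
    have h1 := intervalIntegral.tendsto_integral_filter_of_dominated_convergence (μ := volume)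
      (a := 0) (b := t) (l := atTop) (F := fun m r => φ m r.toNNReal)
      (f := fun r => ψ r.toNNReal) (fun _ => K)
      (Eventually.of_forall fun m =>
        ((hφ m).comp continuous_real_toNNReal).aestronglyMeasurable)
      (Eventually.of_forall fun m => ae_of_all _ fun r hr => hK m _ (by
        rw [Set.uIoc_of_le t.coe_nonneg] at hr
        exact Real.toNNReal_le_iff_le_coe.2 hr.2))
      intervalIntegrable_const (ae_of_all _ fun r _ => hψ _)
    refine tendsto_nhds_unique (hW t) ?_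
    simp_rw [hV]
    exact h1.const_add 1

theorem pow_In_le {g : ℝ≥0 → ℝ} (hg : Continuous g) (p : ℕ) (t : ℝ≥0) :
    |In g t| ^ (p + 1) ≤ (t : ℝ) ^ p * In (fun r => |g r| ^ (p + 1)) t := by
  rcases t.coe_nonneg.eq_or_lt with h | h
  · simp [In, ← h]
  have h1 : |In g t| ≤ In (fun r => |g r|) t :=
    intervalIntegral.abs_integral_le_integral_abs t.coe_nonneg
  refine (pow_le_pow_left₀ (abs_nonneg _) h1 _).trans ?_
  have h0 : 0 ≤ In (fun r => |g r|) t := In_nonneg (fun _ => abs_nonneg _) t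
  set I := In (fun r => |g r|) t with hI
  have h2 : In (fun r => (I / t) ^ (p + 1) + (p + 1) * (I / t) ^ p * (|g r| - I / t)) t ≤
      In (fun r => |g r| ^ (p + 1)) t := by
    refine In_mono (by fun_prop) (by fun_prop) fun s _ => ?_
    have hm : 0 ≤ I / t := by positivity
    rcases hm.eq_or_lt with e | e
    · rw [← e]
      rcases p with _ | p
      · simp
      · simp
    · have h3 := one_add_mul_le_pow (a := (|g s| - I / t) / (I / t)) (by
        rw [le_div_iff₀ e]; linarith [abs_nonneg (g s)]) (p + 1)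
      have h4 := mul_le_mul_of_nonneg_left h3 (pow_nonneg hm (p + 1))
      rw [← mul_pow] at h4
      have e1 : I / t * (1 + (|g s| - I / t) / (I / t)) = |g s| := by
        rw [mul_add, mul_div_cancel₀ _ e.ne']; ring
      have e2 : (I / t) ^ (p + 1) * (1 + ((p + 1 : ℕ) : ℝ) * ((|g s| - I / t) / (I / t))) =
          (I / t) ^ (p + 1) + (p + 1) * (I / t) ^ p * (|g s| - I / t) := by
        generalize I / t = m at e
        rw [pow_succ]; push_cast; field_simp
      rwa [e1, e2] at h4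
  have h3 : In (fun r => (I / t) ^ (p + 1) + (p + 1) * (I / t) ^ p * (|g r| - I / t)) t =
      t * (I / t) ^ (p + 1) := by
    unfold In
    rw [intervalIntegral.integral_add intervalIntegrable_const
      (intInt (G := fun r => (p + 1) * (I / t) ^ p * (|g r| - I / t)) (by fun_prop) _ _),
      intervalIntegral.integral_const_mul,
      intervalIntegral.integral_sub (intInt hg.abs _ _) intervalIntegrable_const]
    have : ∫ r in (0 : ℝ)..t, |g r.toNNReal| = I := rfl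
    rw [this]
    simp only [intervalIntegral.integral_const, sub_zero, smul_eq_mul]
    rw [mul_div_cancel₀ _ h.ne', sub_self, mul_zero, add_zero]
  rw [h3] at h2
  refine le_trans (le_of_eq ?_) (mul_le_mul_of_nonneg_left h2 (pow_nonneg h.le p))
  rw [div_pow, pow_succ (t : ℝ)]; field_simp

end Pool.Agent.Lib.MP_0db9b2_pr
end

-- part Pool.Agent.Lib.MP_0db9b2_pr.ExPath
section

/-
Pathwise construction of the solution by two monotone iterations.
-/

set_option autoImplicit false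

namespace Pool.Agent.Lib.MP_0db9b2_pr

open MeasureTheory Real Filter
open scoped NNReal ENNReal Topology

variable {d : ℕ}

noncomputable def itr (Y : Site d → ℝ≥0 → ℝ) (Φ : ℝ≥0 → (Site d → ℝ) → Site d → ℝ)
    (f : ℝ≥0 → Site d → ℝ) (t : ℝ≥0) (x : Site d) : ℝ :=
  (1 + RI (fun s => Y x s * Φ s (f s) x) t) / Y x t

def q0 (k a : ℝ) : Par := ⟨|a| + 1, k, 1, 1⟩

def q1 (k a : ℝ) : Par := ⟨a + |a| + 1, k, 1, 1⟩

theorem q0_good {k : ℝ} (hk : 0 ≤ k) (a : ℝ) : (q0 k a).Good :=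
  ⟨by show 0 < |a| + 1; positivity, hk, one_pos, one_ne_zero⟩

theorem q1_good {k : ℝ} (hk : 0 ≤ k) (a : ℝ) : (q1 k a).Good :=
  ⟨by show 0 < a + |a| + 1; linarith [neg_abs_le a], hk, one_pos, one_ne_zero⟩

noncomputable def sm (k a : ℝ) (ϖ : Path d) : ℕ → ℝ≥0 → Site d → ℝ
  | 0 => fun _ _ => 0
  | m + 1 => itr (fun x => Zf (ϖ x)) (fun _ => lin (q0 k a)) (sm k a ϖ m)

noncomputable def ub (k a : ℝ) (ϖ : Path d) (t : ℝ≥0) (x : Site d) : ℝ := ⨆ m, sm k a ϖ m t x

noncomputable def lam (k a ε : ℝ) (b : ℕ) (ϖ : Path d) (x : Site d) (s : ℝ≥0) : ℝ :=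
  ε * ((b + 1) * ub k a ϖ s x ^ b) + (2 * d * k + |a| + 1)

noncomputable def Yw (k a ε : ℝ) (b : ℕ) (ϖ : Path d) (x : Site d) (t : ℝ≥0) : ℝ :=
  exp (RI (lam k a ε b ϖ x) t) * Zf (ϖ x) t

noncomputable def Hf (k a ε : ℝ) (b : ℕ) (ϖ : Path d) (s : ℝ≥0) (f : Site d → ℝ) (x : Site d) :
    ℝ := lin (q1 k a) f x + ε * ((b + 1) * ub k a ϖ s x ^ b * f x - f x ^ (b + 1))

noncomputable def um (k a ε : ℝ) (b : ℕ) (ϖ : Path d) : ℕ → ℝ≥0 → Site d → ℝ
  | 0 => ub k a ϖ
  | m + 1 => itr (Yw k a ε b ϖ) (Hf k a ε b ϖ) (um k a ε b ϖ m)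

noncomputable def uu (k a ε : ℝ) (b : ℕ) (ϖ : Path d) (t : ℝ≥0) (x : Site d) : ℝ :=
  ⨅ m, um k a ε b ϖ m t x

section

variable {Y : Site d → ℝ≥0 → ℝ} {Φ : ℝ≥0 → (Site d → ℝ) → Site d → ℝ} {f : ℝ≥0 → Site d → ℝ}
  {x : Site d}

theorem itr_eq (hY : Continuous (Y x)) (hY0 : ∀ t, 0 < Y x t)
    (hc : Continuous fun s => Φ s (f s) x) (t : ℝ≥0) :
    Y x t * itr Y Φ f t x = 1 + In (fun s => Y x s * Φ s (f s) x) t := by
  unfold itr
  rw [RI_eq (g := fun s => Y x s * Φ s (f s) x) (hY.mul hc), mul_div_cancel₀ _ (hY0 t).ne']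

theorem cont_of_mul {Z W g : ℝ≥0 → ℝ} (hZ : Continuous Z) (hZ0 : ∀ t, 0 < Z t) (hW : Continuous W)
    (h : ∀ t, Z t * g t = W t) : Continuous g := by
  have : g = fun t => W t / Z t := funext fun t => by
    rw [← h, mul_div_cancel_left₀ _ (hZ0 t).ne']
  rw [this]
  exact hW.div hZ fun t => (hZ0 t).ne'

theorem itr_cont (hY : Continuous (Y x)) (hY0 : ∀ t, 0 < Y x t)
    (hc : Continuous fun s => Φ s (f s) x) : Continuous fun t => itr Y Φ f t x :=
  cont_of_mul hY hY0 (continuous_const.add (continuous_In (hY.mul hc))) (itr_eq hY hY0 hc)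

theorem itr_nonneg (hY : Continuous (Y x)) (hY0 : ∀ t, 0 < Y x t)
    (hc : Continuous fun s => Φ s (f s) x) (h0 : ∀ s, 0 ≤ Φ s (f s) x) (t : ℝ≥0) :
    0 ≤ itr Y Φ f t x := by
  refine le_of_mul_le_mul_left ?_ (hY0 t)
  rw [itr_eq hY hY0 hc, mul_zero]
  exact add_nonneg zero_le_one (In_nonneg (fun s => mul_nonneg (hY0 s).le (h0 s)) t)

theorem itr_mono {g : ℝ≥0 → Site d → ℝ} (hY : Continuous (Y x)) (hY0 : ∀ t, 0 < Y x t)
    (hc : Continuous fun s => Φ s (f s) x) (hc' : Continuous fun s => Φ s (g s) x)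
    (h0 : ∀ s, Φ s (f s) x ≤ Φ s (g s) x) (t : ℝ≥0) : itr Y Φ f t x ≤ itr Y Φ g t x := by
  refine le_of_mul_le_mul_left ?_ (hY0 t)
  rw [itr_eq hY hY0 hc, itr_eq hY hY0 hc']
  exact add_le_add le_rfl (In_mono (hY.mul hc) (hY.mul hc')
    fun s _ => mul_le_mul_of_nonneg_left (h0 s) (hY0 s).le)

theorem lin_cont (q : Par) (hf : ∀ y, Continuous fun s => f s y) (x : Site d) :
    Continuous fun s => lin q (f s) x := by
  unfold lin; fun_prop

theorem lin_tendsto (q : Par) {g : ℕ → Site d → ℝ} {g' : Site d → ℝ}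
    (h : ∀ y, Tendsto (fun m => g m y) atTop (𝓝 (g' y))) (x : Site d) :
    Tendsto (fun m => lin q (g m) x) atTop (𝓝 (lin q g' x)) :=
  ((h x).const_mul _).add ((tendsto_finsetSum _ fun _ _ => (h _).add (h _)).const_mul _)

end

variable {k a ε : ℝ} {b : ℕ} {ϖ : Path d}

theorem sm_cont (hϖ : ∀ x, Continuous (ϖ x)) (m : ℕ) :
    ∀ x, Continuous fun t => sm k a ϖ m t x := by
  induction m with
  | zero => exact fun _ => continuous_const
  | succ m ih =>
    exact fun x => itr_cont (continuous_Zf (hϖ x)) (Zf_pos _) (lin_cont _ ih x)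

theorem sm_eq (hϖ : ∀ x, Continuous (ϖ x)) (m : ℕ) (t : ℝ≥0) (x : Site d) :
    Zf (ϖ x) t * sm k a ϖ (m + 1) t x =
      1 + In (fun s => Zf (ϖ x) s * lin (q0 k a) (sm k a ϖ m s) x) t :=
  itr_eq (Y := fun x => Zf (ϖ x)) (Φ := fun _ => lin (q0 k a)) (continuous_Zf (hϖ x)) (Zf_pos _)
    (lin_cont _ (sm_cont hϖ m) x) t

theorem sm_nonneg (hk : 0 ≤ k) (hϖ : ∀ x, Continuous (ϖ x)) (m : ℕ) :
    ∀ t x, 0 ≤ sm k a ϖ m t x := by
  induction m with
  | zero => exact fun _ _ => le_rfl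
  | succ m ih =>
    exact fun t x => itr_nonneg (continuous_Zf (hϖ x)) (Zf_pos _) (lin_cont _ (sm_cont hϖ m) x)
      (fun s => lin_nonneg (q0_good hk a) (ih s) x) t

theorem sm_succ_le (hk : 0 ≤ k) (hϖ : ∀ x, Continuous (ϖ x)) (m : ℕ) :
    ∀ t x, sm k a ϖ m t x ≤ sm k a ϖ (m + 1) t x := by
  induction m with
  | zero => exact sm_nonneg hk hϖ 1
  | succ m ih =>
    exact fun t x => itr_mono (continuous_Zf (hϖ x)) (Zf_pos _) (lin_cont _ (sm_cont hϖ m) x)
      (lin_cont _ (sm_cont hϖ (m + 1)) x) (fun s => lin_mono (q0_good hk a) (ih s) x) t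

structure GoodP (k a : ℝ) (ϖ : Path d) : Prop where
  hk : 0 ≤ k
  cont : ∀ x, Continuous (ϖ x)
  bdd : ∀ x (T : ℕ), BddAbove (Set.range fun m => sm k a ϖ m T x)

namespace GoodP

theorem sm_bound (h : GoodP k a ϖ) (T : ℝ≥0) (x : Site d) :
    ∃ K : ℝ, ∀ m, ∀ t ≤ T, sm k a ϖ m t x ≤ K := by
  obtain ⟨K0, hK0⟩ := h.bdd x ⌈T⌉₊
  obtain ⟨K1, p1, b1⟩ := exists_bound
    ((continuous_Zf (h.cont x)).inv₀ fun t => (Zf_pos (ϖ x) t).ne') T
  have n0 := sm_nonneg (a := a) h.hk h.cont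
  refine ⟨K1 * (Zf (ϖ x) ⌈T⌉₊ * K0), fun m t ht => (sm_succ_le h.hk h.cont m t x).trans ?_⟩
  have h1 : Zf (ϖ x) t * sm k a ϖ (m + 1) t x ≤ Zf (ϖ x) ⌈T⌉₊ * K0 := by
    refine le_trans ?_ (mul_le_mul_of_nonneg_left (hK0 ⟨m + 1, rfl⟩) (Zf_pos _ _).le)
    rw [sm_eq h.cont, sm_eq h.cont]
    exact add_le_add le_rfl (In_mono_time
      ((continuous_Zf (h.cont x)).mul (lin_cont _ (sm_cont h.cont m) x))
      (fun s => mul_nonneg (Zf_pos _ _).le (lin_nonneg (q0_good h.hk a) (n0 m s) x))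
      (ht.trans (Nat.le_ceil T)))
  have h2 := mul_le_mul ((le_abs_self _).trans (b1 t ht)) h1
    (mul_nonneg (Zf_pos _ _).le (n0 _ _ _)) p1.le
  rwa [Pi.inv_apply, ← mul_assoc, inv_mul_cancel₀ (Zf_pos _ _).ne', one_mul] at h2

theorem sm_tendsto (h : GoodP k a ϖ) (t : ℝ≥0) (x : Site d) :
    Tendsto (fun m => sm k a ϖ m t x) atTop (𝓝 (ub k a ϖ t x)) := by
  obtain ⟨K, hK⟩ := h.sm_bound t x
  exact tendsto_atTop_ciSup (monotone_nat_of_le_succ fun m => sm_succ_le h.hk h.cont m t x)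
    ⟨K, by rintro _ ⟨m, rfl⟩; exact hK m t le_rfl⟩

theorem ub_nonneg (h : GoodP k a ϖ) (t : ℝ≥0) (x : Site d) : 0 ≤ ub k a ϖ t x :=
  ge_of_tendsto' (h.sm_tendsto t x) fun m => sm_nonneg h.hk h.cont m t x

theorem ub_fix (h : GoodP k a ϖ) (x : Site d) : Continuous (fun t => ub k a ϖ t x) ∧
    ∀ t, Zf (ϖ x) t * ub k a ϖ t x =
      1 + In (fun s => Zf (ϖ x) s * lin (q0 k a) (ub k a ϖ s) x) t := by
  have hZ := continuous_Zf (h.cont x)
  have h1 := fix_limit (V := fun m t => Zf (ϖ x) t * sm k a ϖ (m + 1) t x)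
    (φ := fun m s => Zf (ϖ x) s * lin (q0 k a) (sm k a ϖ m s) x)
    (W := fun t => Zf (ϖ x) t * ub k a ϖ t x)
    (ψ := fun s => Zf (ϖ x) s * lin (q0 k a) (ub k a ϖ s) x)
    (fun m => hZ.mul (lin_cont _ (sm_cont h.cont m) x)) (fun m t => sm_eq h.cont m t x)
    (fun s => (lin_tendsto _ (h.sm_tendsto s) x).const_mul _)
    (fun T => by
      choose K hK using h.sm_bound T
      obtain ⟨K1, p1, b1⟩ := exists_bound hZ T
      refine ⟨K1 * lin (q0 k a) K x, fun m s hs => ?_⟩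
      have n1 := lin_nonneg (q0_good h.hk a) (sm_nonneg (a := a) h.hk h.cont m s) x
      rw [abs_mul, abs_of_nonneg n1]
      exact mul_le_mul (b1 s hs) (lin_mono (q0_good h.hk a) (fun y => hK y m s hs) x) n1 p1.le)
    (fun t => ((h.sm_tendsto t x).comp (tendsto_add_atTop_nat 1)).const_mul _)
  exact ⟨cont_of_mul hZ (Zf_pos _) h1.1 fun _ => rfl, h1.2⟩

theorem lam_cont (h : GoodP k a ϖ) (x : Site d) : Continuous (lam k a ε b ϖ x) := by
  have := (h.ub_fix x).1
  unfold lam; fun_prop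

theorem Yw_eq (h : GoodP k a ϖ) (x : Site d) (t : ℝ≥0) :
    Yw k a ε b ϖ x t = exp (In (lam k a ε b ϖ x) t) * Zf (ϖ x) t := by
  rw [Yw, RI_eq (h.lam_cont x)]

theorem Yw_cont (h : GoodP k a ϖ) (x : Site d) : Continuous (Yw k a ε b ϖ x) := by
  rw [funext (h.Yw_eq x)]
  exact (continuous_In (h.lam_cont x)).rexp.mul (continuous_Zf (h.cont x))

end GoodP

theorem Yw_pos (x : Site d) (t : ℝ≥0) : 0 < Yw k a ε b ϖ x t := mul_pos (exp_pos _) (Zf_pos _ _)

theorem scal_mono {y z U : ℝ} (b : ℕ) (h0 : 0 ≤ y) (h1 : y ≤ z) (h2 : z ≤ U) :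
    (b + 1) * U ^ b * y - y ^ (b + 1) ≤ (b + 1) * U ^ b * z - z ^ (b + 1) := by
  have h3 := (le_abs_self _).trans (abs_pow_sub_pow_le z y (b + 1))
  rw [Nat.add_sub_cancel, abs_of_nonneg (sub_nonneg.2 h1), abs_of_nonneg (h0.trans h1),
    abs_of_nonneg h0, max_eq_left h1] at h3
  have h4 := mul_le_mul_of_nonneg_left (pow_le_pow_left₀ (h0.trans h1) h2 b)
    (show 0 ≤ (z - y) * ((b + 1 : ℕ) : ℝ) from mul_nonneg (sub_nonneg.2 h1) (Nat.cast_nonneg _))
  push_cast at h3 h4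
  linarith

theorem Hf_mono (hk : 0 ≤ k) (hε : 0 ≤ ε) {s : ℝ≥0} {f g : Site d → ℝ} (h0 : ∀ y, 0 ≤ f y)
    (h1 : ∀ y, f y ≤ g y) {x : Site d} (h2 : g x ≤ ub k a ϖ s x) :
    Hf k a ε b ϖ s f x ≤ Hf k a ε b ϖ s g x :=
  add_le_add (lin_mono (q1_good hk a) h1 x)
    (mul_le_mul_of_nonneg_left (scal_mono b (h0 x) (h1 x) h2) hε)

theorem Hf_nonneg (hk : 0 ≤ k) (hε : 0 ≤ ε) {s : ℝ≥0} {f : Site d → ℝ} (h0 : ∀ y, 0 ≤ f y)
    {x : Site d} (h2 : f x ≤ ub k a ϖ s x) : 0 ≤ Hf k a ε b ϖ s f x :=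
  add_nonneg (lin_nonneg (q1_good hk a) h0 x) (mul_nonneg hε (by
    simpa using scal_mono b le_rfl (h0 x) h2))

theorem lap_eq (f : Site d → ℝ) (x : Site d) :
    lap f x = ∑ i : Fin d, (f (x + Pi.single i 1) + f (x - Pi.single i 1)) - 2 * d * f x := by
  unfold lap
  have h : ∀ i : Fin d, (f (x + Pi.single i 1) - f x) + (f (x - Pi.single i 1) - f x) =
      (f (x + Pi.single i 1) + f (x - Pi.single i 1)) - 2 * f x := fun i => by ring
  simp only [h, Finset.sum_sub_distrib, Finset.sum_const, Finset.card_univ, Fintype.card_fin,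
    nsmul_eq_mul]
  ring

theorem Hf_eq (s : ℝ≥0) (f : Site d → ℝ) (x : Site d) : Hf k a ε b ϖ s f x =
    lam k a ε b ϖ x s * f x + (k * lap f x + a * f x - ε * f x ^ (b + 1)) := by
  simp only [Hf, lam, lap_eq, lin, q1]; ring

namespace GoodP

theorem Hf_cont (h : GoodP k a ϖ) {f : ℝ≥0 → Site d → ℝ} (hf : ∀ y, Continuous fun s => f s y)
    (x : Site d) : Continuous fun s => Hf k a ε b ϖ s (f s) x := by
  have h1 := (h.ub_fix x).1
  have h2 := lin_cont (q1 k a) hf x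
  have h3 := hf x
  unfold Hf; fun_prop

theorem um_cont (h : GoodP k a ϖ) (m : ℕ) : ∀ x, Continuous fun t => um k a ε b ϖ m t x := by
  induction m with
  | zero => exact fun x => (h.ub_fix x).1
  | succ m ih => exact fun x => itr_cont (h.Yw_cont x) (Yw_pos x) (h.Hf_cont ih x)

theorem um_eq (h : GoodP k a ϖ) (m : ℕ) (t : ℝ≥0) (x : Site d) :
    Yw k a ε b ϖ x t * um k a ε b ϖ (m + 1) t x =
      1 + In (fun s => Yw k a ε b ϖ x s * Hf k a ε b ϖ s (um k a ε b ϖ m s) x) t :=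
  itr_eq (h.Yw_cont x) (Yw_pos x) (h.Hf_cont (h.um_cont m) x) t

theorem um_one_le (h : GoodP k a ϖ) (hε : 0 ≤ ε) (t : ℝ≥0) (x : Site d) :
    um k a ε b ϖ 1 t x ≤ ub k a ϖ t x := by
  refine le_of_mul_le_mul_left ?_ (Yw_pos (k := k) (a := a) (ε := ε) (b := b) (ϖ := ϖ) x t)
  have hZ := continuous_Zf (h.cont x)
  have hu := fun y => (h.ub_fix y).1
  have hl := h.lam_cont (ε := ε) (b := b) x
  have hI := continuous_In hl
  have hL := lin_cont (q0 k a) hu x
  have h1 := exp_prod (hZ.mul hL) hl (h.ub_fix x).2 t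
  rw [h.um_eq, h.Yw_eq x t, mul_assoc, h1]
  refine add_le_add le_rfl (In_mono ((h.Yw_cont x).mul (h.Hf_cont hu x))
    (hI.rexp.mul ((hl.mul (hZ.mul (hu x))).add (hZ.mul hL))) fun s _ => ?_)
  show Yw k a ε b ϖ x s * Hf k a ε b ϖ s (ub k a ϖ s) x ≤ _
  have h2 : k * lap (ub k a ϖ s) x + a * ub k a ϖ s x - ε * ub k a ϖ s x ^ (b + 1) ≤
      lin (q0 k a) (ub k a ϖ s) x := by
    have n1 := h.ub_nonneg s x
    have n2 := h.hk
    have n3 : 0 ≤ ε * ub k a ϖ s x ^ (b + 1) := by positivity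
    have n4 : 0 ≤ k * (2 * d * ub k a ϖ s x) := by positivity
    have n5 := mul_le_mul_of_nonneg_right (le_abs_self a) n1
    simp only [lap_eq, lin, q0]
    linarith
  have h3 := mul_le_mul_of_nonneg_left h2 (Zf_pos (ϖ x) s).le
  rw [h.Yw_eq, Hf_eq, mul_assoc]
  refine mul_le_mul_of_nonneg_left ?_ (exp_pos _).le
  simp only [Pi.mul_apply, Pi.add_apply]
  linarith

theorem um_props (h : GoodP k a ϖ) (hε : 0 ≤ ε) (m : ℕ) :
    (∀ t x, 0 ≤ um k a ε b ϖ m t x) ∧ (∀ t x, um k a ε b ϖ m t x ≤ ub k a ϖ t x) ∧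
      ∀ t x, um k a ε b ϖ (m + 1) t x ≤ um k a ε b ϖ m t x := by
  induction m with
  | zero => exact ⟨h.ub_nonneg, fun _ _ => le_rfl, h.um_one_le hε⟩
  | succ m ih =>
    obtain ⟨i1, i2, i3⟩ := ih
    have j1 : ∀ t x, 0 ≤ um k a ε b ϖ (m + 1) t x := fun t x =>
      itr_nonneg (h.Yw_cont x) (Yw_pos x) (h.Hf_cont (h.um_cont m) x)
        (fun s => Hf_nonneg h.hk hε (i1 s) (i2 s x)) t
    exact ⟨j1, fun t x => (i3 t x).trans (i2 t x), fun t x =>
      itr_mono (h.Yw_cont x) (Yw_pos x) (h.Hf_cont (h.um_cont (m + 1)) x)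
        (h.Hf_cont (h.um_cont m) x) (fun s => Hf_mono h.hk hε (j1 s) (i3 s) (i2 s x)) t⟩

theorem um_tendsto (h : GoodP k a ϖ) (hε : 0 ≤ ε) (t : ℝ≥0) (x : Site d) :
    Tendsto (fun m => um k a ε b ϖ m t x) atTop (𝓝 (uu k a ε b ϖ t x)) :=
  tendsto_atTop_ciInf (antitone_nat_of_succ_le fun m => (h.um_props hε m).2.2 t x)
    ⟨0, by rintro _ ⟨m, rfl⟩; exact (h.um_props hε m).1 t x⟩

theorem uu_nonneg (h : GoodP k a ϖ) (hε : 0 ≤ ε) (t : ℝ≥0) (x : Site d) :
    0 ≤ uu k a ε b ϖ t x :=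
  ge_of_tendsto' (h.um_tendsto hε t x) fun m => (h.um_props hε m).1 t x

theorem uu_le (h : GoodP k a ϖ) (hε : 0 ≤ ε) (t : ℝ≥0) (x : Site d) :
    uu k a ε b ϖ t x ≤ ub k a ϖ t x :=
  le_of_tendsto' (h.um_tendsto hε t x) fun m => (h.um_props hε m).2.1 t x

theorem uu_fix (h : GoodP k a ϖ) (hε : 0 ≤ ε) (x : Site d) :
    Continuous (fun t => uu k a ε b ϖ t x) ∧ ∀ t, Yw k a ε b ϖ x t * uu k a ε b ϖ t x =
      1 + In (fun s => Yw k a ε b ϖ x s * Hf k a ε b ϖ s (uu k a ε b ϖ s) x) t := by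
  have hY := h.Yw_cont (ε := ε) (b := b) x
  have h1 := fix_limit (V := fun m t => Yw k a ε b ϖ x t * um k a ε b ϖ (m + 1) t x)
    (φ := fun m s => Yw k a ε b ϖ x s * Hf k a ε b ϖ s (um k a ε b ϖ m s) x)
    (W := fun t => Yw k a ε b ϖ x t * uu k a ε b ϖ t x)
    (ψ := fun s => Yw k a ε b ϖ x s * Hf k a ε b ϖ s (uu k a ε b ϖ s) x)
    (fun m => hY.mul (h.Hf_cont (h.um_cont m) x)) (fun m t => h.um_eq m t x)
    (fun s => by
      have c1 := h.um_tendsto (b := b) hε s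
      exact ((lin_tendsto _ c1 x).add
        ((((c1 x).const_mul _).sub ((c1 x).pow _)).const_mul _)).const_mul _)
    (fun T => by
      obtain ⟨K, -, hK⟩ := exists_bound
        (hY.mul (h.Hf_cont (ε := ε) (b := b) (fun y => (h.ub_fix y).1) x)) T
      refine ⟨K, fun m s hs => le_trans ?_ ((le_abs_self _).trans (hK s hs))⟩
      obtain ⟨i1, i2, -⟩ := h.um_props (b := b) hε m
      rw [abs_of_nonneg (mul_nonneg (Yw_pos x s).le (Hf_nonneg h.hk hε (i1 s) (i2 s x)))]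
      exact mul_le_mul_of_nonneg_left (Hf_mono h.hk hε (i1 s) (i2 s) le_rfl) (Yw_pos x s).le)
    (fun t => ((h.um_tendsto hε t x).comp (tendsto_add_atTop_nat 1)).const_mul _)
  exact ⟨cont_of_mul hY (Yw_pos x) h1.1 fun _ => rfl, h1.2⟩

theorem uu_eq (h : GoodP k a ϖ) (hε : 0 ≤ ε) (x : Site d) (t : ℝ≥0) :
    Zf (ϖ x) t * uu k a ε b ϖ t x = 1 + In (fun s => Zf (ϖ x) s *
      (k * lap (uu k a ε b ϖ s) x + a * uu k a ε b ϖ s x - ε * uu k a ε b ϖ s x ^ (b + 1))) t := by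
  have h1 := exp_prod (lam := fun s => -lam k a ε b ϖ x s)
    ((h.Yw_cont x).mul (h.Hf_cont (fun y => (h.uu_fix hε y).1) x)) (h.lam_cont x).neg
    (h.uu_fix (b := b) hε x).2 t
  have h2 : ∀ s, exp (In (fun s => -lam k a ε b ϖ x s) s) * Yw k a ε b ϖ x s = Zf (ϖ x) s := by
    intro s
    rw [h.Yw_eq, ← mul_assoc, ← exp_add]
    simp [In]
  rw [← mul_assoc, h2] at h1
  rw [h1]
  congr 2
  funext s
  rw [← h2 s]
  simp only [Pi.mul_apply, Hf_eq]
  ring

end GoodP

end Pool.Agent.Lib.MP_0db9b2_pr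
end

-- part Pool.Agent.Lib.MP_0db9b2_pr.ExMom
section

/-
Adaptedness and moments of the constructed solution.
-/

set_option autoImplicit false

namespace Pool.Agent.Lib.MP_0db9b2_pr

open MeasureTheory ProbabilityTheory Real Filter
open scoped NNReal ENNReal Topology

variable {d : ℕ} {Ω : Type*} {mΩ : MeasurableSpace Ω}
variable {P : Measure Ω} {F : Filtration ℝ≥0 mΩ} {w : Site d → ℝ≥0 → Ω → ℝ} {k a ε : ℝ} {b : ℕ}

def MB (P : Measure Ω) (p : ℕ) (c : ℝ) (f : Ω → ℝ) : Prop :=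
  Integrable (fun ω => |f ω| ^ p) P ∧ ∫ ω, |f ω| ^ p ∂P ≤ c

theorem MB.of_le {p : ℕ} {c : ℝ} {f g : Ω → ℝ} (hf : Measurable f) (hg : HI P g c)
    (h : ∀ᵐ ω ∂P, |f ω| ^ p ≤ g ω) : MB P p c f := by
  have h1 : Integrable (fun ω => |f ω| ^ p) P :=
    hg.1.mono' (hf.abs.pow_const p).aestronglyMeasurable
      (h.mono fun ω hω => by rwa [Real.norm_of_nonneg (by positivity)])
  exact ⟨h1, (integral_mono_ae h1 hg.1 h).trans hg.2.le⟩

theorem MB.mono {p : ℕ} {c c' : ℝ} {f : Ω → ℝ} (h : MB P p c f) (hc : c ≤ c') : MB P p c' f :=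
  ⟨h.1, h.2.trans hc⟩

theorem int_pow_le [IsProbabilityMeasure P] {f : ℝ≥0 → Ω → ℝ} (hm : ∀ t, Measurable (f t))
    (hc : ∀ᵐ ω ∂P, Continuous fun t => f t ω) {t : ℝ≥0} {c : ℝ≥0 → ℝ} (hcc : Continuous c) {p : ℕ}
    (hC : ∀ r ≤ t, MB P (p + 1) (c r) (f r)) {X : Ω → ℝ} (hX : Measurable X)
    (hXe : ∀ᵐ ω ∂P, X ω = In (fun r => f r ω) t) : MB P (p + 1) ((t : ℝ) ^ p * In c t) X := by
  classical
  set N := toMeasurable P {ω | ¬ Continuous fun t => f t ω} with hN
  have hN0 : ∀ᵐ ω ∂P, ω ∉ N := by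
    rw [ae_iff] at hc ⊢
    simpa [hN, measure_toMeasurable] using hc
  let f' : ℝ≥0 → Ω → ℝ := fun t ω => if ω ∈ N then 0 else f t ω
  have hc' : ∀ ω, Continuous fun t => f' t ω := by
    intro ω
    by_cases hω : ω ∈ N
    · simp only [f', if_pos hω]; exact continuous_const
    · simp only [f', if_neg hω]
      by_contra h
      exact hω (subset_toMeasurable _ _ h)
  have hm' : ∀ t, Measurable (f' t) := fun t =>
    Measurable.ite (measurableSet_toMeasurable _ _) measurable_const (hm t)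
  have hj := measurable_uncurry_of_continuous_of_measurable hc' hm'
  have hj2 : Measurable fun q : Ω × ℝ => |f' q.2.toNNReal q.1| ^ (p + 1) :=
    (hj.comp ((measurable_real_toNNReal.comp measurable_snd).prodMk
      measurable_fst)).abs.pow_const _
  have he : ∀ t, (fun ω => |f' t ω| ^ (p + 1)) =ᵐ[P] fun ω => |f t ω| ^ (p + 1) := fun t => by
    filter_upwards [hN0] with ω hω
    simp only [f', if_neg hω]
  let m : Measure ℝ := volume.restrict (Set.Ioc (0 : ℝ) t)
  have hC' : ∀ᵐ r ∂m, Integrable (fun ω => |f' r.toNNReal ω| ^ (p + 1)) P ∧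
      ∫ ω, |f' r.toNNReal ω| ^ (p + 1) ∂P ≤ c r.toNNReal := by
    filter_upwards [ae_restrict_mem measurableSet_Ioc] with r hr
    have := hC r.toNNReal (Real.toNNReal_le_iff_le_coe.2 hr.2)
    exact ⟨this.1.congr (he _).symm, (integral_congr_ae (he _)).le.trans this.2⟩
  have ic : Integrable (fun r : ℝ => c r.toNNReal) m := (intInt hcc 0 t).1
  have hI : Integrable (fun r : ℝ => ∫ ω, |f' r.toNNReal ω| ^ (p + 1) ∂P) m := by
    refine ic.mono'
      (hj2.stronglyMeasurable.integral_prod_left' (μ := P)).aestronglyMeasurable ?_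
    filter_upwards [hC'] with r hr
    rw [Real.norm_of_nonneg (integral_nonneg fun _ => by positivity)]
    exact hr.2
  have hg : Integrable (fun q : Ω × ℝ => |f' q.2.toNNReal q.1| ^ (p + 1)) (P.prod m) := by
    refine (integrable_prod_iff' hj2.aestronglyMeasurable).2 ⟨hC'.mono fun r hr => hr.1, ?_⟩
    simpa using hI
  have h1 : HI P (fun ω => ∫ r, |f' r.toNNReal ω| ^ (p + 1) ∂m)
      (∫ r, ∫ ω, |f' r.toNNReal ω| ^ (p + 1) ∂P ∂m) := ⟨hg.integral_prod_left,
    integral_integral_swap (f := fun ω (r : ℝ) => |f' r.toNNReal ω| ^ (p + 1)) hg⟩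
  refine (MB.of_le hX (h1.const_mul ((t : ℝ) ^ p)) ?_).mono ?_
  · filter_upwards [hN0, hXe] with ω h4 h5
    have h6 := pow_In_le (hc' ω) p t
    rw [h5]
    unfold In at h6 ⊢
    rw [intervalIntegral.integral_of_le t.coe_nonneg (f := fun r => _ ^ (p + 1))] at h6
    simpa only [f', if_neg h4] using h6
  · refine mul_le_mul_of_nonneg_left ((integral_mono_ae hI ic
      (hC'.mono fun r hr => hr.2)).trans (le_of_eq ?_)) (by positivity)
    unfold In
    rw [intervalIntegral.integral_of_le t.coe_nonneg]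

theorem lin_pow_le {q : Par} (hq : q.Good) (p : ℕ) : ∃ q' : Par, q'.Good ∧
    ∀ (f : Site d → ℝ) x, |lin q f x| ^ (p + 1) ≤ lin q' (fun y => |f y| ^ (p + 1)) x := by
  have h1 := hq.al_pos
  have h2 := hq.ka_nonneg
  refine ⟨⟨2 ^ p * q.al ^ (p + 1), 2 ^ p * (q.ka ^ (p + 1) * (d ^ p * 2 ^ p)), 1, 1⟩,
    ⟨by positivity, by positivity, one_pos, one_ne_zero⟩, fun f x => ?_⟩
  have h3 : |lin q f x| ≤ lin q (fun y => |f y|) x := by
    simpa [lin_const] using lin_abs_sub hq f (fun _ => 0) x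
  refine (pow_le_pow_left₀ (abs_nonneg _) h3 _).trans ?_
  unfold lin
  refine (add_pow_le (by positivity) (by positivity) _).trans ?_
  have h4 := pow_sum_le_card_mul_sum_pow (s := Finset.univ)
    (f := fun i : Fin d => |f (x + Pi.single i 1)| + |f (x - Pi.single i 1)|)
    (fun _ _ => by positivity) p
  have h5 : ∑ i : Fin d, (|f (x + Pi.single i 1)| + |f (x - Pi.single i 1)|) ^ (p + 1) ≤
      2 ^ p * ∑ i : Fin d, (|f (x + Pi.single i 1)| ^ (p + 1) +
        |f (x - Pi.single i 1)| ^ (p + 1)) := by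
    rw [Finset.mul_sum]
    exact Finset.sum_le_sum fun i _ => add_pow_le (abs_nonneg _) (abs_nonneg _) _
  rw [Finset.card_univ, Fintype.card_fin] at h4
  have h6 := mul_le_mul_of_nonneg_left (h4.trans (mul_le_mul_of_nonneg_left h5 (by positivity)))
    (show 0 ≤ 2 ^ p * q.ka ^ (p + 1) by positivity)
  simp only [Nat.add_sub_cancel, mul_pow]
  linarith

theorem mono_lim {X : ℕ → Ω → ℝ} (hm : ∀ m, Measurable (X m))
    (h0 : ∀ᵐ ω ∂P, ∀ m, 0 ≤ X m ω ∧ X m ω ≤ X (m + 1) ω) {C : ℝ}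
    (hC : ∀ m, Integrable (X m) P ∧ ∫ ω, X m ω ∂P ≤ C) :
    (∀ᵐ ω ∂P, BddAbove (Set.range fun m => X m ω)) ∧ ∀ Y : Ω → ℝ, Measurable Y →
      (∀ᵐ ω ∂P, 0 ≤ Y ω ∧ ∀ K, (∀ m, X m ω ≤ K) → Y ω ≤ K) →
        Integrable Y P ∧ ∫ ω, Y ω ∂P ≤ C := by
  have mg : ∀ m, Measurable fun ω => ENNReal.ofReal (X m ω) :=
    fun m => ENNReal.measurable_ofReal.comp (hm m)
  have h1 : ∫⁻ ω, ⨆ m, ENNReal.ofReal (X m ω) ∂P ≤ ENNReal.ofReal C := by
    rw [lintegral_iSup_ae mg fun m => h0.mono fun ω h => ENNReal.ofReal_le_ofReal (h m).2]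
    refine iSup_le fun m => ?_
    rw [← ofReal_integral_eq_lintegral_ofReal (hC m).1 (h0.mono fun ω h => (h m).1)]
    exact ENNReal.ofReal_le_ofReal (hC m).2
  have h2 := ae_lt_top (Measurable.iSup mg) (h1.trans_lt ENNReal.ofReal_lt_top).ne
  have h3 : ∀ ω, ⨆ m, ENNReal.ofReal (X m ω) < ∞ → ∀ m,
      X m ω ≤ (⨆ m, ENNReal.ofReal (X m ω)).toReal := fun ω hω m =>
    (ENNReal.ofReal_le_iff_le_toReal hω.ne).1 (le_iSup (fun m => ENNReal.ofReal (X m ω)) m)
  refine ⟨h2.mono fun ω hω => ⟨_, by rintro _ ⟨m, rfl⟩; exact h3 ω hω m⟩, fun Y mY hY => ?_⟩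
  have h4 : ∫⁻ ω, ENNReal.ofReal (Y ω) ∂P ≤ ENNReal.ofReal C := by
    refine le_trans (lintegral_mono_ae ?_) h1
    filter_upwards [h2, hY] with ω c1 c2
    exact (ENNReal.ofReal_le_iff_le_toReal c1.ne).2 (c2.2 _ (h3 ω c1))
  have h5 : 0 ≤ᵐ[P] Y := hY.mono fun ω h => h.1
  have h6 : Integrable Y P := ⟨mY.aestronglyMeasurable,
    (hasFiniteIntegral_iff_ofReal h5).2 (h4.trans_lt ENNReal.ofReal_lt_top)⟩
  refine ⟨h6, ?_⟩
  rw [← ofReal_integral_eq_lintegral_ofReal h6 h5] at h4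
  exact (ENNReal.ofReal_le_ofReal_iff ((integral_nonneg_of_ae
    (h0.mono fun ω h => (h 0).1)).trans (hC 0).2)).1 h4

theorem itr_adapted {Y : Ω → Site d → ℝ≥0 → ℝ} {Φ : Ω → ℝ≥0 → (Site d → ℝ) → Site d → ℝ}
    {f : Ω → ℝ≥0 → Site d → ℝ} {x : Site d} (hY : Adapted F fun t ω => Y ω x t)
    (hΦ : Adapted F fun s ω => Φ ω s (f ω s) x) :
    Adapted F fun t ω => itr (Y ω) (Φ ω) (f ω) t x := fun t =>
  (measurable_const.add (RI_adapted (f := fun s ω => Y ω x s * Φ ω s (f ω s) x)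
    (fun s => (hY s).mul (hΦ s)) t)).div (hY t)

theorem lin_adapted (q : Par) {f : Ω → ℝ≥0 → Site d → ℝ}
    (hf : ∀ y, Adapted F fun t ω => f ω t y) (x : Site d) :
    Adapted F fun t ω => lin q (f ω t) x := fun t =>
  @measurable_lin d q Ω (F t) (fun ω => f ω t) (fun y => hf y t) x

namespace Noise

theorem exp_pow (h : Noise P F w) (x : Site d) (s : ℝ≥0) {t T : ℝ≥0} (ht : t ≤ T) (p : ℕ)
    {Z : Ω → ℝ} (hZ : Measurable[F s] Z) {c : ℝ} (hZi : MB P p c Z) :
    MB P p (exp (p ^ 2 * T) * c) fun ω => exp (w x (s + t) ω - w x s ω - t / 2) * Z ω := by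
  have h1 := ((HI_exp t p).const_mul (exp (-(p * t / 2)))).congr
    (g := fun y => exp (y - t / 2) ^ p) (b := exp (t * p ^ 2 / 2 - p * t / 2))
    (fun y => by rw [← exp_add, ← exp_nat_mul]; congr 1; ring)
    (by rw [← exp_add]; congr 1; ring)
  have h2 := h.HI_incr_mul x s t (g := fun y => exp (y - t / 2) ^ p) (by fun_prop) h1.1
    ((continuous_abs.measurable.comp hZ).pow_const p) hZi.1
  unfold MB
  simp only [abs_mul, mul_pow, abs_exp]
  refine ⟨h2.1, h2.2.le.trans ?_⟩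
  rw [h1.2]
  have h3 : (t : ℝ) ≤ T := ht
  have h4 := t.coe_nonneg
  have h5 := mul_le_mul_of_nonneg_left h3 (sq_nonneg (p : ℝ))
  have h6 : 0 ≤ (p : ℝ) * t := by positivity
  have h7 : 0 ≤ (p : ℝ) ^ 2 * t := by positivity
  exact mul_le_mul (exp_le_exp.2 (by linarith)) hZi.2
    (integral_nonneg fun _ => pow_nonneg (abs_nonneg _) _) (exp_pos _).le

theorem Zf_ad (h : Noise P F w) (x : Site d) : Adapted F fun t ω => Zf (pathOf w ω x) t :=
  h.Zf_adapted x

theorem sm_ad (h : Noise P F w) (m : ℕ) :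
    ∀ x, Adapted F fun t ω => sm k a (pathOf w ω) m t x := by
  induction m with
  | zero => exact fun _ _ => measurable_const
  | succ m ih =>
    exact fun x => itr_adapted (Y := fun ω x => Zf (pathOf w ω x))
      (Φ := fun _ _ => lin (q0 k a)) (h.Zf_ad x) (lin_adapted _ ih x)

theorem ub_ad (h : Noise P F w) (x : Site d) : Adapted F fun t ω => ub k a (pathOf w ω) t x :=
  fun t => Measurable.iSup fun m => h.sm_ad m x t

theorem um_ad (h : Noise P F w) (m : ℕ) :
    ∀ x, Adapted F fun t ω => um k a ε b (pathOf w ω) m t x := by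
  induction m with
  | zero => exact h.ub_ad
  | succ m ih =>
    refine fun x => itr_adapted (Y := fun ω => Yw k a ε b (pathOf w ω))
      (Φ := fun ω => Hf k a ε b (pathOf w ω)) (fun t => ?_) (fun t => ?_)
    · exact (measurable_exp.comp (RI_adapted (f := fun s ω => lam k a ε b (pathOf w ω) x s)
        (fun s => ((((h.ub_ad x s).pow_const _).const_mul _).const_mul _).add_const _) t)).mul
        (h.Zf_ad x t)
    · exact (lin_adapted _ ih x t).add ((((((h.ub_ad x t).pow_const _).const_mul _).mul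
        (ih x t)).sub ((ih x t).pow_const _)).const_mul _)

theorem uu_ad (h : Noise P F w) (x : Site d) :
    Adapted F fun t ω => uu k a ε b (pathOf w ω) t x :=
  fun t => Measurable.iInf fun m => h.um_ad m x t

theorem cont_ae (h : Noise P F w) : ∀ᵐ ω ∂P, ∀ x, Continuous (pathOf w ω x) :=
  ae_all_iff.2 fun x => (h.br x).cont

theorem sm_mom (h : Noise P F w) (hk : 0 ≤ k) (p : ℕ) (T : ℝ≥0) : ∃ C : ℝ, ∀ m, ∀ t ≤ T, ∀ x,
    MB P (p + 1) C fun ω => sm k a (pathOf w ω) m t x := by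
  have := h.prob
  obtain ⟨q', hq', hq⟩ := lin_pow_le (d := d) (q0_good hk a) p
  set K := exp (((p + 1 : ℕ) : ℝ) ^ 2 * T) with hK
  set D := q'.al + 2 * d * q'.ka with hD
  have K0 : 0 < K := exp_pos _
  have D0 : 0 ≤ D := by have := hq'.al_pos; have := hq'.ka_nonneg; positivity
  set β := 2 * (2 ^ p * ((T : ℝ) ^ p * (K * D))) + 1 with hβ
  have β0 : 0 < β := by positivity
  have key : ∀ m, ∀ t ≤ T, ∀ x, MB P (p + 1) (2 * (2 ^ p * K) * exp (β * t))
      fun ω => sm k a (pathOf w ω) m t x := by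
    intro m
    induction m with
    | zero =>
      intro t _ x
      simp only [MB, sm, abs_zero, pow_succ, mul_zero, integral_zero]
      exact ⟨integrable_zero _ _ _, by positivity⟩
    | succ m ih =>
      intro t ht x
      have mZ : ∀ t, Measurable fun ω => Zf (pathOf w ω x) t := fun t => (h.Zf_ad x).measurable
      have aL := lin_adapted (F := F) (q0 k a) (h.sm_ad (k := k) (a := a) m) x
      have c1 := h.exp_pow x 0 ht (p + 1) (Z := fun _ => 1) measurable_const (c := 1)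
        (by simp [MB])
      have c2 := int_pow_le (P := P) (f := fun r ω => Zf (pathOf w ω x) r / Zf (pathOf w ω x) t *
          lin (q0 k a) (sm k a (pathOf w ω) m r) x)
        (fun r => ((mZ _).div (mZ _)).mul aL.measurable)
        (by
          filter_upwards [h.cont_ae] with ω h1
          exact ((continuous_Zf (h1 x)).div_const _).mul (lin_cont _ (sm_cont h1 m) x))
        (t := t) (c := fun r => K * (D * (2 * (2 ^ p * K) * exp (β * r)))) (by fun_prop) (p := p)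
        (fun r hr => by
          obtain ⟨τ, hτ⟩ := exists_add_of_le hr
          have c3 := MB.of_le aL.measurable (HI_lin (q := q')
            (Z := fun ω y => |sm k a (pathOf w ω) m r y| ^ (p + 1))
            (fun y => (ih r (hr.trans ht) y).1) x) (ae_of_all _ fun ω => hq _ x)
          have c4 := c3.mono ((lin_mono hq' (fun y => (ih r (hr.trans ht) y).2) x).trans
            (lin_const _ x).le)
          have c5 := h.exp_pow x r (t := τ) (le_trans (hτ ▸ le_add_self) ht) (p + 1) (aL r) c4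
          have c6 : ∀ ω, Zf (pathOf w ω x) r / Zf (pathOf w ω x) t =
              exp (w x (r + τ) ω - w x r ω - τ / 2) := fun ω => by
            unfold Zf pathOf
            rw [← exp_sub, hτ]; congr 1; push_cast; ring
          simp only [c6]
          exact c5)
        (X := fun ω => sm k a (pathOf w ω) (m + 1) t x -
          exp (w x (0 + t) ω - w x 0 ω - t / 2) * 1)
        ((h.sm_ad _ x).measurable.sub ((measurable_exp.comp
          (((h.meas _ _).sub (h.meas _ _)).sub_const _)).mul_const _))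
        (by
          filter_upwards [h.cont_ae, (h.br x).eval_zero_ae_eq_zero] with ω h1 h2
          have e1 := sm_eq (k := k) (a := a) h1 m t x
          have e2 : exp (w x (0 + t) ω - w x 0 ω - t / 2) = (Zf (pathOf w ω x) t)⁻¹ := by
            unfold Zf pathOf
            rw [← exp_neg, h2, zero_add]; congr 1; simp; ring
          have e3 : In (fun r => Zf (pathOf w ω x) r / Zf (pathOf w ω x) t *
              lin (q0 k a) (sm k a (pathOf w ω) m r) x) t = (Zf (pathOf w ω x) t)⁻¹ *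
              In (fun s => Zf (pathOf w ω x) s * lin (q0 k a) (sm k a (pathOf w ω) m s) x) t := by
            unfold In
            rw [← intervalIntegral.integral_const_mul]
            congr 1; funext r; ring
          have z := Zf_pos (pathOf w ω x) t
          rw [e2, e3]
          field_simp
          linarith)
      have c7 : In (fun r => K * (D * (2 * (2 ^ p * K) * exp (β * r)))) t ≤
          K * (D * (2 * (2 ^ p * K) * exp (β * t))) / β := by
        have c8 := intervalIntegral.integral_eq_sub_of_hasDerivAt (a := 0) (b := t)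
          (f := fun r => K * (D * (2 * (2 ^ p * K) * exp (β * r))) / β)
          (f' := fun r => K * (D * (2 * (2 ^ p * K) * exp (β * r.toNNReal))))
          (fun r hr => by
            rw [Set.uIcc_of_le t.coe_nonneg] at hr
            have := ((((((hasDerivAt_id r).const_mul β).exp).const_mul
              (2 * (2 ^ p * K))).const_mul D).const_mul K).div_const β
            refine this.congr_deriv ?_
            rw [Real.coe_toNNReal r hr.1]
            simp only [id]; field_simp)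
          (intInt (G := fun r => K * (D * (2 * (2 ^ p * K) * exp (β * r)))) (by fun_prop) _ _)
        unfold In
        rw [c8]
        exact sub_le_self _ (by positivity)
      have k1 : HI P _ _ := ⟨c1.1, rfl⟩
      have k2 : HI P _ _ := ⟨c2.1, rfl⟩
      refine (MB.of_le (h.sm_ad _ x).measurable ((k1.add k2).const_mul (2 ^ p))
        (ae_of_all _ fun ω => ?_)).mono ?_
      · refine le_trans (pow_le_pow_left₀ (abs_nonneg _) ?_ _)
          (add_pow_le (abs_nonneg _) (abs_nonneg _) (p + 1))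
        refine le_trans (le_of_eq ?_) (abs_add_le _ _)
        rw [add_sub_cancel]
      · have e1 : 1 ≤ exp (β * t) := one_le_exp (by positivity)
        have e2 := c1.2
        have e3 := c2.2.trans (mul_le_mul (pow_le_pow_left₀ t.coe_nonneg (show (t : ℝ) ≤ T from ht) p) c7
          (In_nonneg (fun _ => by positivity) t) (by positivity))
        have e4 : (T : ℝ) ^ p * (K * (D * (2 * (2 ^ p * K) * exp (β * t))) / β) ≤
            K * exp (β * t) := by
          rw [← mul_div_assoc, div_le_iff₀ β0, hβ]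
          have : 0 ≤ K * exp (β * t) := by positivity
          rw [← hβ]
          nlinarith
        have e5 := mul_le_mul_of_nonneg_left e1 K0.le
        rw [mul_one, ← hK] at e2
        have e6 := mul_le_mul_of_nonneg_left (add_le_add (e2.trans (by linarith)) (e3.trans e4) :
          _ ≤ K * exp (β * t) + K * exp (β * t)) (show (0 : ℝ) ≤ 2 ^ p by positivity)
        linarith
  refine ⟨2 * (2 ^ p * K) * exp (β * T), fun m t ht x => (key m t ht x).mono ?_⟩
  have : (t : ℝ) ≤ T := ht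
  gcongr

theorem sm_lim (h : Noise P F w) (hk : 0 ≤ k) (p : ℕ) (T : ℝ≥0) : ∃ C : ℝ, ∀ t ≤ T, ∀ x,
    (∀ᵐ ω ∂P, BddAbove (Set.range fun m => |sm k a (pathOf w ω) m t x| ^ (p + 1))) ∧
    ∀ Y : Ω → ℝ, Measurable Y → (∀ᵐ ω ∂P, 0 ≤ Y ω ∧
      ∀ K, (∀ m, |sm k a (pathOf w ω) m t x| ^ (p + 1) ≤ K) → Y ω ≤ K) →
        Integrable Y P ∧ ∫ ω, Y ω ∂P ≤ C := by
  obtain ⟨C, hC⟩ := h.sm_mom (a := a) hk p T
  refine ⟨C, fun t ht x => mono_lim (fun m => (h.sm_ad m x).measurable.abs.pow_const _) ?_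
    fun m => hC m t ht x⟩
  filter_upwards [h.cont_ae] with ω h1 m
  refine ⟨by positivity, pow_le_pow_left₀ (abs_nonneg _) ?_ _⟩
  rw [abs_of_nonneg (sm_nonneg hk h1 _ t x), abs_of_nonneg (sm_nonneg hk h1 _ t x)]
  exact sm_succ_le hk h1 m t x

theorem good_ae (h : Noise P F w) (hk : 0 ≤ k) : ∀ᵐ ω ∂P, GoodP k a (pathOf w ω) := by
  have h1 : ∀ᵐ ω ∂P, ∀ x (T : ℕ), BddAbove (Set.range fun m => sm k a (pathOf w ω) m T x) := by
    refine ae_all_iff.2 fun x => ae_all_iff.2 fun T => ?_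
    obtain ⟨C, hC⟩ := h.sm_lim (a := a) hk 0 T
    filter_upwards [(hC T le_rfl x).1] with ω ⟨K, hK⟩
    refine ⟨K, ?_⟩
    rintro _ ⟨m, rfl⟩
    have := hK ⟨m, rfl⟩
    simp only [zero_add, pow_one] at this
    exact (le_abs_self _).trans this
  filter_upwards [h1, h.cont_ae] with ω h2 h3
  exact ⟨hk, h3, h2⟩

theorem uu_mom (h : Noise P F w) (hk : 0 ≤ k) (hε : 0 ≤ ε) (p : ℕ) (T : ℝ≥0) :
    ∃ C : ℝ, ∀ t ≤ T, ∀ x, MB P p C fun ω => uu k a ε b (pathOf w ω) t x := by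
  have := h.prob
  rcases p with _ | p
  · exact ⟨1, fun _ _ _ => by simp [MB]⟩
  obtain ⟨C, hC⟩ := h.sm_lim (a := a) hk p T
  refine ⟨C, fun t ht x => (hC t ht x).2 _ ((h.uu_ad x).measurable.abs.pow_const _) ?_⟩
  filter_upwards [h.good_ae (a := a) hk] with ω g
  refine ⟨by positivity, fun K hK => le_trans ?_
    (le_of_tendsto' ((g.sm_tendsto t x).abs.pow (p + 1)) hK)⟩
  refine pow_le_pow_left₀ (abs_nonneg _) ?_ _
  rw [abs_of_nonneg (g.uu_nonneg hε t x), abs_of_nonneg (g.ub_nonneg t x)]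
  exact g.uu_le hε t x

end Noise

end Pool.Agent.Lib.MP_0db9b2_pr
end
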