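import Pool.Agent.Lib.MP_0db9b2_pr.Expect
import Pool.Agent.Lib.MP_0db9b2_pr.Defs

-- part Pool.Agent.Lib.MP_0db9b2_pr.TP
section

/-
Convergence to zero in probability, and martingale transforms of Brownian increments.
-/

set_option autoImplicit false

namespace Pool.Agent.Lib.MP_0db9b2_pr

open MeasureTheory ProbabilityTheory Real Filter
open scoped NNReal ENNReal Topology

variable {d : ℕ} {Ω : Type*} {mΩ : MeasurableSpace Ω}

/-- convergence to zero in probability -/
def TP (P : Measure Ω) (f : ℕ → Ω → ℝ) : Prop :=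
  ∀ η : ℝ, 0 < η → ∀ᶠ q in atTop, P.real {ω | η ≤ |f q ω|} ≤ η

section

variable {P : Measure Ω} [IsProbabilityMeasure P]

theorem TP_iff {f : ℕ → Ω → ℝ} {g : Ω → ℝ} :
    TendstoInMeasure P f atTop g ↔ TP P fun q ω => f q ω - g ω := by
  rw [tendstoInMeasure_iff_measureReal_norm]
  constructor
  · intro h η hη
    exact (h η hη).eventually_le_const hη
  · intro h ε hε
    rw [Metric.tendsto_nhds]
    intro δ hδ
    filter_upwards [h (min ε (δ / 2)) (by positivity)] with q hq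
    rw [Real.dist_eq, sub_zero, abs_of_nonneg measureReal_nonneg]
    refine lt_of_le_of_lt ((measureReal_mono fun ω hω => ?_).trans hq)
      ((min_le_right _ _).trans_lt (by linarith))
    have hω' : ε ≤ |f q ω - g ω| := hω
    exact (min_le_left ε (δ / 2)).trans hω'

theorem TP.add {f g : ℕ → Ω → ℝ} (hf : TP P f) (hg : TP P g) :
    TP P fun q ω => f q ω + g q ω := by
  intro η hη
  filter_upwards [hf (η / 2) (by positivity), hg (η / 2) (by positivity)] with q h1 h2
  have : {ω | η ≤ |f q ω + g q ω|} ⊆ {ω | η / 2 ≤ |f q ω|} ∪ {ω | η / 2 ≤ |g q ω|} := by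
    intro ω hω
    by_contra hc
    simp only [Set.mem_union, Set.mem_ofPred_eq, not_or, not_le] at hc hω
    have := abs_add_le (f q ω) (g q ω)
    linarith [hc.1, hc.2]
  refine (measureReal_mono this).trans ((measureReal_union_le _ _).trans ?_)
  linarith

theorem TP.neg {f : ℕ → Ω → ℝ} (hf : TP P f) : TP P fun q ω => -f q ω := by
  simpa [TP] using hf

theorem TP.sub {f g : ℕ → Ω → ℝ} (hf : TP P f) (hg : TP P g) :
    TP P fun q ω => f q ω - g q ω := by
  simpa [sub_eq_add_neg] using hf.add hg.neg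

theorem TP.sum {ι : Type*} (s : Finset ι) {f : ι → ℕ → Ω → ℝ} (hf : ∀ i ∈ s, TP P (f i)) :
    TP P fun q ω => ∑ i ∈ s, f i q ω := by
  classical
  induction s using Finset.induction_on with
  | empty =>
    intro η hη
    simp [not_le.2 hη, hη.le]
  | insert a s ha ih =>
    simp_rw [Finset.sum_insert ha]
    exact (hf a (Finset.mem_insert_self _ _)).add
      (ih fun i hi => hf i (Finset.mem_insert_of_mem hi))

theorem bad_small {s : ℕ → Set Ω} (hs : ∀ n, MeasurableSet (s n))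
    (h : ∀ᵐ ω ∂P, ∀ᶠ n in atTop, ω ∉ s n) {η : ℝ} (hη : 0 < η) :
    ∀ᶠ n in atTop, P.real (s n) ≤ η := by
  have h1 := tendsto_measure_of_ae_tendsto_indicator_of_isFiniteMeasure atTop (μ := P)
    (A := ∅) MeasurableSet.empty hs (by simpa using h)
  rw [measure_empty] at h1
  have h2 := (ENNReal.tendsto_toReal ENNReal.zero_ne_top).comp h1
  exact h2.eventually_le_const (by simpa using hη)

theorem TP.mul_fixed {f : ℕ → Ω → ℝ} (hf : TP P f) {Y : Ω → ℝ} (hY : Measurable Y) :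
    TP P fun q ω => Y ω * f q ω := by
  intro η hη
  have h1 := bad_small (P := P) (s := fun n : ℕ => {ω | (n : ℝ) < |Y ω|})
    (fun n => measurableSet_lt measurable_const hY.abs)
    (ae_of_all _ fun ω => by
      filter_upwards [tendsto_natCast_atTop_atTop.eventually_ge_atTop |Y ω|] with n hn
      simpa using hn) (half_pos hη)
  obtain ⟨R, hR, hR1⟩ := (h1.and (eventually_ge_atTop 2)).exists
  have hR2 : (2 : ℝ) ≤ R := by exact_mod_cast hR1
  filter_upwards [hf (η / R) (by positivity)] with q h2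
  have : {ω | η ≤ |Y ω * f q ω|} ⊆ {ω | (R : ℝ) < |Y ω|} ∪ {ω | η / R ≤ |f q ω|} := by
    intro ω hω
    by_contra hc
    simp only [Set.mem_union, Set.mem_ofPred_eq, not_or, not_le, not_lt] at hc hω
    rw [abs_mul] at hω
    have h3 := (lt_div_iff₀ (by linarith : (0 : ℝ) < R)).1 hc.2
    nlinarith [abs_nonneg (f q ω), hc.1]
  refine (measureReal_mono this).trans ((measureReal_union_le _ _).trans ?_)
  have : η / R ≤ η / 2 := div_le_div_of_nonneg_left hη.le (by norm_num) hR2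
  linarith

theorem cheb_abs {f : Ω → ℝ} (hf : Integrable f P) {η : ℝ} (hη : 0 < η) :
    P.real {ω | η ≤ |f ω|} ≤ (∫ ω, |f ω| ∂P) / η := by
  rw [le_div_iff₀ hη, mul_comm]
  exact mul_meas_ge_le_integral_of_nonneg (ae_of_all _ fun _ => abs_nonneg _) hf.abs η

theorem cheb_sq {f : Ω → ℝ} (hf : Integrable (fun ω => f ω ^ 2) P) {η : ℝ} (hη : 0 < η) :
    P.real {ω | η ≤ |f ω|} ≤ (∫ ω, f ω ^ 2 ∂P) / η ^ 2 := by
  rw [le_div_iff₀ (by positivity), mul_comm]
  refine le_trans (mul_le_mul_of_nonneg_left (measureReal_mono fun ω hω => ?_) (by positivity))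
    (mul_meas_ge_le_integral_of_nonneg (ae_of_all _ fun _ => sq_nonneg _) hf (η ^ 2))
  have : η ≤ |f ω| := hω
  show η ^ 2 ≤ f ω ^ 2
  rw [← sq_abs (f ω)]
  exact pow_le_pow_left₀ hη.le this 2

theorem integrable_of_sq {f : Ω → ℝ} (hm : Measurable f) (hf : Integrable (fun ω => f ω ^ 2) P) :
    Integrable f P := by
  refine ((integrable_const (1 : ℝ)).add hf).mono' hm.aestronglyMeasurable
    (ae_of_all _ fun ω => ?_)
  simp only [Pi.add_apply, Real.norm_eq_abs]
  nlinarith [sq_nonneg (|f ω| - 1), sq_abs (f ω)]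

end

noncomputable def clamp (R y : ℝ) : ℝ := max (-R) (min R y)

theorem abs_clamp_le {R : ℝ} (hR : 0 ≤ R) (y : ℝ) : |clamp R y| ≤ R :=
  abs_le.2 ⟨le_max_left _ _, max_le (by linarith) (min_le_left _ _)⟩

theorem clamp_eq {R y : ℝ} (h : |y| ≤ R) : clamp R y = y := by
  rw [abs_le] at h
  unfold clamp
  rw [min_eq_right h.2, max_eq_right h.1]

theorem measurable_clamp (R : ℝ) : Measurable (clamp R) := by unfold clamp; fun_prop

/-- the increment of w x over the j-th cell of the grid of mesh 1/N -/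
noncomputable def incr (w : Site d → ℝ≥0 → Ω → ℝ) (x : Site d) (N j : ℕ) (ω : Ω) : ℝ :=
  w x (tm N j + tm N 1) ω - w x (tm N j) ω

namespace Noise

variable {P : Measure Ω} {F : Filtration ℝ≥0 mΩ} {w : Site d → ℝ≥0 → Ω → ℝ}

theorem incr_adapted (h : Noise P F w) (x : Site d) (N : ℕ) {j l : ℕ} (hj : j < l) :
    Measurable[F (tm N l)] (incr w x N j) := by
  have h1 : Measurable[F (tm N l)] (w x (tm N j + tm N 1)) :=
    (h.ad x).measurable_le (by rw [← tm_succ]; exact tm_mono N hj)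
  have h2 : Measurable[F (tm N l)] (w x (tm N j)) := (h.ad x).measurable_le (tm_mono N hj.le)
  exact h1.sub h2

theorem mart_transform (h : Noise P F w) (x : Site d) (N o : ℕ) {H : ℕ → Ω → ℝ} {R : ℝ}
    (hH : ∀ i, Measurable[F (tm N (o + i))] (H i)) (hR : ∀ i ω, |H i ω| ≤ R) {g : ℝ → ℝ}
    (hg : Measurable g) (hg2 : Integrable (fun y => g y ^ 2) (gaussianReal 0 (tm N 1)))
    (hg0 : ∫ y, g y ∂(gaussianReal 0 (tm N 1)) = 0) {v : ℝ}
    (hv : ∫ y, g y ^ 2 ∂(gaussianReal 0 (tm N 1)) ≤ v) (c : ℕ) :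
    Integrable (fun ω => (∑ i ∈ Finset.range c, H i ω * g (incr w x N (o + i) ω)) ^ 2) P ∧
      ∫ ω, (∑ i ∈ Finset.range c, H i ω * g (incr w x N (o + i) ω)) ^ 2 ∂P ≤ c * R ^ 2 * v := by
  have := h.prob
  have hg1 : Integrable g (gaussianReal 0 (tm N 1)) := integrable_of_sq hg hg2
  induction c with
  | zero => simp
  | succ c ih =>
    have mS : Measurable[F (tm N (o + c))] fun ω =>
        ∑ i ∈ Finset.range c, H i ω * g (incr w x N (o + i) ω) :=
      Finset.measurable_sum _ fun i hi => by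
        have hi' := Finset.mem_range.1 hi
        exact ((hH i).mono (F.mono (tm_mono N (by omega))) le_rfl).mul
          (hg.comp (h.incr_adapted x N (by omega)))
    have iS := integrable_of_sq (mS.mono (F.le _) le_rfl) ih.1
    have mH := (hH c).mono (F.le _) le_rfl
    have iSH : Integrable (fun ω =>
        (∑ i ∈ Finset.range c, H i ω * g (incr w x N (o + i) ω)) * H c ω) P :=
      iS.mul_bdd mH.aestronglyMeasurable (ae_of_all _ fun ω => hR c ω)
    have iHH : Integrable (fun ω => H c ω ^ 2) P :=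
      Integrable.of_bound (mH.pow_const 2).aestronglyMeasurable (R ^ 2) (ae_of_all _ fun ω => by
        rw [Real.norm_eq_abs, abs_pow]
        exact pow_le_pow_left₀ (abs_nonneg _) (hR c ω) 2)
    have a1 := h.HI_incr_mul x (tm N (o + c)) (tm N 1) hg hg1 (mS.mul (hH c)) iSH
    have a2 := h.HI_incr_mul x (tm N (o + c)) (tm N 1) (g := fun y => g y ^ 2) (hg.pow_const 2) hg2
      ((hH c).pow_const 2) iHH
    have a0 : HI P (fun ω => (∑ i ∈ Finset.range c, H i ω * g (incr w x N (o + i) ω)) ^ 2) _ :=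
      ⟨ih.1, rfl⟩
    have a3 := ((a0.add (a1.const_mul 2)).add a2).congr
      (g := fun ω => (∑ i ∈ Finset.range (c + 1), H i ω * g (incr w x N (o + i) ω)) ^ 2)
      (fun ω => by rw [Finset.sum_range_succ]; simp only [incr, Pi.mul_apply]; ring) rfl
    refine ⟨a3.1, ?_⟩
    rw [a3.2, hg0]
    have b1 : ∫ ω, H c ω ^ 2 ∂P ≤ R ^ 2 := by
      refine (integral_mono iHH (integrable_const (R ^ 2)) fun ω => ?_).trans (by simp)
      show H c ω ^ 2 ≤ R ^ 2
      rw [← sq_abs (H c ω)]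
      exact pow_le_pow_left₀ (abs_nonneg _) (hR c ω) 2
    have b2 : 0 ≤ ∫ y, g y ^ 2 ∂(gaussianReal 0 (tm N 1)) := integral_nonneg fun _ => sq_nonneg _
    have b3 : 0 ≤ ∫ ω, H c ω ^ 2 ∂P := integral_nonneg fun _ => sq_nonneg _
    have b4 := mul_le_mul hv b1 b3 (b2.trans hv)
    have b5 := ih.2
    push_cast
    linarith

end Noise

end Pool.Agent.Lib.MP_0db9b2_pr
end

-- part Pool.Agent.Lib.MP_0db9b2_pr.ItoDet
section

/-
Pathwise part of the product formula.
-/

set_option autoImplicit false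

namespace Pool.Agent.Lib.MP_0db9b2_pr

open MeasureTheory Real Filter
open scoped NNReal ENNReal Topology

noncomputable def Zf (B : ℝ≥0 → ℝ) (t : ℝ≥0) : ℝ := exp (-B t + t / 2)

theorem continuous_Zf {B : ℝ≥0 → ℝ} (hB : Continuous B) : Continuous (Zf B) := by
  unfold Zf; fun_prop

theorem unif_cont {f : ℝ≥0 → ℝ} (hf : Continuous f) (T : ℝ≥0) {η : ℝ} (hη : 0 < η) :
    ∃ δ : ℝ, 0 < δ ∧ ∀ r s : ℝ≥0, r ≤ T → s ≤ T → |(r : ℝ) - s| ≤ δ → |f r - f s| ≤ η := by
  have h := (isCompact_Icc (a := (0 : ℝ≥0)) (b := T)).uniformContinuousOn_of_continuous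
    hf.continuousOn
  obtain ⟨δ, hδ, h1⟩ := Metric.uniformContinuousOn_iff_le.1 h η hη
  exact ⟨δ, hδ, fun r s hr hs hrs => h1 r ⟨zero_le, hr⟩ s ⟨zero_le, hs⟩ hrs⟩

theorem exists_bound {f : ℝ≥0 → ℝ} (hf : Continuous f) (T : ℝ≥0) :
    ∃ K : ℝ, 0 < K ∧ ∀ r : ℝ≥0, r ≤ T → |f r| ≤ K := by
  obtain ⟨C, hC⟩ := (isCompact_Icc (a := (0 : ℝ≥0)) (b := T)).exists_bound_of_continuousOn
    hf.continuousOn
  exact ⟨max C 1, by positivity, fun r hr => (hC r ⟨zero_le, hr⟩).trans (le_max_left _ _)⟩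

theorem tm_mul (n j : ℕ) {M : ℕ} (hM : 0 < M) : tm (n * M) (j * M) = tm n j := by
  unfold tm
  have : (M : ℝ≥0) ≠ 0 := by exact_mod_cast hM.ne'
  push_cast
  rw [mul_div_mul_right _ _ this]

theorem tm_one_le {n : ℕ} (hn : 0 < n) : tm n 1 ≤ 1 := by
  unfold tm
  have : (1 : ℝ≥0) ≤ n := by exact_mod_cast hn
  simpa using inv_le_one_of_one_le₀ this

theorem tendsto_mesh {n0 : ℕ} (hn : 0 < n0) :
    Tendsto (fun q : ℕ => (tm (n0 * (q + 1)) 1 : ℝ)) atTop (𝓝 0) := by
  simp_rw [coe_tm]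
  refine tendsto_const_div_atTop_nhds_zero_nat ((1 : ℕ) : ℝ) |>.comp ?_
  exact tendsto_atTop_mono (fun q => show q ≤ n0 * (q + 1) by nlinarith) tendsto_id

theorem count_mul_mesh (n J : ℕ) : (J : ℝ) * (tm n 1 : ℝ) = tm n J := by
  rw [coe_tm, coe_tm]; push_cast; ring

theorem intInt {G : ℝ≥0 → ℝ} (hG : Continuous G) (a b : ℝ) :
    IntervalIntegrable (fun r : ℝ => G r.toNNReal) volume a b :=
  (hG.comp continuous_real_toNNReal).intervalIntegrable a b

theorem mem_cell {n j : ℕ} {r : ℝ} (hr : r ∈ Set.uIoc (tm n j : ℝ) (tm n (j + 1))) :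
    r.toNNReal ≤ tm n (j + 1) ∧ |(tm n (j + 1) : ℝ) - r.toNNReal| ≤ tm n 1 ∧
      |(r.toNNReal : ℝ) - tm n j| ≤ tm n 1 := by
  have h1 : (tm n j : ℝ) ≤ tm n (j + 1) := by exact_mod_cast tm_mono n (Nat.le_succ j)
  rw [Set.uIoc_of_le h1] at hr
  have h0 : 0 ≤ r := (tm n j).coe_nonneg.trans hr.1.le
  have h2 : (tm n (j + 1) : ℝ) = tm n j + tm n 1 := by rw [tm_succ]; push_cast; rfl
  have h3 := hr.1
  have h4 := hr.2
  refine ⟨Real.toNNReal_le_iff_le_coe.2 hr.2, ?_, ?_⟩
  · rw [Real.coe_toNNReal r h0, abs_le]; constructor <;> linarith [(tm n 1).coe_nonneg]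
  · rw [Real.coe_toNNReal r h0, abs_le]; constructor <;> linarith [(tm n 1).coe_nonneg]

noncomputable def T1 (B G : ℝ≥0 → ℝ) (n J : ℕ) : ℝ :=
  ∑ j ∈ Finset.range J, Zf B (tm n (j + 1)) * (∫ r in (tm n j : ℝ)..tm n (j + 1), G r.toNNReal) -
    ∫ r in (0 : ℝ)..tm n J, Zf B r.toNNReal * G r.toNNReal

noncomputable def Iof (U G : ℝ≥0 → ℝ) (t : ℝ≥0) : ℝ :=
  U t - 1 - ∫ r in (0 : ℝ)..t, G r.toNNReal

noncomputable def T2 (B U G : ℝ≥0 → ℝ) (n J : ℕ) : ℝ :=
  ∑ j ∈ Finset.range J, Zf B (tm n (j + 1)) * (Iof U G (tm n (j + 1)) - Iof U G (tm n j) -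
    U (tm n j) * (B (tm n j + tm n 1) - B (tm n j)))

noncomputable def hfun (v : ℝ≥0) (y : ℝ) : ℝ := exp (-y + v / 2) * (1 + y) - 1

noncomputable def T3 (B U : ℝ≥0 → ℝ) (n J : ℕ) : ℝ :=
  ∑ j ∈ Finset.range J, Zf B (tm n j) * U (tm n j) *
    hfun (tm n 1) (B (tm n j + tm n 1) - B (tm n j))

theorem Zf_succ (B : ℝ≥0 → ℝ) (n j : ℕ) : Zf B (tm n (j + 1)) =
    Zf B (tm n j) * exp (-(B (tm n j + tm n 1) - B (tm n j)) + (tm n 1 : ℝ) / 2) := by
  unfold Zf
  rw [← exp_add, tm_succ]; congr 1; push_cast; ring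

theorem decomposition (B U : ℝ≥0 → ℝ) {G : ℝ≥0 → ℝ} (hG : Continuous G) (n J : ℕ) :
    Zf B (tm n J) * U (tm n J) - Zf B 0 * U 0 -
      ∫ r in (0 : ℝ)..tm n J, Zf B r.toNNReal * G r.toNNReal =
      T1 B G n J + T2 B U G n J + T3 B U n J := by
  have h1 := Finset.sum_range_sub (fun j => Zf B (tm n j) * U (tm n j)) J
  rw [tm_zero] at h1
  rw [← h1]
  unfold T1 T2 T3
  have : ∑ j ∈ Finset.range J, (Zf B (tm n (j + 1)) * U (tm n (j + 1)) -
      Zf B (tm n j) * U (tm n j)) = ∑ j ∈ Finset.range J,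
      (Zf B (tm n (j + 1)) * (∫ r in (tm n j : ℝ)..tm n (j + 1), G r.toNNReal) +
      Zf B (tm n (j + 1)) * (Iof U G (tm n (j + 1)) - Iof U G (tm n j) -
        U (tm n j) * (B (tm n j + tm n 1) - B (tm n j))) +
      Zf B (tm n j) * U (tm n j) * hfun (tm n 1) (B (tm n j + tm n 1) - B (tm n j))) := by
    refine Finset.sum_congr rfl fun j _ => ?_
    rw [← intervalIntegral.integral_interval_sub_left (intInt hG 0 _) (intInt hG 0 _)]
    unfold Iof hfun
    rw [Zf_succ]
    ring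
  rw [this, Finset.sum_add_distrib, Finset.sum_add_distrib]
  ring

theorem T1_tendsto {B G : ℝ≥0 → ℝ} (hB : Continuous B) (hG : Continuous G) {n0 : ℕ} (hn : 0 < n0)
    (J : ℕ) : Tendsto (fun q => T1 B G (n0 * (q + 1)) (J * (q + 1))) atTop (𝓝 0) := by
  obtain ⟨K, hK, hKb⟩ := exists_bound hG (tm n0 J)
  rw [Metric.tendsto_nhds]
  intro ε hε
  have hT := (tm n0 J).coe_nonneg
  obtain ⟨δ, hδ, hu⟩ := unif_cont (continuous_Zf hB) (tm n0 J)
    (η := ε / (2 * K * (tm n0 J + 1))) (by positivity)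
  filter_upwards [(tendsto_mesh hn).eventually_le_const hδ] with q hq
  set n := n0 * (q + 1)
  set J' := J * (q + 1)
  have hT' : tm n J' = tm n0 J := tm_mul n0 J (Nat.succ_pos q)
  have hZG : Continuous fun r => Zf B r * G r := (continuous_Zf hB).mul hG
  have h1 := intervalIntegral.sum_integral_adjacent_intervals (μ := volume)
    (f := fun r : ℝ => Zf B r.toNNReal * G r.toNNReal) (a := fun j => (tm n j : ℝ)) (n := J')
    fun _ _ => intInt hZG _ _
  simp only [tm_zero, NNReal.coe_zero] at h1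
  rw [Real.dist_eq, sub_zero, T1, ← h1, ← Finset.sum_sub_distrib]
  have h2 : ∀ j ∈ Finset.range J',
      |Zf B (tm n (j + 1)) * (∫ r in (tm n j : ℝ)..tm n (j + 1), G r.toNNReal) -
        ∫ r in (tm n j : ℝ)..tm n (j + 1), Zf B r.toNNReal * G r.toNNReal| ≤
        ε / (2 * K * (tm n0 J + 1)) * K * tm n 1 := by
    intro j hj
    have hj' : tm n (j + 1) ≤ tm n0 J := hT' ▸ tm_mono n (Finset.mem_range.1 hj)
    rw [← intervalIntegral.integral_const_mul, ← intervalIntegral.integral_sub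
      ((intInt hG _ _).const_mul _) (intInt hZG _ _)]
    have h3 := intervalIntegral.norm_integral_le_of_norm_le_const (a := (tm n j : ℝ))
      (b := tm n (j + 1)) (C := ε / (2 * K * (tm n0 J + 1)) * K)
      (f := fun r : ℝ => Zf B (tm n (j + 1)) * G r.toNNReal - Zf B r.toNNReal * G r.toNNReal)
      fun r hr => by
        obtain ⟨c1, c2, -⟩ := mem_cell hr
        rw [Real.norm_eq_abs, ← sub_mul, abs_mul]
        exact mul_le_mul (hu _ _ hj' (c1.trans hj') (c2.trans hq)) (hKb _ (c1.trans hj'))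
          (abs_nonneg _) (by positivity)
    have h4 : |(tm n (j + 1) : ℝ) - tm n j| = tm n 1 := by
      rw [tm_succ]; push_cast; rw [add_sub_cancel_left, abs_of_nonneg (tm n 1).coe_nonneg]
    rwa [h4] at h3
  refine ((Finset.abs_sum_le_sum_abs _ _).trans (Finset.sum_le_sum h2)).trans_lt ?_
  rw [Finset.sum_const, Finset.card_range, nsmul_eq_mul]
  have h5 : (J' : ℝ) * (ε / (2 * K * (tm n0 J + 1)) * K * tm n 1) =
      ε / 2 * (tm n0 J / (tm n0 J + 1)) := by
    rw [← hT', ← count_mul_mesh n J']; field_simp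
  rw [h5]
  have h6 : (tm n0 J : ℝ) / (tm n0 J + 1) ≤ 1 := (div_le_one (by positivity)).2 (by linarith)
  nlinarith

/-- the grid sum -/
noncomputable def gridSum (U B : ℝ≥0 → ℝ) (N j : ℕ) : ℝ :=
  ∑ i ∈ Finset.range j, U (tm N i) * (B (tm N i + tm N 1) - B (tm N i))

theorem itoSum_grid (U B : ℝ≥0 → ℝ) (n j : ℕ) {M : ℕ} (hM : 0 < M) :
    itoSum U B (tm n j) (j * M) = gridSum U B (n * M) (j * M) := by
  unfold itoSum gridSum
  refine Finset.sum_congr rfl fun i hi => ?_
  have hj : 0 < j := by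
    rcases Nat.eq_zero_or_pos j with h | h
    · simp [h] at hi
    · exact h
  have hj' : (j : ℝ≥0) ≠ 0 := by exact_mod_cast hj.ne'
  have hM' : (M : ℝ≥0) ≠ 0 := by exact_mod_cast hM.ne'
  have e : ∀ a : ℝ≥0, tm n j * a / ((j * M : ℕ) : ℝ≥0) = a / ((n * M : ℕ) : ℝ≥0) := by
    intro a
    unfold tm
    push_cast
    rcases eq_or_ne (n : ℝ≥0) 0 with h | h
    · simp [h]
    · field_simp
  rw [e, e, ← tm_succ]
  simp only [tm, Nat.cast_add, Nat.cast_one]

theorem sum_range_mul_succ (f : ℕ → ℝ) (J M : ℕ) :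
    ∑ i ∈ Finset.range (J * M), f i =
      ∑ j ∈ Finset.range J, ∑ i ∈ Finset.range M, f (j * M + i) := by
  induction J with
  | zero => simp
  | succ J ih => rw [Nat.succ_mul, Finset.sum_range_add, ih, Finset.sum_range_succ]

theorem gridSum_block (U B : ℝ≥0 → ℝ) (n j : ℕ) {M : ℕ} (hM : 0 < M) :
    gridSum U B (n * M) ((j + 1) * M) - gridSum U B (n * M) (j * M) -
      U (tm n j) * (B (tm n j + tm n 1) - B (tm n j)) =
      ∑ i ∈ Finset.range M, (U (tm (n * M) (j * M + i)) - U (tm n j)) *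
        (B (tm (n * M) (j * M + i) + tm (n * M) 1) - B (tm (n * M) (j * M + i))) := by
  have h1 := Finset.sum_range_sub (fun i => B (tm (n * M) (j * M + i))) M
  have e1 : tm (n * M) (j * M + M) = tm n j + tm n 1 := by
    rw [← tm_succ, ← tm_mul n (j + 1) hM, Nat.succ_mul]
  rw [add_zero, tm_mul n j hM, e1] at h1
  unfold gridSum
  rw [Nat.succ_mul, Finset.sum_range_add, add_sub_cancel_left, ← h1, Finset.mul_sum,
    ← Finset.sum_sub_distrib]
  refine Finset.sum_congr rfl fun i _ => ?_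
  have e2 : tm (n * M) (j * M + (i + 1)) = tm (n * M) (j * M + i) + tm (n * M) 1 :=
    tm_succ (n * M) (j * M + i)
  rw [e2]; ring

end Pool.Agent.Lib.MP_0db9b2_pr
end

-- part Pool.Agent.Lib.MP_0db9b2_pr.ConvDet
section

/-
Deterministic estimates for the convergence of the scheme.
-/

set_option autoImplicit false

namespace Pool.Agent.Lib.MP_0db9b2_pr

open MeasureTheory Real Filter
open scoped NNReal ENNReal Topology

variable {d : ℕ}

noncomputable def par (d : ℕ) (k a ε : ℝ) (b n : ℕ) : Par :=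
  ⟨1 + (a - 2 * d * k) * (tm n 1 : ℝ), k * (tm n 1 : ℝ), b * ε * (tm n 1 : ℝ), b⟩

theorem tendsto_tm_one : Tendsto (fun n : ℕ => (tm n 1 : ℝ)) atTop (𝓝 0) := by
  simp_rw [coe_tm]
  exact tendsto_const_div_atTop_nhds_zero_nat ((1 : ℕ) : ℝ)

theorem tm_one_pos {n : ℕ} (hn : 0 < n) : (0 : ℝ) < tm n 1 := by
  rw [coe_tm]; positivity

theorem tm_nat {n : ℕ} (hn : 0 < n) (T : ℕ) : tm n (T * n) = T := by
  have := tm_mul 1 T hn
  rw [one_mul] at this
  rw [this]; simp [tm]

theorem par_good {k a ε : ℝ} {b : ℕ} (hk : 0 ≤ k) (hε : 0 < ε) (hb : b ≠ 0) :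
    ∀ᶠ n in atTop, 0 < n ∧ (par d k a ε b n).Good := by
  have h1 : Tendsto (fun n : ℕ => 1 + (a - 2 * d * k) * (tm n 1 : ℝ)) atTop (𝓝 1) := by
    simpa using (tendsto_tm_one.const_mul (a - 2 * d * k)).const_add 1
  filter_upwards [eventually_gt_atTop 0, h1.eventually_const_lt one_pos] with n hn h2
  have := tm_one_pos hn
  have hb' : (0 : ℝ) < b := by exact_mod_cast Nat.pos_of_ne_zero hb
  exact ⟨hn, h2, mul_nonneg hk this.le, by show 0 < b * ε * (tm n 1 : ℝ); positivity, hb⟩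

theorem lin_par (k a ε : ℝ) (b n : ℕ) (f : Site d → ℝ) (x : Site d) :
    lin (par d k a ε b n) f x = f x + (tm n 1 : ℝ) * (k * lap f x + a * f x) := by
  have : lap f x = ∑ i : Fin d, (f (x + Pi.single i 1) + f (x - Pi.single i 1)) - 2 * d * f x := by
    unfold lap
    have h : ∀ i : Fin d, (f (x + Pi.single i 1) - f x) + (f (x - Pi.single i 1) - f x) =
        (f (x + Pi.single i 1) + f (x - Pi.single i 1)) - 2 * f x := fun i => by ring
    simp only [h, Finset.sum_sub_distrib, Finset.sum_const, Finset.card_univ, Fintype.card_fin,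
      nsmul_eq_mul]
    ring
  rw [this]
  simp only [lin, par]
  ring

noncomputable def Yf (ε : ℝ) (b : ℕ) (W : ℝ) : ℝ :=
  b ^ 2 * ε ^ 2 * W ^ (2 * b + 1) + ε * (b + 1) * W ^ (b + 1)

theorem Yf_mono {ε : ℝ} (hε : 0 ≤ ε) (b : ℕ) {W K : ℝ} (hW : 0 ≤ W) (h : W ≤ K) :
    Yf ε b W ≤ Yf ε b K := by
  unfold Yf; gcongr

theorem Yf_nonneg {ε : ℝ} (hε : 0 ≤ ε) (b : ℕ) {W : ℝ} (hW : 0 ≤ W) : 0 ≤ Yf ε b W := by
  unfold Yf; positivity

theorem loc1 {b : ℕ} (hb : b ≠ 0) {ε δ U L : ℝ} (hε : 0 ≤ ε) (h0 : 0 ≤ δ) (h1 : δ ≤ 1)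
    (hv : 0 ≤ U + δ * L) :
    |U + δ * (L - ε * U ^ (b + 1)) - rho (b * ε * δ) b (U + δ * L)| ≤
      δ ^ 2 * Yf ε b (|U| + |L|) := by
  set v := U + δ * L with hvd
  set W := |U| + |L| with hW
  have hb' : (0 : ℝ) < b := by exact_mod_cast Nat.pos_of_ne_zero hb
  have t1 := rho_taylor (c := b * ε * δ) (by positivity) hb hv
  have e1 : b * ε * δ / b = ε * δ := by field_simp
  rw [e1] at t1
  have hL : |δ * L| ≤ δ * W := by
    rw [abs_mul, abs_of_nonneg h0]
    exact mul_le_mul_of_nonneg_left (le_add_of_nonneg_left (abs_nonneg _)) h0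
  have hvW : |v| ≤ W := (abs_add_le _ _).trans (add_le_add le_rfl (by
    rw [abs_mul, abs_of_nonneg h0]; exact mul_le_of_le_one_left (abs_nonneg _) h1))
  have hUW : |U| ≤ W := le_add_of_nonneg_right (abs_nonneg _)
  have hW0 : 0 ≤ W := (abs_nonneg _).trans hUW
  have t2 : |v ^ (b + 1) - U ^ (b + 1)| ≤ δ * W * (b + 1) * W ^ b := by
    refine (abs_pow_sub_pow_le v U (b + 1)).trans ?_
    rw [Nat.add_sub_cancel, show v - U = δ * L by ring]
    push_cast
    gcongr
    exact max_le hvW hUW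
  have t3 : v ^ (2 * b + 1) ≤ W ^ (2 * b + 1) :=
    pow_le_pow_left₀ hv ((le_abs_self v).trans hvW) _
  have e2 : U + δ * (L - ε * U ^ (b + 1)) - rho (b * ε * δ) b v =
      ε * δ * (v ^ (b + 1) - U ^ (b + 1)) - (rho (b * ε * δ) b v - v + ε * δ * v ^ (b + 1)) := by
    rw [hvd]; ring
  rw [e2]
  refine (abs_sub _ _).trans ?_
  rw [abs_mul, abs_of_nonneg (mul_nonneg hε h0)]
  have t4 := mul_le_mul_of_nonneg_left t2 (mul_nonneg hε h0)
  have t5 := mul_le_mul_of_nonneg_left t3 (sq_nonneg (b * ε * δ))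
  have e3 : δ ^ 2 * Yf ε b W = ε * δ * (δ * W * (b + 1) * W ^ b) +
      (b * ε * δ) ^ 2 * W ^ (2 * b + 1) := by unfold Yf; ring
  linarith

theorem Zf_pos (B : ℝ≥0 → ℝ) (t : ℝ≥0) : 0 < Zf B t := exp_pos _

theorem noise_eq (ϖ : Path d) (n j : ℕ) (x : Site d) :
    noise n ϖ j x = Zf (ϖ x) (tm n j) / Zf (ϖ x) (tm n (j + 1)) := by
  unfold noise Zf
  rw [← exp_sub, tm_succ n j]; congr 1; push_cast; ring

theorem cell_eq {B U G : ℝ≥0 → ℝ} (hB : Continuous B) (hG : Continuous G) {s s' : ℝ≥0}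
    (h1 : Zf B s * U s = 1 + ∫ r in (0 : ℝ)..s, Zf B r.toNNReal * G r.toNNReal)
    (h2 : Zf B s' * U s' = 1 + ∫ r in (0 : ℝ)..s', Zf B r.toNNReal * G r.toNNReal) :
    U s' - Zf B s / Zf B s' * U s =
      ∫ r in (s : ℝ)..s', Zf B r.toNNReal / Zf B s' * G r.toNNReal := by
  have hc : Continuous fun r => Zf B r * G r := (continuous_Zf hB).mul hG
  have h3 := intervalIntegral.integral_interval_sub_left (intInt hc 0 s') (intInt hc 0 s)
  have h4 : ∀ r : ℝ, Zf B r.toNNReal / Zf B s' * G r.toNNReal =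
      (Zf B s')⁻¹ * (Zf B r.toNNReal * G r.toNNReal) := fun r => by ring
  simp_rw [h4]
  rw [intervalIntegral.integral_const_mul, ← h3]
  have := Zf_pos B s'
  field_simp
  linarith

theorem loc_small {b : ℕ} (hb : b ≠ 0) {ε : ℝ} (hε : 0 ≤ ε) {B U L : ℝ≥0 → ℝ}
    (hB : Continuous B) (hU : Continuous U) (hL : Continuous L)
    (hp : ∀ n j, 0 < n → Zf B (tm n j) * U (tm n j) = 1 + ∫ r in (0 : ℝ)..tm n j,
      Zf B r.toNNReal * (L r.toNNReal - ε * U r.toNNReal ^ (b + 1)))
    (hv : ∀ᶠ n in atTop, ∀ j, 0 ≤ U (tm n j) + (tm n 1 : ℝ) * L (tm n j)) (T : ℕ) {η : ℝ}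
    (hη : 0 < η) : ∀ᶠ n in atTop, ∀ j < T * n,
      |U (tm n (j + 1)) - Zf B (tm n j) / Zf B (tm n (j + 1)) *
        rho (b * ε * (tm n 1 : ℝ)) b (U (tm n j) + (tm n 1 : ℝ) * L (tm n j))| ≤ η * tm n 1 := by
  have hG : Continuous fun r => L r - ε * U r ^ (b + 1) := by fun_prop
  have hZ := continuous_Zf hB
  obtain ⟨K1, p1, b1⟩ := exists_bound hZ T
  obtain ⟨K2, p2, b2⟩ := exists_bound (hZ.inv₀ fun t => (Zf_pos B t).ne') T
  obtain ⟨K3, p3, b3⟩ := exists_bound (hU.abs.add hL.abs) T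
  obtain ⟨δ, hδ, hu⟩ := unif_cont (hZ.mul hG) T (η := η / 2 / K2) (by positivity)
  have h1 : Tendsto (fun n : ℕ => K1 * K2 * Yf ε b K3 * (tm n 1 : ℝ)) atTop (𝓝 0) := by
    simpa using tendsto_tm_one.const_mul (K1 * K2 * Yf ε b K3)
  filter_upwards [hv, eventually_gt_atTop 0, tendsto_tm_one.eventually_le_const hδ,
    h1.eventually_le_const (half_pos hη)] with n v0 hn q1 q2 j hj
  have a1 : tm n (j + 1) ≤ T := tm_nat hn T ▸ tm_mono n hj
  have a2 : tm n j ≤ T := (tm_mono n (Nat.le_succ j)).trans a1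
  have hc := cell_eq (G := fun r => L r - ε * U r ^ (b + 1)) hB hG (hp n j hn) (hp n (j + 1) hn)
  have hl := loc1 hb hε (tm n 1).coe_nonneg (by exact_mod_cast tm_one_le hn) (v0 j)
  have hd : (tm n (j + 1) : ℝ) - tm n j = tm n 1 := by rw [tm_succ]; push_cast; ring
  have hd0 := tm_one_pos hn
  set s := tm n j
  set s' := tm n (j + 1)
  set δn : ℝ := ((tm n 1 : ℝ≥0) : ℝ)
  have z1 := Zf_pos B s
  have z2 := Zf_pos B s'
  have c1 : |(∫ r in (s : ℝ)..s', Zf B r.toNNReal / Zf B s' *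
      (L r.toNNReal - ε * U r.toNNReal ^ (b + 1))) -
      δn * (Zf B s / Zf B s' * (L s - ε * U s ^ (b + 1)))| ≤ η / 2 * δn := by
    have hc2 : Continuous fun r => Zf B r / Zf B s' * (L r - ε * U r ^ (b + 1)) := by fun_prop
    rw [← hd, ← smul_eq_mul, ← intervalIntegral.integral_const,
      ← intervalIntegral.integral_sub (intInt hc2 _ _) intervalIntegrable_const,
      ← Real.norm_eq_abs]
    refine (intervalIntegral.norm_integral_le_of_norm_le_const (C := η / 2) fun r hr => ?_).trans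
      (by rw [hd, abs_of_pos hd0])
    obtain ⟨m1, -, m3⟩ := mem_cell hr
    have e : Zf B r.toNNReal / Zf B s' * (L r.toNNReal - ε * U r.toNNReal ^ (b + 1)) -
        Zf B s / Zf B s' * (L s - ε * U s ^ (b + 1)) = (Zf B s')⁻¹ *
        (Zf B r.toNNReal * (L r.toNNReal - ε * U r.toNNReal ^ (b + 1)) -
          Zf B s * (L s - ε * U s ^ (b + 1))) := by ring
    rw [e, Real.norm_eq_abs, abs_mul]
    refine (mul_le_mul (b2 _ a1) (hu _ _ (m1.trans a1) a2 (m3.trans q1)) (abs_nonneg _)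
      p2.le).trans (le_of_eq ?_)
    field_simp
  have c2 : Zf B s / Zf B s' ≤ K1 * K2 := by
    rw [div_eq_mul_inv]
    exact mul_le_mul ((le_abs_self _).trans (b1 _ a2)) ((le_abs_self _).trans (b2 _ a1))
      (by positivity) p1.le
  have c3 : Yf ε b (|U s| + |L s|) ≤ Yf ε b K3 :=
    Yf_mono hε b (by positivity) ((le_abs_self _).trans (b3 _ a2))
  have c4 : |Zf B s / Zf B s' * (U s + δn * (L s - ε * U s ^ (b + 1)) -
      rho (b * ε * δn) b (U s + δn * L s))| ≤ η / 2 * δn := by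
    rw [abs_mul, abs_of_pos (div_pos z1 z2)]
    refine (mul_le_mul c2 (hl.trans (mul_le_mul_of_nonneg_left c3 (sq_nonneg _))) (abs_nonneg _)
      (by positivity)).trans ?_
    have := mul_le_mul_of_nonneg_right q2 hd0.le
    linarith
  rw [← hc] at c1
  have c5 := (abs_add_le _ _).trans (add_le_add c1 c4)
  refine le_trans (le_of_eq ?_) (c5.trans (le_of_eq (by ring)))
  congr 1; ring

theorem lin_par_le {k a ε : ℝ} {b n : ℕ} (hk : 0 ≤ k) {f : Site d → ℝ} {x : Site d} {m : ℝ}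
    (h0 : 0 ≤ f x) (hx : f x ≤ m) (h1 : ∀ i, f (x + Pi.single i 1) ≤ m)
    (h2 : ∀ i, f (x - Pi.single i 1) ≤ m) :
    lin (par d k a ε b n) f x ≤ f x + (tm n 1 : ℝ) * ((|a| + 2 * d * k) * m) := by
  have h3 : ∑ i : Fin d, (f (x + Pi.single i 1) + f (x - Pi.single i 1)) ≤ 2 * d * m := by
    refine (Finset.sum_le_sum fun i _ => add_le_add (h1 i) (h2 i)).trans (le_of_eq ?_)
    simp only [Finset.sum_const, Finset.card_univ, Fintype.card_fin, nsmul_eq_mul]; ring
  have h4 : a * f x ≤ |a| * m :=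
    (mul_le_mul_of_nonneg_right (le_abs_self a) h0).trans
      (mul_le_mul_of_nonneg_left hx (abs_nonneg a))
  have h5 := mul_le_mul_of_nonneg_left h3 hk
  have h6 : 0 ≤ 2 * d * k * f x := by positivity
  have h7 : (a - 2 * d * k) * f x +
      k * ∑ i : Fin d, (f (x + Pi.single i 1) + f (x - Pi.single i 1)) ≤
      (|a| + 2 * d * k) * m := by linarith
  have h8 := mul_le_mul_of_nonneg_left h7 (tm n 1).coe_nonneg
  simp only [lin, par]
  linarith

theorem gronwall {k a ε : ℝ} {b : ℕ} (hk : 0 ≤ k) {e l : ℕ → ℕ → Site d → ℝ} (T : ℕ) {C : ℝ}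
    (hC : 0 ≤ C) (he0 : ∀ n x, e n 0 x ≤ 0) (he : ∀ n j x, 0 ≤ e n j x)
    (hl0 : ∀ n j x, 0 ≤ l n j x)
    (hrec : ∀ᶠ n in atTop, ∀ j < T * n, ∀ x,
      e n (j + 1) x ≤ lin (par d k a ε b n) (e n j) x + l n j x)
    (hl : ∀ᶠ n in atTop, ∀ j < T * n, ∀ x, l n j x ≤ C * tm n 1)
    (hs : ∀ x η, 0 < η → ∀ᶠ n in atTop, ∑ j ∈ Finset.range (T * n), l n j x ≤ η)
    (x : Site d) {η : ℝ} (hη : 0 < η) : ∀ᶠ n in atTop, ∀ j ≤ T * n, e n j x ≤ η := by
  set D := |a| + 2 * d * k with hD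
  have hD0 : 0 ≤ D := by positivity
  have key : ∀ (q : ℕ) (x : Site d) (η : ℝ), 0 < η → ∀ᶠ n in atTop, ∀ j ≤ T * n,
      e n j x ≤ T * C / 2 ^ q * (1 + 2 * D * tm n 1) ^ j + η := by
    intro q
    induction q with
    | zero =>
      intro x η hη
      filter_upwards [hrec, hl, eventually_gt_atTop 0] with n r1 r2 hn j hj
      have hδ := (tm n 1).coe_nonneg
      have h1 : ∀ j ≤ T * n, ∀ y, e n j y ≤ j * tm n 1 * C * (1 + 2 * D * tm n 1) ^ j := by
        intro j
        induction j with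
        | zero => intro _ y; simpa using he0 n y
        | succ j ih =>
          intro hj y
          have ih := ih (by omega)
          have h2 := lin_par_le (a := a) (ε := ε) (b := b) (n := n) hk (he n j y) (ih y)
            (fun i => ih _) (fun i => ih _)
          have h3 := r1 j hj y
          have h4 := r2 j hj y
          have h5 := ih y
          have h6 : (1 : ℝ) ≤ (1 + 2 * D * tm n 1) ^ (j + 1) :=
            one_le_pow₀ (le_add_of_nonneg_right (by positivity))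
          have h7 := mul_le_mul_of_nonneg_left h6 (mul_nonneg hC hδ)
          have h8 : 0 ≤ (tm n 1 : ℝ) * (D * (j * tm n 1 * C * (1 + 2 * D * tm n 1) ^ j)) := by
            positivity
          rw [← hD] at h2
          push_cast
          rw [pow_succ] at h7 ⊢
          linarith
      have h2 : (j : ℝ) * tm n 1 ≤ T := by
        rw [count_mul_mesh]
        exact_mod_cast tm_nat hn T ▸ tm_mono n hj
      have h3 := mul_le_mul_of_nonneg_right h2
        (show 0 ≤ C * (1 + 2 * D * (tm n 1 : ℝ)) ^ j by positivity)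
      have := h1 j hj x
      rw [pow_zero, div_one]
      linarith
    | succ q ih =>
      intro x η hη
      set η' := η / (D * T + 1) with hη'
      have p' : 0 < η' := by positivity
      filter_upwards [hrec, eventually_gt_atTop 0, hs x η' p', ih x η' p',
        eventually_all.2 fun i : Fin d => ih (x + Pi.single i 1) η' p',
        eventually_all.2 fun i : Fin d => ih (x - Pi.single i 1) η' p'] with n r1 hn r2 r3 r4 r5 j hj
      have hδ := (tm n 1).coe_nonneg
      have h1 : ∀ j ≤ T * n, e n j x ≤ T * C / 2 ^ (q + 1) * (1 + 2 * D * tm n 1) ^ j +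
          j * tm n 1 * D * η' + ∑ i ∈ Finset.range j, l n i x := by
        intro j
        induction j with
        | zero => intro _; exact (he0 n x).trans (by positivity)
        | succ j ih2 =>
          intro hj
          have hj' : j ≤ T * n := by omega
          have h2 := lin_par_le (a := a) (ε := ε) (b := b) (n := n) hk (he n j x) (r3 j hj')
            (fun i => r4 i j hj') (fun i => r5 i j hj')
          have h3 := r1 j hj x
          have h5 := ih2 hj'
          rw [← hD] at h2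
          rw [Finset.sum_range_succ]
          push_cast
          have h6 : (T : ℝ) * C / 2 ^ q = 2 * (T * C / 2 ^ (q + 1)) := by
            rw [pow_succ]; field_simp
          rw [h6] at h2
          rw [pow_succ (1 + 2 * D * (tm n 1 : ℝ))]
          linarith
      have h2 : (j : ℝ) * tm n 1 ≤ T := by
        rw [count_mul_mesh]
        exact_mod_cast tm_nat hn T ▸ tm_mono n hj
      have h3 := mul_le_mul_of_nonneg_right h2 (show 0 ≤ D * η' by positivity)
      have h4 : ∑ i ∈ Finset.range j, l n i x ≤ ∑ i ∈ Finset.range (T * n), l n i x :=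
        Finset.sum_le_sum_of_subset_of_nonneg (Finset.range_mono hj) fun i _ _ => hl0 n i x
      have h5 : (D * T + 1) * η' = η := by rw [hη']; field_simp
      have := h1 j hj
      linarith
  have h1 : Tendsto (fun q : ℕ => T * C * exp (2 * D * T) * (1 / 2 : ℝ) ^ q) atTop (𝓝 0) := by
    simpa using (tendsto_pow_atTop_nhds_zero_of_lt_one (r := (1 / 2 : ℝ)) (by norm_num)
      (by norm_num)).const_mul (T * C * exp (2 * D * T))
  obtain ⟨q, hq⟩ := (h1.eventually_le_const (half_pos hη)).exists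
  filter_upwards [key q x _ (half_pos hη), eventually_gt_atTop 0] with n r1 hn j hj
  have hδ := (tm n 1).coe_nonneg
  have h2 : (j : ℝ) * tm n 1 ≤ T := by
    rw [count_mul_mesh]
    exact_mod_cast tm_nat hn T ▸ tm_mono n hj
  have h3 : (1 + 2 * D * (tm n 1 : ℝ)) ^ j ≤ exp (2 * D * T) := by
    refine (pow_le_pow_left₀ (by positivity) (by linarith [add_one_le_exp (2 * D * tm n 1)] :
      1 + 2 * D * (tm n 1 : ℝ) ≤ exp (2 * D * tm n 1)) j).trans ?_
    rw [← exp_nat_mul]
    exact exp_le_exp.2 (by nlinarith)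
  have h4 := mul_le_mul_of_nonneg_left h3 (show 0 ≤ (T : ℝ) * C / 2 ^ q by positivity)
  have h5 : (T : ℝ) * C / 2 ^ q * exp (2 * D * T) = T * C * exp (2 * D * T) * (1 / 2) ^ q := by
    rw [one_div, inv_pow]; ring
  have := r1 j hj
  linarith

end Pool.Agent.Lib.MP_0db9b2_pr
end

-- part Pool.Agent.Lib.MP_0db9b2_pr.Ito
section

/-
The product formula for exp(-w + t/2) times a solution of dU = G dt + U dw.
-/

set_option autoImplicit false

namespace Pool.Agent.Lib.MP_0db9b2_pr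

open MeasureTheory ProbabilityTheory Real Filter
open scoped NNReal ENNReal Topology

variable {d : ℕ} {Ω : Type*} {mΩ : MeasurableSpace Ω}

namespace Noise

variable {P : Measure Ω} {F : Filtration ℝ≥0 mΩ} {w : Site d → ℝ≥0 → Ω → ℝ}

theorem Zf_adapted (h : Noise P F w) (x : Site d) (t : ℝ≥0) :
    Measurable[F t] fun ω => Zf (fun s => w x s ω) t :=
  measurable_exp.comp ((h.ad x t).neg.add measurable_const)

theorem T3_TP (h : Noise P F w) (x : Site d) {U : ℝ≥0 → Ω → ℝ} (hU : Adapted F U)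
    (hUc : ∀ᵐ ω ∂P, Continuous fun t => U t ω) {n0 : ℕ} (hn : 0 < n0) (J : ℕ) :
    TP P fun q ω => T3 (fun s => w x s ω) (fun s => U s ω) (n0 * (q + 1)) (J * (q + 1)) := by
  have := h.prob
  intro η hη
  have mZU : ∀ t, Measurable[F t] fun ω => Zf (fun s => w x s ω) t * U t ω :=
    fun t => (h.Zf_adapted x t).mul (hU t)
  have hbad := bad_small (P := P) (s := fun R : ℕ => ⋃ (N : ℕ) (j : ℕ) (_ : tm N j ≤ tm n0 J),
      {ω | (R : ℝ) < |Zf (fun s => w x s ω) (tm N j) * U (tm N j) ω|})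
    (fun R => MeasurableSet.iUnion fun N => MeasurableSet.iUnion fun j =>
      MeasurableSet.iUnion fun _ =>
        measurableSet_lt measurable_const ((mZU _).mono (F.le _) le_rfl).abs)
    (by
      filter_upwards [hUc, (h.br x).cont] with ω h1 h2
      obtain ⟨K, -, hK⟩ := exists_bound ((continuous_Zf h2).mul h1) (tm n0 J)
      filter_upwards [tendsto_natCast_atTop_atTop.eventually_ge_atTop K] with R hR
      simp only [Set.mem_iUnion, Set.mem_ofPred_eq, not_exists, not_lt]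
      exact fun N j hj => (hK _ hj).trans hR) (half_pos hη)
  obtain ⟨R, hR⟩ := hbad.exists
  set T : ℝ := ((tm n0 J : ℝ≥0) : ℝ) with hT
  have hT0 : 0 ≤ T := (tm n0 J).coe_nonneg
  have hm := tendsto_mesh hn
  have e1 : Tendsto (fun q : ℕ => T * R * (tm (n0 * (q + 1)) 1 : ℝ)) atTop (𝓝 0) := by
    simpa using hm.const_mul (T * R)
  have e2 : Tendsto (fun q : ℕ => T * R ^ 2 * 258 / (η / 2) ^ 2 * (tm (n0 * (q + 1)) 1 : ℝ))
      atTop (𝓝 0) := by
    simpa using hm.const_mul (T * R ^ 2 * 258 / (η / 2) ^ 2)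
  filter_upwards [e1.eventually_le_const (half_pos hη), e2.eventually_le_const (half_pos hη)]
    with q q1 q2
  set n := n0 * (q + 1)
  set J' := J * (q + 1)
  have hn' : 0 < n := Nat.mul_pos hn (Nat.succ_pos q)
  have hT' : tm n J' = tm n0 J := tm_mul n0 J (Nat.succ_pos q)
  have hJ : (J' : ℝ) * (tm n 1 : ℝ) = T := by rw [count_mul_mesh, hT']
  obtain ⟨g1, g2, g3, g4⟩ := gauss_h (tm n 1) (tm_one_le hn')
  set b := ∫ y, (exp (-y + (tm n 1 : ℝ) / 2) * (1 + y) - 1) ∂(gaussianReal 0 (tm n 1)) with hb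
  have mh : Measurable (hfun (tm n 1)) := by unfold hfun; fun_prop
  have k1 : HI (gaussianReal 0 (tm n 1)) (hfun (tm n 1)) b := ⟨g1, rfl⟩
  have k2 : HI (gaussianReal 0 (tm n 1)) (fun y => hfun (tm n 1) y ^ 2) _ := ⟨g2, rfl⟩
  have k3 := ((k2.sub (k1.const_mul (2 * b))).add (HI.const (b ^ 2))).congr
    (g := fun y => (hfun (tm n 1) y - b) ^ 2) (fun y => by ring) rfl
  have k4 := k1.sub (HI.const b)
  have hmt := h.mart_transform x n 0
    (H := fun i ω => clamp R (Zf (fun s => w x s ω) (tm n i) * U (tm n i) ω)) (R := R)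
    (fun i => by rw [zero_add]; exact (measurable_clamp R).comp (mZU _))
    (fun i ω => abs_clamp_le (Nat.cast_nonneg R) _) (g := fun y => hfun (tm n 1) y - b)
    (mh.sub_const b) k3.1 (by rw [k4.2, sub_self]) (v := 258 * (tm n 1 : ℝ) ^ 2)
    (by
      rw [k3.2]
      have : ∫ y, hfun (tm n 1) y ^ 2 ∂(gaussianReal 0 (tm n 1)) ≤ 258 * (tm n 1 : ℝ) ^ 2 := g4
      nlinarith [sq_nonneg b]) J'
  have hch := (cheb_sq hmt.1 (half_pos hη)).trans
    (div_le_div_of_nonneg_right hmt.2 (by positivity))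
  refine le_trans (measureReal_mono (s₂ := (⋃ (N : ℕ) (j : ℕ) (_ : tm N j ≤ tm n0 J),
      {ω | (R : ℝ) < |Zf (fun s => w x s ω) (tm N j) * U (tm N j) ω|}) ∪
      {ω | η / 2 ≤ |∑ i ∈ Finset.range J', clamp R (Zf (fun s => w x s ω) (tm n i) *
        U (tm n i) ω) * (hfun (tm n 1) (incr w x n (0 + i) ω) - b)|}) fun ω hω => ?_)
    ((measureReal_union_le _ _).trans ?_)
  · by_contra hc
    simp only [Set.mem_union, Set.mem_iUnion, Set.mem_ofPred_eq, not_or, not_exists, not_lt,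
      not_le] at hc hω
    obtain ⟨c1, c2⟩ := hc
    have c3 : ∀ i ∈ Finset.range J', |Zf (fun s => w x s ω) (tm n i) * U (tm n i) ω| ≤ R :=
      fun i hi => c1 n i (hT' ▸ tm_mono n (Finset.mem_range.1 hi).le)
    have c4 : T3 (fun s => w x s ω) (fun s => U s ω) n J' =
        ∑ i ∈ Finset.range J', clamp R (Zf (fun s => w x s ω) (tm n i) *
          U (tm n i) ω) * (hfun (tm n 1) (incr w x n (0 + i) ω) - b) +
        ∑ i ∈ Finset.range J', Zf (fun s => w x s ω) (tm n i) * U (tm n i) ω * b := by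
      rw [← Finset.sum_add_distrib]
      refine Finset.sum_congr rfl fun i hi => ?_
      rw [clamp_eq (c3 i hi), zero_add]
      simp only [incr]; ring
    have c5 : |∑ i ∈ Finset.range J', Zf (fun s => w x s ω) (tm n i) * U (tm n i) ω * b| ≤
        T * R * (tm n 1 : ℝ) := by
      refine (Finset.abs_sum_le_sum_abs _ _).trans ((Finset.sum_le_sum
        (g := fun _ => (R : ℝ) * (tm n 1 : ℝ) ^ 2) fun i hi => ?_).trans (le_of_eq ?_))
      · rw [abs_mul]
        exact mul_le_mul (c3 i hi) g3 (abs_nonneg _) (Nat.cast_nonneg R)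
      · rw [Finset.sum_const, Finset.card_range, nsmul_eq_mul, ← hJ]; ring
    rw [c4] at hω
    have := hω.trans (abs_add_le _ _)
    linarith
  · have : (J' : ℝ) * R ^ 2 * (258 * (tm n 1 : ℝ) ^ 2) / (η / 2) ^ 2 =
        T * R ^ 2 * 258 / (η / 2) ^ 2 * (tm n 1 : ℝ) := by rw [← hJ]; ring
    rw [this] at hch
    linarith

theorem T2_TP (h : Noise P F w) (x : Site d) {U G : ℝ≥0 → Ω → ℝ} (hU : Adapted F U)
    (hUc : ∀ᵐ ω ∂P, Continuous fun t => U t ω)
    (heq : ∀ t, TendstoInMeasure P (fun n ω => itoSum (fun s => U s ω) (fun s => w x s ω) t n)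
      atTop fun ω => Iof (fun s => U s ω) (fun s => G s ω) t)
    {n0 : ℕ} (hn : 0 < n0) (J : ℕ) :
    TP P fun q ω => T2 (fun s => w x s ω) (fun s => U s ω) (fun s => G s ω) (n0 * (q + 1))
      (J * (q + 1)) := by
  have := h.prob
  intro η hη
  set T : ℝ := ((tm n0 J : ℝ≥0) : ℝ) with hT
  have hT0 : 0 ≤ T := (tm n0 J).coe_nonneg
  obtain ⟨e, he, he1, he2⟩ : ∃ e : ℝ, 0 < e ∧ T * e ^ 2 / (η / 3) ^ 2 ≤ η / 4 ∧
      32 * T * e / (η / 3) ≤ η / 4 := by
    have c1 : Tendsto (fun e : ℝ => T * e ^ 2 / (η / 3) ^ 2) (𝓝[>] 0) (𝓝 0) := by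
      have : Continuous fun e : ℝ => T * e ^ 2 / (η / 3) ^ 2 := by fun_prop
      simpa using (this.tendsto 0).mono_left nhdsWithin_le_nhds
    have c2 : Tendsto (fun e : ℝ => 32 * T * e / (η / 3)) (𝓝[>] 0) (𝓝 0) := by
      have : Continuous fun e : ℝ => 32 * T * e / (η / 3) := by fun_prop
      simpa using (this.tendsto 0).mono_left nhdsWithin_le_nhds
    exact (eventually_mem_nhdsWithin.and ((c1.eventually_le_const (by positivity)).and
      (c2.eventually_le_const (by positivity)))).exists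
  have mZ : ∀ t, Measurable fun ω => Zf (fun s => w x s ω) t :=
    fun t => (h.Zf_adapted x t).mono (F.le _) le_rfl
  have hbad := bad_small (P := P) (s := fun q : ℕ => ⋃ (M : ℕ) (j : ℕ) (i : ℕ)
      (_ : j < J * (q + 1)) (_ : i < M + 1),
      {ω | e < |Zf (fun s => w x s ω) (tm (n0 * (q + 1)) j) *
        (U (tm (n0 * (q + 1) * (M + 1)) (j * (M + 1) + i)) ω - U (tm (n0 * (q + 1)) j) ω)|})
    (fun q => MeasurableSet.iUnion fun M => MeasurableSet.iUnion fun j =>
      MeasurableSet.iUnion fun i => MeasurableSet.iUnion fun _ => MeasurableSet.iUnion fun _ =>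
        measurableSet_lt measurable_const ((mZ _).mul (hU.measurable.sub hU.measurable)).abs)
    (by
      filter_upwards [hUc, (h.br x).cont] with ω h1 h2
      obtain ⟨K, hK0, hK⟩ := exists_bound (continuous_Zf h2) (tm n0 J)
      obtain ⟨δ, hδ, hu⟩ := unif_cont h1 (tm n0 J) (η := e / K) (by positivity)
      filter_upwards [(tendsto_mesh hn).eventually_le_const hδ] with q hq
      simp only [Set.mem_iUnion, Set.mem_ofPred_eq, not_exists, not_lt]
      intro M j i hj hi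
      set n := n0 * (q + 1)
      have hT' : tm n (J * (q + 1)) = tm n0 J := tm_mul n0 J (Nat.succ_pos q)
      have a1 : tm n (j + 1) ≤ tm n0 J := hT' ▸ tm_mono n hj
      have a2 : tm n j ≤ tm n0 J := (tm_mono n (Nat.le_succ j)).trans a1
      have a3 : tm (n * (M + 1)) (j * (M + 1) + i) ≤ tm n (j + 1) := by
        rw [← tm_mul n (j + 1) (Nat.succ_pos M)]
        exact tm_mono _ (by rw [Nat.succ_mul, Nat.succ_eq_add_one]; omega)
      have a4 : tm n j ≤ tm (n * (M + 1)) (j * (M + 1) + i) := by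
        rw [← tm_mul n j (Nat.succ_pos M)]
        exact tm_mono _ (Nat.le_add_right _ _)
      have a5 : |(tm (n * (M + 1)) (j * (M + 1) + i) : ℝ) - tm n j| ≤ δ := by
        have b3 : (tm (n * (M + 1)) (j * (M + 1) + i) : ℝ) ≤ tm n j + tm n 1 := by
          rw [tm_succ] at a3; exact_mod_cast a3
        have b4 : (tm n j : ℝ) ≤ tm (n * (M + 1)) (j * (M + 1) + i) := by exact_mod_cast a4
        rw [abs_of_nonneg (by linarith)]; linarith
      rw [abs_mul]
      refine (mul_le_mul (hK _ a2) (hu _ _ (a3.trans a1) a2 a5) (abs_nonneg _) hK0.le).trans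
        (le_of_eq ?_)
      field_simp) (η := η / 4) (by positivity)
  filter_upwards [hbad] with q hq
  set n := n0 * (q + 1)
  set J' := J * (q + 1)
  have hn' : 0 < n := Nat.mul_pos hn (Nat.succ_pos q)
  have hT' : tm n J' = tm n0 J := tm_mul n0 J (Nat.succ_pos q)
  have hJ : (J' : ℝ) * (tm n 1 : ℝ) = T := by rw [count_mul_mesh, hT']
  have hE : ∀ j, TP P fun M ω => gridSum (fun s => U s ω) (fun s => w x s ω) (n * (M + 1))
      (j * (M + 1)) - Iof (fun s => U s ω) (fun s => G s ω) (tm n j) := by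
    intro j
    rcases Nat.eq_zero_or_pos j with hj | hj
    · subst hj
      have := TP_iff.1 (heq (tm n 0))
      simpa [itoSum, gridSum, tm_zero] using this
    · have h1 := (heq (tm n j)).comp (ns := fun M => j * (M + 1))
        (tendsto_atTop_mono (fun M => show M ≤ j * (M + 1) by nlinarith) tendsto_id)
      have h2 := TP_iff.1 h1
      simpa only [Function.comp, itoSum_grid _ _ n j (Nat.succ_pos _)] using h2
  have hD := TP.sum (P := P) (Finset.range J') fun j _ =>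
    ((hE j).sub (hE (j + 1))).mul_fixed (mZ (tm n (j + 1)))
  obtain ⟨M, hM⟩ := (hD (min (η / 3) (η / 4)) (by positivity)).exists
  set N := n * (M + 1) with hN
  have hM0 : 0 < M + 1 := Nat.succ_pos M
  let H : ℕ → Ω → ℝ := fun i ω => clamp e (Zf (fun s => w x s ω) (tm n (i / (M + 1))) *
    (U (tm N i) ω - U (tm n (i / (M + 1))) ω))
  have hH : ∀ i, Measurable[F (tm N i)] (H i) := by
    intro i
    have hle : tm n (i / (M + 1)) ≤ tm N i := by
      rw [← tm_mul n _ hM0]; exact tm_mono _ (Nat.div_mul_le_self _ _)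
    exact (measurable_clamp e).comp (((h.Zf_adapted x _).mono (F.mono hle) le_rfl).mul
      ((hU _).sub (hU.measurable_le hle)))
  have hHb : ∀ i ω, |H i ω| ≤ e := fun i ω => abs_clamp_le he.le _
  obtain ⟨g1, g2, g3⟩ := gauss_id (tm N 1)
  have hA := h.mart_transform x N 0 (H := H) (fun i => by rw [zero_add]; exact hH i) hHb
    (g := fun y => y) measurable_id g1 g2 g3.le (J' * (M + 1))
  have hQ := fun j => h.mart_transform x N (j * (M + 1)) (H := fun i => H (j * (M + 1) + i))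
    (fun i => hH _) (fun i => hHb _) (g := fun y => y) measurable_id g1 g2 g3.le (M + 1)
  have hmesh : ((M + 1 : ℕ) : ℝ) * (tm N 1 : ℝ) = tm n 1 := by
    rw [count_mul_mesh, ← tm_mul n 1 hM0, one_mul]
  let Q : ℕ → Ω → ℝ := fun j ω =>
    ∑ i ∈ Finset.range (M + 1), H (j * (M + 1) + i) ω * incr w x N (j * (M + 1) + i) ω
  let κ : ℕ → Ω → ℝ := fun j ω => exp (-incr w x n j ω + (tm n 1 : ℝ) / 2) - 1
  obtain ⟨k1, k2⟩ := gauss_kappa (tm n 1) (tm_one_le hn')
  have hκ : ∀ j, HI P (fun ω => κ j ω ^ 2) _ := fun j =>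
    h.HI_incr x (tm n j) (tm n 1) (g := fun y => (exp (-y + (tm n 1 : ℝ) / 2) - 1) ^ 2)
      (by fun_prop) k1
  have mQ : ∀ j, Measurable (Q j) := fun j => Finset.measurable_sum _ fun i _ =>
    ((hH _).mono (F.le _) le_rfl).mul ((h.meas _ _).sub (h.meas _ _))
  have mκ : ∀ j, Measurable (κ j) := fun j =>
    (measurable_exp.comp ((((h.meas _ _).sub (h.meas _ _)).neg).add measurable_const)).sub
      measurable_const
  have hκQ : ∀ j, Integrable (fun ω => κ j ω * Q j ω) P ∧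
      ∫ ω, |κ j ω * Q j ω| ∂P ≤ 32 * e * tm n 1 := by
    intro j
    have q1 : HI P (fun ω => Q j ω ^ 2) _ := ⟨(hQ j).1, rfl⟩
    have q2 := ((hκ j).const_mul (e / 2)).add (q1.const_mul (1 / (2 * e)))
    have q3 : ∀ ω, |κ j ω * Q j ω| ≤ e / 2 * κ j ω ^ 2 + 1 / (2 * e) * Q j ω ^ 2 := by
      intro ω
      rw [abs_mul, ← sq_abs (κ j ω), ← sq_abs (Q j ω)]
      have : e / 2 * |κ j ω| ^ 2 + 1 / (2 * e) * |Q j ω| ^ 2 - |κ j ω| * |Q j ω| =
          1 / (2 * e) * (e * |κ j ω| - |Q j ω|) ^ 2 := by field_simp; ring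
      have : 0 ≤ 1 / (2 * e) * (e * |κ j ω| - |Q j ω|) ^ 2 := by positivity
      linarith
    have q4 : Integrable (fun ω => κ j ω * Q j ω) P :=
      q2.1.mono' ((mκ j).mul (mQ j)).aestronglyMeasurable (ae_of_all _ q3)
    refine ⟨q4, (integral_mono q4.abs q2.1 q3).trans ?_⟩
    rw [q2.2]
    have q5 : ∫ ω, Q j ω ^ 2 ∂P ≤ e ^ 2 * tm n 1 := by
      refine (hQ j).2.trans (le_of_eq ?_)
      rw [← hmesh]; ring
    have q6 := mul_le_mul_of_nonneg_left k2 (show 0 ≤ e / 2 by positivity)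
    have q7 := mul_le_mul_of_nonneg_left q5 (show 0 ≤ 1 / (2 * e) by positivity)
    have q8 : 1 / (2 * e) * (e ^ 2 * tm n 1) = e / 2 * tm n 1 := by field_simp
    linarith
  have iB : Integrable (fun ω => ∑ j ∈ Finset.range J', κ j ω * Q j ω) P :=
    integrable_finsetSum _ fun j _ => (hκQ j).1
  have hB : ∫ ω, |∑ j ∈ Finset.range J', κ j ω * Q j ω| ∂P ≤ 32 * T * e := by
    have b1 := HI.sum (P := P) (Finset.range J') (f := fun j ω => |κ j ω * Q j ω|)
      fun j _ => ⟨(hκQ j).1.abs, rfl⟩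
    refine (integral_mono iB.abs b1.1 fun ω => Finset.abs_sum_le_sum_abs _ _).trans ?_
    rw [b1.2]
    refine (Finset.sum_le_sum fun j _ => (hκQ j).2).trans (le_of_eq ?_)
    rw [Finset.sum_const, Finset.card_range, nsmul_eq_mul, ← hJ]; ring
  have p1 := (cheb_sq hA.1 (η := η / 3) (by positivity)).trans
    (div_le_div_of_nonneg_right hA.2 (by positivity))
  have p2 := (cheb_abs iB (η := η / 3) (by positivity)).trans
    (div_le_div_of_nonneg_right hB (by positivity))
  have p3 : ((J' * (M + 1) : ℕ) : ℝ) * e ^ 2 * (tm N 1 : ℝ) = T * e ^ 2 := by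
    rw [← hJ, ← hmesh]; push_cast; ring
  rw [p3] at p1
  refine le_trans (measureReal_mono (s₂ := ((⋃ (M : ℕ) (j : ℕ) (i : ℕ)
      (_ : j < J') (_ : i < M + 1), {ω | e < |Zf (fun s => w x s ω) (tm n j) *
        (U (tm (n * (M + 1)) (j * (M + 1) + i)) ω - U (tm n j) ω)|}) ∪
      {ω | min (η / 3) (η / 4) ≤ |∑ j ∈ Finset.range J', Zf (fun s => w x s ω) (tm n (j + 1)) *
        ((gridSum (fun s => U s ω) (fun s => w x s ω) N (j * (M + 1)) -
          Iof (fun s => U s ω) (fun s => G s ω) (tm n j)) -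
        (gridSum (fun s => U s ω) (fun s => w x s ω) N ((j + 1) * (M + 1)) -
          Iof (fun s => U s ω) (fun s => G s ω) (tm n (j + 1))))|}) ∪
      ({ω | η / 3 ≤ |∑ i ∈ Finset.range (J' * (M + 1)), H i ω * incr w x N (0 + i) ω|} ∪
      {ω | η / 3 ≤ |∑ j ∈ Finset.range J', κ j ω * Q j ω|})) fun ω hω => ?_)
    ((measureReal_union_le _ _).trans ((add_le_add (measureReal_union_le _ _)
      (measureReal_union_le _ _)).trans ?_))
  · by_contra hc
    simp only [Set.mem_union, Set.mem_iUnion, Set.mem_ofPred_eq, not_or, not_exists, not_lt,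
      not_le] at hc hω
    obtain ⟨⟨c1, c2⟩, c3, c4⟩ := hc
    have c5 : T2 (fun s => w x s ω) (fun s => U s ω) (fun s => G s ω) n J' =
        ∑ j ∈ Finset.range J', Zf (fun s => w x s ω) (tm n (j + 1)) *
          ((gridSum (fun s => U s ω) (fun s => w x s ω) N (j * (M + 1)) -
            Iof (fun s => U s ω) (fun s => G s ω) (tm n j)) -
          (gridSum (fun s => U s ω) (fun s => w x s ω) N ((j + 1) * (M + 1)) -
            Iof (fun s => U s ω) (fun s => G s ω) (tm n (j + 1)))) +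
        ∑ i ∈ Finset.range (J' * (M + 1)), H i ω * incr w x N (0 + i) ω +
        ∑ j ∈ Finset.range J', κ j ω * Q j ω := by
      simp only [zero_add]
      rw [sum_range_mul_succ _ J' (M + 1), ← Finset.sum_add_distrib, ← Finset.sum_add_distrib]
      refine Finset.sum_congr rfl fun j hj => ?_
      have d1 := gridSum_block (fun s => U s ω) (fun s => w x s ω) n j hM0
      have d2 : Zf (fun s => w x s ω) (tm n j) * ∑ i ∈ Finset.range (M + 1),
          (U (tm N (j * (M + 1) + i)) ω - U (tm n j) ω) *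
          (w x (tm N (j * (M + 1) + i) + tm N 1) ω - w x (tm N (j * (M + 1) + i)) ω) = Q j ω := by
        rw [Finset.mul_sum]
        refine Finset.sum_congr rfl fun i hi => ?_
        have hi' := Finset.mem_range.1 hi
        have d3 : (j * (M + 1) + i) / (M + 1) = j := by
          rw [add_comm, Nat.add_mul_div_right _ _ hM0, Nat.div_eq_of_lt hi', zero_add]
        simp only [H, d3, incr]
        rw [clamp_eq (c1 M j i (Finset.mem_range.1 hj) hi')]
        ring
      rw [← d1] at d2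
      have d4 : Zf (fun s => w x s ω) (tm n (j + 1)) =
          Zf (fun s => w x s ω) (tm n j) * (κ j ω + 1) := by
        rw [Zf_succ]; simp [κ, incr]
      show _ = _ + Q j ω + _
      rw [← d2, d4]
      ring
    rw [c5] at hω
    have c6 := hω.trans ((abs_add_le _ _).trans (add_le_add_left (abs_add_le _ _) _))
    have c7 := c2.trans_le (min_le_left _ _)
    linarith
  · have := hM.trans (min_le_right _ _)
    linarith

theorem ito_product (h : Noise P F w) (x : Site d) {U G : ℝ≥0 → Ω → ℝ} (hU : Adapted F U)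
    (hUc : ∀ᵐ ω ∂P, Continuous fun t => U t ω) (hGc : ∀ᵐ ω ∂P, Continuous fun t => G t ω)
    (heq : ∀ t, TendstoInMeasure P (fun n ω => itoSum (fun s => U s ω) (fun s => w x s ω) t n)
      atTop fun ω => Iof (fun s => U s ω) (fun s => G s ω) t)
    {n0 : ℕ} (hn : 0 < n0) (J : ℕ) :
    ∀ᵐ ω ∂P, Zf (fun s => w x s ω) (tm n0 J) * U (tm n0 J) ω =
      1 + ∫ r in (0 : ℝ)..tm n0 J, Zf (fun s => w x s ω) r.toNNReal * G r.toNNReal ω := by
  have := h.prob
  have h0 : ∀ᵐ ω ∂P, U 0 ω = 1 := by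
    obtain ⟨ns, -, hns⟩ := (heq 0).exists_seq_tendsto_ae
    filter_upwards [hns] with ω hω
    simp only [itoSum, zero_mul, zero_div, sub_self, mul_zero, Finset.sum_const_zero, Iof,
      NNReal.coe_zero, intervalIntegral.integral_same, sub_zero, tendsto_const_nhds_iff] at hω
    linarith
  have h1 := (h.T2_TP x hU hUc heq hn J).add (h.T3_TP x hU hUc hn J)
  have h2 : TendstoInMeasure P (fun q ω =>
      T2 (fun s => w x s ω) (fun s => U s ω) (fun s => G s ω) (n0 * (q + 1)) (J * (q + 1)) +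
      T3 (fun s => w x s ω) (fun s => U s ω) (n0 * (q + 1)) (J * (q + 1))) atTop fun _ => 0 :=
    TP_iff.2 (by simpa using h1)
  obtain ⟨ns, hs, hns⟩ := h2.exists_seq_tendsto_ae
  filter_upwards [hns, h0, hGc, (h.br x).cont, (h.br x).eval_zero_ae_eq_zero] with ω c1 c2 c3 c4 c5
  have c6 := ((T1_tendsto c4 c3 hn J).comp hs.tendsto_atTop).add c1
  have c7 : ∀ i, T1 (fun s => w x s ω) (fun s => G s ω) (n0 * (ns i + 1)) (J * (ns i + 1)) +
      (T2 (fun s => w x s ω) (fun s => U s ω) (fun s => G s ω) (n0 * (ns i + 1))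
        (J * (ns i + 1)) +
      T3 (fun s => w x s ω) (fun s => U s ω) (n0 * (ns i + 1)) (J * (ns i + 1))) =
      Zf (fun s => w x s ω) (tm n0 J) * U (tm n0 J) ω - 1 -
        ∫ r in (0 : ℝ)..tm n0 J, Zf (fun s => w x s ω) r.toNNReal * G r.toNNReal ω := by
    intro i
    rw [← add_assoc, ← decomposition _ _ c3, tm_mul n0 J (Nat.succ_pos _), c2]
    simp [Zf, c5]
  simp only [Function.comp, c7, add_zero, tendsto_const_nhds_iff] at c6
  linarith

end Noise

end Pool.Agent.Lib.MP_0db9b2_pr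
end

-- part Pool.Agent.Lib.MP_0db9b2_pr.Mom
section

/-
Families with bounded moments, convergence in mean, and squares of time integrals.
-/

set_option autoImplicit false

namespace Pool.Agent.Lib.MP_0db9b2_pr

open MeasureTheory Real Filter
open scoped NNReal ENNReal Topology

variable {Ω : Type*} {mΩ : MeasurableSpace Ω} {P : Measure Ω}

def Mom {ι : Type*} (P : Measure Ω) (f : ι → Ω → ℝ) : Prop :=
  (∀ i, Measurable (f i)) ∧ ∀ p : ℕ, ∃ C : ℝ, ∀ i,
    Integrable (fun ω => |f i ω| ^ p) P ∧ ∫ ω, |f i ω| ^ p ∂P ≤ C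

namespace Mom

variable {ι : Type*} {f g : ι → Ω → ℝ}

theorem comp {κ : Type*} (hf : Mom P f) (φ : κ → ι) : Mom P fun k => f (φ k) :=
  ⟨fun _ => hf.1 _, fun p => (hf.2 p).imp fun _ h _ => h _⟩

theorem abs (hf : Mom P f) : Mom P fun i ω => |f i ω| :=
  ⟨fun i => (hf.1 i).abs, by simpa using hf.2⟩

theorem pow (hf : Mom P f) (m : ℕ) : Mom P fun i ω => f i ω ^ m :=
  ⟨fun i => (hf.1 i).pow_const m, fun p => by
    simpa only [abs_pow, ← pow_mul] using hf.2 (m * p)⟩

theorem const_mul (hf : Mom P f) (c : ℝ) : Mom P fun i ω => c * f i ω :=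
  ⟨fun i => (hf.1 i).const_mul c, fun p => by
    obtain ⟨C, hC⟩ := hf.2 p
    refine ⟨|c| ^ p * C, fun i => ?_⟩
    simp only [abs_mul, mul_pow]
    refine ⟨(hC i).1.const_mul _, ?_⟩
    rw [integral_const_mul]
    exact mul_le_mul_of_nonneg_left (hC i).2 (by positivity)⟩

theorem add (hf : Mom P f) (hg : Mom P g) : Mom P fun i ω => f i ω + g i ω :=
  ⟨fun i => (hf.1 i).add (hg.1 i), fun p => by
    obtain ⟨C, hC⟩ := hf.2 p
    obtain ⟨D, hD⟩ := hg.2 p
    refine ⟨2 ^ (p - 1) * (C + D), fun i => ?_⟩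
    have h1 : HI P (fun ω => |f i ω| ^ p) _ := ⟨(hC i).1, rfl⟩
    have h2 : HI P (fun ω => |g i ω| ^ p) _ := ⟨(hD i).1, rfl⟩
    have h3 := (h1.add h2).const_mul (2 ^ (p - 1))
    have h4 : ∀ ω, |f i ω + g i ω| ^ p ≤ 2 ^ (p - 1) * (|f i ω| ^ p + |g i ω| ^ p) := fun ω =>
      (pow_le_pow_left₀ (abs_nonneg _) (abs_add_le _ _) p).trans
        (add_pow_le (abs_nonneg _) (abs_nonneg _) p)
    have h5 : Integrable (fun ω => |f i ω + g i ω| ^ p) P :=
      h3.1.mono' (((hf.1 i).add (hg.1 i)).abs.pow_const p).aestronglyMeasurable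
        (ae_of_all _ fun ω => by rw [Real.norm_of_nonneg (by positivity)]; exact h4 ω)
    refine ⟨h5, (integral_mono h5 h3.1 h4).trans ?_⟩
    rw [h3.2]
    exact mul_le_mul_of_nonneg_left (add_le_add (hC i).2 (hD i).2) (by positivity)⟩

theorem sub (hf : Mom P f) (hg : Mom P g) : Mom P fun i ω => f i ω - g i ω := by
  simpa [sub_eq_add_neg] using hf.add (hg.const_mul (-1))

theorem const [IsProbabilityMeasure P] (c : ℝ) : Mom P fun (_ : ι) _ => c :=
  ⟨fun _ => measurable_const, fun p => ⟨|c| ^ p, fun _ => by simp⟩⟩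

theorem sum [IsProbabilityMeasure P] {κ : Type*} (s : Finset κ) {f : κ → ι → Ω → ℝ}
    (hf : ∀ k, Mom P (f k)) : Mom P fun i ω => ∑ k ∈ s, f k i ω := by
  classical
  induction s using Finset.induction_on with
  | empty => simpa using const 0
  | insert a s ha ih => simpa [Finset.sum_insert ha] using (hf a).add ih

theorem sq (hf : Mom P f) : ∃ C : ℝ, ∀ i,
    Integrable (fun ω => f i ω ^ 2) P ∧ ∫ ω, f i ω ^ 2 ∂P ≤ C := by
  simpa using hf.2 2

end Mom

theorem L1_of_ae [IsProbabilityMeasure P] {X : ℕ → Ω → ℝ} (hm : ∀ n, Measurable (X n)) {C : ℝ}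
    (hC : ∀ᶠ n in atTop, Integrable (fun ω => X n ω ^ 2) P ∧ ∫ ω, X n ω ^ 2 ∂P ≤ C)
    (h : ∀ᵐ ω ∂P, Tendsto (fun n => X n ω) atTop (𝓝 0)) {η : ℝ} (hη : 0 < η) :
    ∀ᶠ n in atTop, ∫ ω, |X n ω| ∂P ≤ η := by
  set R : ℝ := 3 * (|C| + 1) / η with hR
  have hR0 : 0 < R := by positivity
  have hs : ∀ n, MeasurableSet {ω | η / 3 < |X n ω|} :=
    fun n => measurableSet_lt measurable_const (hm n).abs
  have hb := bad_small (P := P) hs (by
    filter_upwards [h] with ω hω
    have := hω.abs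
    rw [abs_zero] at this
    filter_upwards [this.eventually_le_const (show (0 : ℝ) < η / 3 by positivity)] with n hn
    simpa using hn) (η := η / 3 / R) (by positivity)
  filter_upwards [hb, hC] with n h1 h2
  have a1 : HI P (fun ω => X n ω ^ 2) _ := ⟨h2.1, rfl⟩
  have a2 : HI P ({ω | η / 3 < |X n ω|}.indicator fun _ => (1 : ℝ))
      (P.real {ω | η / 3 < |X n ω|}) :=
    ⟨(integrable_const _).indicator (hs n), by simp [integral_indicator (hs n)]⟩
  have a3 := ((HI.const (μ := P) (η / 3)).add (a2.const_mul R)).add (a1.const_mul (1 / R))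
  refine (integral_mono (integrable_of_sq (hm n) h2.1).abs a3.1 fun ω => ?_).trans ?_
  · have b1 : 0 ≤ 1 / R * X n ω ^ 2 := by positivity
    by_cases hω : η / 3 < |X n ω|
    · simp only [Set.indicator_of_mem (show ω ∈ {ω | η / 3 < |X n ω|} from hω), mul_one]
      have b2 : R + 1 / R * X n ω ^ 2 - 2 * |X n ω| = 1 / R * (R - |X n ω|) ^ 2 := by
        rw [← sq_abs (X n ω)]; field_simp; ring
      have b3 : 0 ≤ 1 / R * (R - |X n ω|) ^ 2 := by positivity
      have := abs_nonneg (X n ω)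
      linarith
    · simp only [Set.indicator_of_notMem (show ω ∉ {ω | η / 3 < |X n ω|} from hω), mul_zero]
      linarith [not_lt.1 hω]
  · rw [a3.2]
    have b1 : R * P.real {ω | η / 3 < |X n ω|} ≤ η / 3 := by
      rw [le_div_iff₀ hR0] at h1; linarith
    have b2 : 1 / R * ∫ ω, X n ω ^ 2 ∂P ≤ η / 3 := by
      refine (mul_le_mul_of_nonneg_left (h2.2.trans (le_abs_self C) |>.trans
        (le_add_of_nonneg_right zero_le_one)) (by positivity)).trans (le_of_eq ?_)
      rw [hR]; field_simp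
    linarith

theorem sq_interval_le {g : ℝ → ℝ} (hg : Continuous g) {a b : ℝ} (hab : a ≤ b) :
    (∫ r in a..b, g r) ^ 2 ≤ (b - a) * ∫ r in a..b, g r ^ 2 := by
  rcases hab.eq_or_lt with h | h
  · simp [h]
  set I := ∫ r in a..b, g r with hI
  have hd : 0 < b - a := by linarith
  have h1 : 0 ≤ ∫ r in a..b, (g r - I / (b - a)) ^ 2 :=
    intervalIntegral.integral_nonneg hab fun _ _ => sq_nonneg _
  have h2 : ∀ r, (g r - I / (b - a)) ^ 2 =
      g r ^ 2 - 2 * (I / (b - a)) * g r + (I / (b - a)) ^ 2 := fun r => by ring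
  simp_rw [h2] at h1
  rw [intervalIntegral.integral_add (Continuous.intervalIntegrable (by fun_prop) _ _)
      (Continuous.intervalIntegrable (by fun_prop) _ _),
    intervalIntegral.integral_sub (Continuous.intervalIntegrable (by fun_prop) _ _)
      (Continuous.intervalIntegrable (by fun_prop) _ _),
    intervalIntegral.integral_const_mul, intervalIntegral.integral_const, ← hI, smul_eq_mul] at h1
  have h3 := mul_nonneg hd.le h1
  have h4 : (b - a) * ((∫ r in a..b, g r ^ 2) - 2 * (I / (b - a)) * I +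
      (b - a) * (I / (b - a)) ^ 2) = (b - a) * (∫ r in a..b, g r ^ 2) - I ^ 2 := by
    field_simp; ring
  linarith

theorem int_sq_le [IsProbabilityMeasure P] {f : ℝ≥0 → Ω → ℝ} (hm : ∀ t, Measurable (f t))
    (hc : ∀ᵐ ω ∂P, Continuous fun t => f t ω) {a b : ℝ≥0} (hab : a ≤ b) {C : ℝ}
    (hC : ∀ r, a ≤ r → r ≤ b → Integrable (fun ω => f r ω ^ 2) P ∧ ∫ ω, f r ω ^ 2 ∂P ≤ C)
    {X : Ω → ℝ} (hX : Measurable X)
    (hXe : ∀ᵐ ω ∂P, X ω = ∫ r in (a : ℝ)..b, f r.toNNReal ω) :
    Integrable (fun ω => X ω ^ 2) P ∧ ∫ ω, X ω ^ 2 ∂P ≤ ((b : ℝ) - a) ^ 2 * C := by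
  classical
  have hab' : (a : ℝ) ≤ b := hab
  set N := toMeasurable P {ω | ¬ Continuous fun t => f t ω} with hN
  have hN0 : ∀ᵐ ω ∂P, ω ∉ N := by
    rw [ae_iff] at hc ⊢
    simpa [hN, measure_toMeasurable] using hc
  let f' : ℝ≥0 → Ω → ℝ := fun t ω => if ω ∈ N then 0 else f t ω
  have hc' : ∀ ω, Continuous fun t => f' t ω := by
    intro ω
    by_cases hω : ω ∈ N
    · simp only [f', if_pos hω]; exact continuous_const
    · simp only [f', if_neg hω]
      by_contra h
      exact hω (subset_toMeasurable _ _ h)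
  have hm' : ∀ t, Measurable (f' t) := fun t =>
    Measurable.ite (measurableSet_toMeasurable _ _) measurable_const (hm t)
  have hj := measurable_uncurry_of_continuous_of_measurable hc' hm'
  have hj2 : Measurable fun p : Ω × ℝ => f' p.2.toNNReal p.1 ^ 2 :=
    (hj.comp ((measurable_real_toNNReal.comp measurable_snd).prodMk measurable_fst)).pow_const 2
  have he : ∀ t, (fun ω => f' t ω ^ 2) =ᵐ[P] fun ω => f t ω ^ 2 := fun t => by
    filter_upwards [hN0] with ω hω
    simp only [f', if_neg hω]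
  let m : Measure ℝ := volume.restrict (Set.Ioc (a : ℝ) b)
  have hC' : ∀ᵐ r ∂m, Integrable (fun ω => f' r.toNNReal ω ^ 2) P ∧
      ∫ ω, f' r.toNNReal ω ^ 2 ∂P ≤ C := by
    filter_upwards [ae_restrict_mem measurableSet_Ioc] with r hr
    have := hC r.toNNReal (Real.le_toNNReal_iff_coe_le (a.coe_nonneg.trans hr.1.le) |>.2 hr.1.le)
      (Real.toNNReal_le_iff_le_coe.2 hr.2)
    exact ⟨this.1.congr (he _).symm, (integral_congr_ae (he _)).le.trans this.2⟩
  have hI : Integrable (fun r : ℝ => ∫ ω, f' r.toNNReal ω ^ 2 ∂P) m := by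
    refine (integrable_const C).mono'
      (hj2.stronglyMeasurable.integral_prod_left' (μ := P)).aestronglyMeasurable ?_
    filter_upwards [hC'] with r hr
    rw [Real.norm_of_nonneg (integral_nonneg fun _ => sq_nonneg _)]
    exact hr.2
  have hg : Integrable (fun p : Ω × ℝ => f' p.2.toNNReal p.1 ^ 2) (P.prod m) := by
    refine (integrable_prod_iff' hj2.aestronglyMeasurable).2 ⟨hC'.mono fun r hr => hr.1, ?_⟩
    simpa using hI
  have h1 : Integrable (fun ω => ∫ r, f' r.toNNReal ω ^ 2 ∂m) P := hg.integral_prod_left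
  have h2 : ∫ ω, ∫ r, f' r.toNNReal ω ^ 2 ∂m ∂P = ∫ r, ∫ ω, f' r.toNNReal ω ^ 2 ∂P ∂m :=
    integral_integral_swap (f := fun ω (r : ℝ) => f' r.toNNReal ω ^ 2) hg
  have h3 : ∀ᵐ ω ∂P, X ω ^ 2 ≤ ((b : ℝ) - a) * ∫ r, f' r.toNNReal ω ^ 2 ∂m := by
    filter_upwards [hN0, hXe] with ω h4 h5
    have h6 := sq_interval_le ((hc' ω).comp continuous_real_toNNReal) hab'
    rw [intervalIntegral.integral_of_le hab' (f := fun r => _ ^ 2)] at h6
    rw [h5]
    simpa only [f', if_neg h4, Function.comp] using h6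
  have h7 : Integrable (fun ω => X ω ^ 2) P :=
    (h1.const_mul _).mono' (hX.pow_const 2).aestronglyMeasurable
      (h3.mono fun ω h => by rwa [Real.norm_of_nonneg (sq_nonneg _)])
  refine ⟨h7, (integral_mono_ae h7 (h1.const_mul _) h3).trans ?_⟩
  rw [integral_const_mul, h2, sq, mul_assoc]
  refine mul_le_mul_of_nonneg_left ((integral_mono_ae hI (integrable_const C)
    (hC'.mono fun r hr => hr.2)).trans (le_of_eq ?_)) (by linarith)
  simp [m, hab']

end Pool.Agent.Lib.MP_0db9b2_pr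
end
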